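import Mathlib

/-!
# A locally checkable rule on `ℤ × ℤ` with no periodic solution, but with arbitrarily large
# solved squares (after Kari and Culik)
-/

namespace Pool.Agent.V1114.Tiles

/-- Symbols: a row bit `q` (multiply the row by `2` if `q`, by `2/3` otherwise), a label
`a.val + 1 ∈ {1, …, 6}` and a carry `c.val ∈ {0, …, 3}`. -/
abbrev Sym : Type := Bool × Fin 6 × Fin 4

/-- The denominator `m ∈ {1, 3}` of the multiplier `2 / m`. -/
def mOf (q : Bool) : ℕ := if q then 1 else 3

/-- The local rule at a site with symbol `σ`, right neighbour `τ`, upper neighbour `υ`: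
same row bit to the right, and `2 a(σ) + c(σ) = m a(υ) + c(τ)`. -/
def Rule (σ τ υ : Sym) : Prop :=
  τ.1 = σ.1 ∧ 2 * (σ.2.1.val + 1) + σ.2.2.val = mOf σ.1 * (υ.2.1.val + 1) + τ.2.2.val

/-- One-hot encoding of symbols as configurations of bits. -/
def enc (σ : Sym) : Sym → Bool := fun p => decide (p = σ)

lemma enc_injective : Function.Injective enc := by
  intro σ τ h
  have := congrFun h σ
  simp only [enc, decide_true] at this
  simpa using this.symm

lemma enc_ne (σ : Sym) : enc σ ≠ fun _ => false := by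
  intro h
  have := congrFun h σ
  simp [enc] at this

/-- A window (origin, right neighbour, upper neighbour) of bit patterns is good if its origin is
blank, or if it encodes three symbols satisfying the rule. -/
def Good (f0 f1 f2 : Sym → Bool) : Prop :=
  f0 = (fun _ => false) ∨ ∃ σ τ υ, f0 = enc σ ∧ f1 = enc τ ∧ f2 = enc υ ∧ Rule σ τ υ

/-- There is no doubly periodic configuration all of whose windows are good, except the
blank one. -/
theorem aperiodic (x : ℤ × ℤ → Sym → Bool)
    (hgood : ∀ z : ℤ × ℤ, Good (x z) (x (z + (1, 0))) (x (z + (0, 1))))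
    (P Q : ℕ) (hP : 0 < P) (hQ : 0 < Q)
    (hper1 : ∀ z : ℤ × ℤ, x (z + ((P : ℤ), 0)) = x z)
    (hper2 : ∀ z : ℤ × ℤ, x (z + (0, (Q : ℤ))) = x z)
    (u : ℤ × ℤ) : x u = fun _ => false := by
  by_contra hu
  -- all sites to the upper right of `u` carry symbols
  have hsym : ∀ i j : ℕ, ∃ σ, x (u + ((i : ℤ), (j : ℤ))) = enc σ := by
    have step : ∀ z : ℤ × ℤ, (x z ≠ fun _ => false) →
        ∃ σ τ υ, x z = enc σ ∧ x (z + (1, 0)) = enc τ ∧ x (z + (0, 1)) = enc υ ∧ Rule σ τ υ := by
      intro z hz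
      rcases hgood z with h | h
      · exact absurd h hz
      · exact h
    have h1 : ∀ i : ℕ, ∃ σ, x (u + ((i : ℤ), 0)) = enc σ := by
      intro i
      induction i with
      | zero =>
        obtain ⟨σ, τ, υ, h, -⟩ := step u hu
        refine ⟨σ, ?_⟩
        rw [← h]
        congr 1
        ext <;> simp
      | succ i ih =>
        obtain ⟨σ, hσ⟩ := ih
        obtain ⟨σ', τ, υ, -, h, -⟩ := step _ (by rw [hσ]; exact enc_ne σ)
        refine ⟨τ, ?_⟩
        rw [← h]
        congr 1
        ext <;> simp; ring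
    intro i j
    induction j with
    | zero => simpa using h1 i
    | succ j ih =>
      obtain ⟨σ, hσ⟩ := ih
      obtain ⟨σ', τ, υ, -, -, h, -⟩ := step _ (by rw [hσ]; exact enc_ne σ)
      refine ⟨υ, ?_⟩
      rw [← h]
      congr 1
      ext <;> simp; ring
  choose s hs using hsym
  have hrule : ∀ i j : ℕ, Rule (s i j) (s (i + 1) j) (s i (j + 1)) := by
    intro i j
    rcases hgood (u + ((i : ℤ), (j : ℤ))) with h | ⟨σ, τ, υ, h0, h1, h2, hr⟩
    · rw [hs] at h
      exact absurd h (enc_ne _)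
    · have e0 : s i j = σ := enc_injective (by rw [← hs, h0])
      have e1 : s (i + 1) j = τ := by
        apply enc_injective
        rw [← hs, ← h1]
        congr 1
        ext <;> simp; ring
      have e2 : s i (j + 1) = υ := by
        apply enc_injective
        rw [← hs, ← h2]
        congr 1
        ext <;> simp; ring
      rw [e0, e1, e2]
      exact hr
  have hsP : ∀ j, s P j = s 0 j := by
    intro j
    apply enc_injective
    rw [← hs, ← hs, ← hper1 (u + (((0 : ℕ) : ℤ), (j : ℤ)))]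
    congr 1
    ext <;> simp
  have hsQ : ∀ i, s i Q = s i 0 := by
    intro i
    apply enc_injective
    rw [← hs, ← hs, ← hper2 (u + ((i : ℤ), ((0 : ℕ) : ℤ)))]
    congr 1
    ext <;> simp
  have hq : ∀ i j, (s i j).1 = (s 0 j).1 := by
    intro i j
    induction i with
    | zero => rfl
    | succ i ih => rw [(hrule i j).1, ih]
  -- row sums
  set S : ℕ → ℕ := fun j => ∑ i ∈ Finset.range P, ((s i j).2.1.val + 1) with hS
  have hSpos : ∀ j, 0 < S j := by
    intro j
    simp only [hS]
    apply Finset.sum_pos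
    · intro i _; omega
    · exact ⟨0, by simpa using hP⟩
  have hrow : ∀ j, 2 * S j = mOf (s 0 j).1 * S (j + 1) := by
    intro j
    have key : ∀ n : ℕ, 2 * (∑ i ∈ Finset.range n, ((s i j).2.1.val + 1)) + (s 0 j).2.2.val
        = mOf (s 0 j).1 * (∑ i ∈ Finset.range n, ((s i (j + 1)).2.1.val + 1))
          + (s n j).2.2.val := by
      intro n
      induction n with
      | zero => simp
      | succ n ih =>
        rw [Finset.sum_range_succ, Finset.sum_range_succ, mul_add, mul_add (mOf (s 0 j).1)]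
        have := (hrule n j).2
        rw [hq n j] at this
        omega
    have := key P
    rw [hsP] at this
    simp only [hS]
    omega
  have hprod : ∀ n : ℕ, 2 ^ n * S 0 = (∏ j ∈ Finset.range n, mOf (s 0 j).1) * S n := by
    intro n
    induction n with
    | zero => simp
    | succ n ih =>
      rw [pow_succ, Finset.prod_range_succ, mul_assoc (∏ j ∈ Finset.range n, mOf (s 0 j).1),
        ← hrow n]
      calc 2 ^ n * 2 * S 0 = 2 * (2 ^ n * S 0) := by ring
        _ = _ := by rw [ih]; ring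
  have h1 := hprod Q
  have hSQ : S Q = S 0 := by
    simp only [hS]
    apply Finset.sum_congr rfl
    intro i _
    rw [hsQ]
  rw [hSQ] at h1
  have h2 : 2 ^ Q = ∏ j ∈ Finset.range Q, mOf (s 0 j).1 :=
    Nat.eq_of_mul_eq_mul_right (hSpos 0) h1
  have hodd : Odd (∏ j ∈ Finset.range Q, mOf (s 0 j).1) := by
    apply Finset.prod_induction _ Odd
    · intro a b ha hb; exact ha.mul hb
    · exact odd_one
    · intro j _
      unfold mOf
      split_ifs
      · exact odd_one
      · exact ⟨1, rfl⟩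
  rw [← h2] at hodd
  have : Even (2 ^ Q) := (Nat.even_pow).mpr ⟨even_two, hQ.ne'⟩
  exact (Nat.not_even_iff_odd.mpr hodd) this

/-! ## Large solved squares -/

/-- The row values. -/
noncomputable def r : ℕ → ℚ
  | 0 => 2
  | n + 1 => if r n < 3 then 2 * r n else 2 / 3 * r n

lemma r_bounds (n : ℕ) : 2 ≤ r n ∧ r n < 6 := by
  induction n with
  | zero => simp [r]; norm_num
  | succ n ih =>
    rw [r]
    split_ifs with h
    · constructor <;> linarith [ih.1, ih.2]
    · constructor <;> linarith [ih.1, ih.2]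

/-- The row bit. -/
noncomputable def qq (j : ℕ) : Bool := decide (r j < 3)

lemma m_r (j : ℕ) : (mOf (qq j) : ℚ) * r (j + 1) = 2 * r j := by
  unfold qq mOf
  rw [r]
  by_cases h : r j < 3
  · simp [h]
  · simp [h]; ring

/-- The label. -/
noncomputable def lab (i j : ℕ) : ℤ := ⌊((i : ℚ) + 1) * r j⌋ - ⌊(i : ℚ) * r j⌋ - 1

/-- The carry. -/
noncomputable def car (i j : ℕ) : ℤ := 2 * ⌊(i : ℚ) * r j⌋ - mOf (qq j) * ⌊(i : ℚ) * r (j + 1)⌋ + 1

lemma lab_bounds (i j : ℕ) : 0 ≤ lab i j ∧ lab i j < 6 := by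
  obtain ⟨h2, h6⟩ := r_bounds j
  unfold lab
  have e1 : ((i : ℚ) + 1) * r j = (i : ℚ) * r j + r j := by ring
  constructor
  · have : ⌊(i : ℚ) * r j⌋ + 2 ≤ ⌊((i : ℚ) + 1) * r j⌋ := by
      rw [Int.le_floor, e1]
      push_cast
      have := Int.floor_le ((i : ℚ) * r j)
      linarith
    omega
  · have : ⌊((i : ℚ) + 1) * r j⌋ < ⌊(i : ℚ) * r j⌋ + 7 := by
      rw [Int.floor_lt, e1]
      push_cast
      have := Int.lt_floor_add_one ((i : ℚ) * r j)
      linarith
    omega

lemma car_bounds (i j : ℕ) : 0 ≤ car i j ∧ car i j < 4 := by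
  unfold car
  have hm := m_r j
  set y : ℚ := (i : ℚ) * r j with hy
  set y' : ℚ := (i : ℚ) * r (j + 1) with hy'
  have hyy : (mOf (qq j) : ℚ) * y' = 2 * y := by
    rw [hy, hy']
    linear_combination (i : ℚ) * hm
  have f1 := Int.floor_le y
  have f2 := Int.lt_floor_add_one y
  have f3 := Int.floor_le y'
  have f4 := Int.lt_floor_add_one y'
  have hcases : mOf (qq j) = 1 ∨ mOf (qq j) = 3 := by
    unfold mOf
    split_ifs <;> simp
  rcases hcases with hc | hc
  · rw [hc] at hyy ⊢
    push_cast at hyy ⊢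
    constructor
    · have : (-2 : ℚ) < 2 * ⌊y⌋ - 1 * ⌊y'⌋ := by linarith
      have : (-2 : ℤ) < 2 * ⌊y⌋ - 1 * ⌊y'⌋ := by exact_mod_cast this
      omega
    · have : 2 * (⌊y⌋ : ℚ) - 1 * ⌊y'⌋ < 1 := by linarith
      have : 2 * ⌊y⌋ - 1 * ⌊y'⌋ < 1 := by exact_mod_cast this
      omega
  · rw [hc] at hyy ⊢
    push_cast at hyy ⊢
    constructor
    · have : (-2 : ℚ) < 2 * ⌊y⌋ - 3 * ⌊y'⌋ := by linarith
      have : (-2 : ℤ) < 2 * ⌊y⌋ - 3 * ⌊y'⌋ := by exact_mod_cast this
      omega
    · have : 2 * (⌊y⌋ : ℚ) - 3 * ⌊y'⌋ < 3 := by linarith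
      have : 2 * ⌊y⌋ - 3 * ⌊y'⌋ < 3 := by exact_mod_cast this
      omega

/-- The symbol at the site `(i, j)` of the upper right quadrant. -/
noncomputable def sy (i j : ℕ) : Sym :=
  (qq j, ⟨(lab i j).toNat, by have := lab_bounds i j; omega⟩,
    ⟨(car i j).toNat, by have := car_bounds i j; omega⟩)

lemma rule_sy (i j : ℕ) : Rule (sy i j) (sy (i + 1) j) (sy i (j + 1)) := by
  refine ⟨rfl, ?_⟩
  have b1 := lab_bounds i j
  have b2 := lab_bounds i (j + 1)
  have b3 := car_bounds i j
  have b4 := car_bounds (i + 1) j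
  have key : 2 * (lab i j + 1) + car i j
      = mOf (qq j) * (lab i (j + 1) + 1) + car (i + 1) j := by
    unfold lab car
    push_cast
    ring
  show 2 * ((lab i j).toNat + 1) + (car i j).toNat
    = mOf (qq j) * ((lab i (j + 1)).toNat + 1) + (car (i + 1) j).toNat
  zify
  rw [Int.toNat_of_nonneg b1.1, Int.toNat_of_nonneg b2.1, Int.toNat_of_nonneg b3.1,
    Int.toNat_of_nonneg b4.1]
  exact key

end Pool.Agent.V1114.Tiles
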