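import Mathlib
import Pool.Agent.V1114.Tiles

/-!
# A lamplighter-type group over `ℤ × ℤ` and the counting functionals
-/

namespace Pool.Agent.V1114.Lamp

open Pool.Agent.V1114.Tiles

/-- Generators: two translations and one lamp for each symbol. -/
inductive Gen
  | s
  | t
  | a (p : Sym)

theorem finite_Gen : Finite Gen := by
  have : Function.Injective
      (fun g : Gen => (match g with
        | .s => (none : Option (Option Sym))
        | .t => some none
        | .a p => some (some p))) := by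
    intro g h hgh
    cases g <;> cases h <;> simp_all
  exact Finite.of_injective _ this

/-- The translation word. -/
def ftau (z : ℤ × ℤ) : FreeGroup Gen :=
  FreeGroup.of Gen.s ^ z.1 * FreeGroup.of Gen.t ^ z.2

/-- The relators. -/
inductive IsRel : FreeGroup Gen → Prop
  | st : IsRel (FreeGroup.of Gen.s * FreeGroup.of Gen.t * (FreeGroup.of Gen.s)⁻¹
      * (FreeGroup.of Gen.t)⁻¹)
  | sq (p : Sym) : IsRel (FreeGroup.of (Gen.a p) * FreeGroup.of (Gen.a p))
  | comm (z : ℤ × ℤ) (p q : Sym) : IsRel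
      ((ftau z * FreeGroup.of (Gen.a p) * (ftau z)⁻¹) * FreeGroup.of (Gen.a q)
        * (ftau z * FreeGroup.of (Gen.a p) * (ftau z)⁻¹)⁻¹ * (FreeGroup.of (Gen.a q))⁻¹)

/-- The lamplighter-type group. -/
abbrev LG : Type := PresentedGroup {x | IsRel x}

theorem fg_LG : Group.FG LG := by
  have := finite_Gen
  show Group.FG (FreeGroup Gen ⧸ Subgroup.normalClosure {x | IsRel x})
  exact QuotientGroup.fg _

/-- The translations. -/
def tau (z : ℤ × ℤ) : LG :=
  (PresentedGroup.of Gen.s : LG) ^ z.1 * (PresentedGroup.of Gen.t : LG) ^ z.2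

/-- The lamps. -/
def lamp (z : ℤ × ℤ) (p : Sym) : LG := tau z * PresentedGroup.of (Gen.a p) * (tau z)⁻¹

lemma st_comm : Commute (PresentedGroup.of Gen.s : LG) (PresentedGroup.of Gen.t : LG) := by
  have h : (PresentedGroup.mk {x | IsRel x} (FreeGroup.of Gen.s * FreeGroup.of Gen.t
      * (FreeGroup.of Gen.s)⁻¹ * (FreeGroup.of Gen.t)⁻¹)) = 1 := by
    apply PresentedGroup.one_of_mem
    exact IsRel.st
  rw [map_mul, map_mul, map_mul, map_inv, map_inv] at h
  have h2 := mul_inv_eq_one.mp h
  rw [mul_inv_eq_iff_eq_mul] at h2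
  exact h2

lemma mk_ftau (z : ℤ × ℤ) : PresentedGroup.mk {x | IsRel x} (ftau z) = tau z := by
  unfold ftau tau
  rw [map_mul, map_zpow, map_zpow]
  rfl

lemma tau_add (z w : ℤ × ℤ) : tau (z + w) = tau z * tau w := by
  unfold tau
  rw [Prod.fst_add, Prod.snd_add, zpow_add, zpow_add]
  have h := (st_comm.zpow_zpow w.1 z.2).eq
  rw [mul_assoc, ← mul_assoc _ (_ ^ z.2), h]
  group

@[simp] lemma tau_zero : tau 0 = 1 := by
  simp [tau]

lemma tau_neg (z : ℤ × ℤ) : tau (-z) = (tau z)⁻¹ := by
  rw [eq_inv_iff_mul_eq_one, ← tau_add, neg_add_cancel, tau_zero]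

lemma lamp_zero (p : Sym) : lamp 0 p = PresentedGroup.of (Gen.a p) := by
  simp [lamp]

lemma conj_lamp (u z : ℤ × ℤ) (p : Sym) : tau u * lamp z p * (tau u)⁻¹ = lamp (u + z) p := by
  unfold lamp
  rw [tau_add]
  group

lemma lamp_sq (z : ℤ × ℤ) (p : Sym) : lamp z p * lamp z p = 1 := by
  have h : (PresentedGroup.of (Gen.a p) : LG) * PresentedGroup.of (Gen.a p) = 1 := by
    have : (PresentedGroup.mk {x | IsRel x} (FreeGroup.of (Gen.a p) * FreeGroup.of (Gen.a p)))
        = 1 := PresentedGroup.one_of_mem (IsRel.sq p)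
    rwa [map_mul] at this
  unfold lamp
  calc tau z * PresentedGroup.of (Gen.a p) * (tau z)⁻¹
        * (tau z * PresentedGroup.of (Gen.a p) * (tau z)⁻¹)
      = tau z * (PresentedGroup.of (Gen.a p) * PresentedGroup.of (Gen.a p)) * (tau z)⁻¹ := by group
    _ = 1 := by rw [h]; group

lemma lamp_comm_zero (z : ℤ × ℤ) (p q : Sym) : Commute (lamp z p) (lamp 0 q) := by
  have h : (PresentedGroup.mk {x | IsRel x}
      ((ftau z * FreeGroup.of (Gen.a p) * (ftau z)⁻¹) * FreeGroup.of (Gen.a q)
        * (ftau z * FreeGroup.of (Gen.a p) * (ftau z)⁻¹)⁻¹ * (FreeGroup.of (Gen.a q))⁻¹)) = 1 :=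
    PresentedGroup.one_of_mem (IsRel.comm z p q)
  simp only [map_mul, map_inv, mk_ftau] at h
  have h2 := mul_inv_eq_one.mp h
  rw [mul_inv_eq_iff_eq_mul] at h2
  rw [lamp_zero]
  exact h2

lemma lamp_comm (z w : ℤ × ℤ) (p q : Sym) : Commute (lamp z p) (lamp w q) := by
  have h := (lamp_comm_zero (z - w) p q).eq
  have e1 : lamp z p = tau w * lamp (z - w) p * (tau w)⁻¹ := by
    rw [conj_lamp]; congr 1; abel
  have e2 : lamp w q = tau w * lamp 0 q * (tau w)⁻¹ := by
    rw [conj_lamp, add_zero]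
  show lamp z p * lamp w q = lamp w q * lamp z p
  rw [e1, e2]
  calc tau w * lamp (z - w) p * (tau w)⁻¹ * (tau w * lamp 0 q * (tau w)⁻¹)
      = tau w * (lamp (z - w) p * lamp 0 q) * (tau w)⁻¹ := by group
    _ = _ := by rw [h]; group

/-- The positions of the window. -/
def wpos : Fin 3 → ℤ × ℤ := ![(0, 0), (1, 0), (0, 1)]

/-- The index set of the lamps of the window. -/
abbrev I : Type := Fin 3 × Sym

/-- The lamps of the window. -/
def wl (i : I) : LG := lamp (wpos i.1) i.2

/-- The finite subgroup generated by the lamps of the window. -/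
def H : Subgroup LG := ⨆ i : I, Subgroup.zpowers (wl i)

lemma wl_mem (i : I) : wl i ∈ H :=
  (le_iSup (fun i : I => Subgroup.zpowers (wl i)) i) (Subgroup.mem_zpowers _)

theorem finite_H : Finite H := by
  classical
  have hcomm : Pairwise fun i j : I => ∀ x y : LG, x ∈ Subgroup.zpowers (wl i) →
      y ∈ Subgroup.zpowers (wl j) → Commute x y := by
    intro i j _ x y hx hy
    obtain ⟨m, rfl⟩ := Subgroup.mem_zpowers_iff.mp hx
    obtain ⟨n, rfl⟩ := Subgroup.mem_zpowers_iff.mp hy
    exact (lamp_comm _ _ _ _).zpow_zpow m n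
  have hfin : ∀ i : I, Finite (Subgroup.zpowers (wl i)) := by
    intro i
    have : IsOfFinOrder (wl i) := by
      rw [isOfFinOrder_iff_pow_eq_one]
      exact ⟨2, by norm_num, by rw [pow_two]; exact lamp_sq _ _⟩
    exact (finite_zpowers.mpr this).to_subtype
  have hr := Subgroup.noncommPiCoprod_range (H := fun i : I => Subgroup.zpowers (wl i))
    (hcomm := hcomm)
  have : Finite (Subgroup.noncommPiCoprod hcomm).range := by
    have : Finite ((i : I) → (Subgroup.zpowers (wl i))) := Pi.finite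
    exact Finite.of_surjective _ (Subgroup.noncommPiCoprod hcomm).rangeRestrict_surjective
  rw [hr] at this
  exact this

/-! ## Counting functionals -/

/-- The sign of a bit. -/
def sgn (b : Bool) : ℂ := if b then -1 else 1

lemma sgn_injective : Function.Injective sgn := by
  intro a b h
  cases a <;> cases b <;> simp [sgn] at h ⊢
  · norm_num [Complex.ext_iff] at h
  · norm_num [Complex.ext_iff] at h

section Count

variable {V : Type*} [AddCommGroup V] [Module ℂ V]

/-- The joint eigenspace. -/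
def W (B : I → V →ₗ[ℂ] V) (π : I → Bool) : Submodule ℂ V where
  carrier := {v | ∀ i, B i v = sgn (π i) • v}
  zero_mem' := by intro i; simp
  add_mem' := by
    intro v w hv hw i
    rw [map_add, hv i, hw i, smul_add]
  smul_mem' := by
    intro c v hv i
    rw [map_smul, hv i, smul_comm]

lemma mem_W {B : I → V →ₗ[ℂ] V} {π : I → Bool} {v : V} :
    v ∈ W B π ↔ ∀ i, B i v = sgn (π i) • v := Iff.rfl

/-- Total dimension of the joint eigenspaces with patterns in `𝒮`. -/
noncomputable def cnt (B : I → V →ₗ[ℂ] V) (𝒮 : Finset (I → Bool)) : ℕ :=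
  ∑ π ∈ 𝒮, Module.finrank ℂ (W B π)

lemma cnt_equiv {V' : Type*} [AddCommGroup V'] [Module ℂ V'] (e : V ≃ₗ[ℂ] V')
    (B : I → V →ₗ[ℂ] V) (B' : I → V' →ₗ[ℂ] V') (h : ∀ i v, e (B i v) = B' i (e v))
    (𝒮 : Finset (I → Bool)) : cnt B 𝒮 = cnt B' 𝒮 := by
  unfold cnt
  apply Finset.sum_congr rfl
  intro π _
  have hmap : (W B π).map (e : V →ₗ[ℂ] V') = W B' π := by
    ext v
    constructor
    · rintro ⟨w, hw, rfl⟩
      intro i
      rw [LinearEquiv.coe_coe, ← h, hw i, map_smul]
    · intro hv
      refine ⟨e.symm v, ?_, by simp⟩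
      intro i
      apply e.injective
      rw [h, map_smul]
      simpa using hv i
  rw [← hmap]
  exact (LinearEquiv.finrank_eq (e.submoduleMap (W B π)))

/-- The componentwise operators on a finite direct sum. -/
def piB {ι : Type*} {M : ι → Type*} [∀ j, AddCommGroup (M j)] [∀ j, Module ℂ (M j)]
    (B : ∀ j, I → M j →ₗ[ℂ] M j) (i : I) : (∀ j, M j) →ₗ[ℂ] (∀ j, M j) :=
  LinearMap.pi fun j => (B j i).comp (LinearMap.proj j)

lemma piB_apply {ι : Type*} {M : ι → Type*} [∀ j, AddCommGroup (M j)] [∀ j, Module ℂ (M j)]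
    (B : ∀ j, I → M j →ₗ[ℂ] M j) (i : I) (v : ∀ j, M j) (j : ι) :
    piB B i v j = B j i (v j) := rfl

lemma cnt_pi {ι : Type*} [Fintype ι] {M : ι → Type*} [∀ j, AddCommGroup (M j)]
    [∀ j, Module ℂ (M j)] [∀ j, FiniteDimensional ℂ (M j)]
    (B : ∀ j, I → M j →ₗ[ℂ] M j) (𝒮 : Finset (I → Bool)) :
    cnt (piB B) 𝒮 = ∑ j, cnt (B j) 𝒮 := by
  unfold cnt
  rw [Finset.sum_comm]
  apply Finset.sum_congr rfl
  intro π _
  let e : W (piB B) π ≃ₗ[ℂ] (∀ j, W (B j) π) :=
    { toFun := fun v j => ⟨v.1 j, fun i => congrFun (v.2 i) j⟩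
      invFun := fun v => ⟨fun j => (v j).1, fun i => by
        ext j
        exact (v j).2 i⟩
      map_add' := fun v w => rfl
      map_smul' := fun c v => rfl
      left_inv := fun v => rfl
      right_inv := fun v => rfl }
  rw [e.finrank_eq, Module.finrank_pi_fintype]

end Count

/-! ## Representations of the group -/

section Rep

variable {V : Type*} [AddCommGroup V] [Module ℂ V]

/-- The operators of the window lamps in a representation. -/
def BB (ρ : Representation ℂ LG V) (i : I) : V →ₗ[ℂ] V := ρ (wl i)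

/-- The bad patterns. -/
noncomputable def Bad : Finset (I → Bool) :=
  (Set.toFinite {π : I → Bool | ¬ Good (fun p => π (0, p)) (fun p => π (1, p))
    (fun p => π (2, p))}).toFinset

/-- The patterns which are not blank at the origin. -/
noncomputable def NB : Finset (I → Bool) :=
  (Set.toFinite {π : I → Bool | (fun p => π (0, p)) ≠ fun _ => false}).toFinset

lemma mem_Bad {π : I → Bool} : π ∈ Bad ↔
    ¬ Good (fun p => π (0, p)) (fun p => π (1, p)) (fun p => π (2, p)) :=
  Set.Finite.mem_toFinset _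

lemma mem_NB {π : I → Bool} : π ∈ NB ↔ (fun p => π (0, p)) ≠ fun _ => false :=
  Set.Finite.mem_toFinset _

/-- Common eigenvectors of commuting involutions. -/
lemma exists_common {ι : Type*} (f : ι → V →ₗ[ℂ] V) [FiniteDimensional ℂ V]
    (hcomm : ∀ i j v, f i (f j v) = f j (f i v)) (hsq : ∀ i v, f i (f i v) = v) :
    ∀ (n : ℕ) (U : Submodule ℂ V), Module.finrank ℂ U = n → U ≠ ⊥ →
      (∀ i, ∀ v ∈ U, f i v ∈ U) →
      ∃ w ∈ U, w ≠ 0 ∧ ∀ i, ∃ b : Bool, f i w = sgn b • w := by
  intro n
  induction n using Nat.strong_induction_on with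
  | _ n ih =>
    intro U hn hU hinv
    by_cases hall : ∀ i, (∀ v ∈ U, f i v = v) ∨ (∀ v ∈ U, f i v = -v)
    · obtain ⟨w, hw, hw0⟩ := (Submodule.ne_bot_iff U).mp hU
      refine ⟨w, hw, hw0, fun i => ?_⟩
      rcases hall i with h | h
      · exact ⟨false, by simp [sgn, h w hw]⟩
      · exact ⟨true, by simp [sgn, h w hw]⟩
    · push Not at hall
      obtain ⟨i, ⟨u, hu, hu1⟩, ⟨v, hv, hv1⟩⟩ := hall
      let U' : Submodule ℂ V := U ⊓ LinearMap.ker (f i - LinearMap.id)
      have hU'le : U' ≤ U := inf_le_left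
      have hmem : ∀ x, x ∈ U' ↔ x ∈ U ∧ f i x = x := by
        intro x
        simp only [U', Submodule.mem_inf, LinearMap.mem_ker, LinearMap.sub_apply,
          LinearMap.id_apply, sub_eq_zero]
      have hlt : U' < U := by
        refine lt_of_le_of_ne hU'le ?_
        intro h
        have : u ∈ U' := by rw [h]; exact hu
        exact hu1 ((hmem u).mp this).2
      have hne : U' ≠ ⊥ := by
        rw [Submodule.ne_bot_iff]
        refine ⟨v + f i v, ?_, ?_⟩
        · rw [hmem]
          refine ⟨U.add_mem hv (hinv i v hv), ?_⟩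
          rw [map_add, hsq, add_comm]
        · intro h
          apply hv1
          rw [add_comm] at h
          exact eq_neg_of_add_eq_zero_left h
      have hfin : Module.finrank ℂ U' < n := by
        rw [← hn]
        exact Submodule.finrank_lt_finrank_of_lt hlt
      obtain ⟨w, hw, hw0, hw1⟩ := ih _ hfin U' rfl hne (by
        intro j x hx
        rw [hmem] at hx ⊢
        refine ⟨hinv j x hx.1, ?_⟩
        rw [hcomm, hx.2])
      exact ⟨w, hU'le hw, hw0, hw1⟩

lemma rho_comm (ρ : Representation ℂ LG V) {g h : LG} (hgh : Commute g h) (v : V) :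
    ρ g (ρ h v) = ρ h (ρ g v) := by
  rw [← Module.End.mul_apply, ← Module.End.mul_apply, ← map_mul, ← map_mul, hgh.eq]

/-- Translations of eigenvectors. -/
lemma shift_eigen (ρ : Representation ℂ LG V) (x : ℤ × ℤ → Sym → Bool) (w : V)
    (hx : ∀ z p, ρ (lamp z p) w = sgn (x z p) • w) (u z : ℤ × ℤ) (p : Sym) :
    ρ (lamp z p) (ρ (tau (-u)) w) = sgn (x (z + u) p) • ρ (tau (-u)) w := by
  have h : lamp z p * tau (-u) = tau (-u) * lamp (z + u) p := by
    have := conj_lamp (-u) (z + u) p
    have e : -u + (z + u) = z := by abel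
    rw [e] at this
    rw [← this]
    group
  rw [← Module.End.mul_apply, ← map_mul, h, map_mul, Module.End.mul_apply, hx, map_smul]

lemma rho_ne_zero (ρ : Representation ℂ LG V) (g : LG) {w : V} (hw : w ≠ 0) : ρ g w ≠ 0 := by
  intro h
  apply hw
  have : ρ g⁻¹ (ρ g w) = w := by
    rw [← Module.End.mul_apply, ← map_mul, inv_mul_cancel, map_one]
    rfl
  rw [← this, h, map_zero]

lemma period (ρ : Representation ℂ LG V) [FiniteDimensional ℂ V]
    (x : ℤ × ℤ → Sym → Bool) (w : V) (hw : w ≠ 0)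
    (hx : ∀ z p, ρ (lamp z p) w = sgn (x z p) • w) (d : ℤ × ℤ) :
    ∃ P : ℕ, 0 < P ∧ ∀ z, x (z + (P : ℤ) • d) = x z := by
  let f : (ℤ × ℤ) × Sym → Module.End ℂ V := fun i => ρ (lamp i.1 i.2)
  have hcomm : ∀ i j, Commute (f i) (f j) := by
    intro i j
    show ρ (lamp i.1 i.2) * ρ (lamp j.1 j.2) = ρ (lamp j.1 j.2) * ρ (lamp i.1 i.2)
    rw [← map_mul, ← map_mul, (lamp_comm i.1 j.1 i.2 j.2).eq]
  have hind := Module.End.independent_iInf_maxGenEigenspace_of_forall_mapsTo f (by
    intro i j φ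
    exact Module.End.mapsTo_maxGenEigenspace_of_comm (hcomm j i) φ)
  have hfinite := WellFoundedGT.finite_ne_bot_of_iSupIndep hind
  let χ : ℕ → ((ℤ × ℤ) × Sym → ℂ) := fun n i => sgn (x (i.1 + (n : ℤ) • d) i.2)
  have hχ : ∀ n, (⨅ i, (f i).maxGenEigenspace (χ n i)) ≠ ⊥ := by
    intro n
    rw [Submodule.ne_bot_iff]
    refine ⟨ρ (tau (-((n : ℤ) • d))) w, ?_, rho_ne_zero ρ _ hw⟩
    rw [Submodule.mem_iInf]
    intro i
    have h1 : ρ (tau (-((n : ℤ) • d))) w ∈ (f i).eigenspace (χ n i) := by
      rw [Module.End.mem_eigenspace_iff]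
      exact shift_eigen ρ x w hx _ _ _
    exact Module.End.eigenspace_le_maxGenEigenspace h1
  have hnotinj : ¬ Function.Injective χ := by
    intro hinj
    have : Set.range χ ⊆ {χ | (⨅ i, (f i).maxGenEigenspace (χ i)) ≠ ⊥} := by
      rintro _ ⟨n, rfl⟩
      exact hχ n
    exact Set.infinite_range_of_injective hinj (hfinite.subset this)
  have : ∃ n m : ℕ, n < m ∧ χ n = χ m := by
    by_contra hcon
    push Not at hcon
    apply hnotinj
    intro n m hnm
    rcases lt_trichotomy n m with h | h | h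
    · exact absurd hnm (hcon n m h)
    · exact h
    · exact absurd hnm.symm (hcon m n h)
  obtain ⟨n, m, hlt, hnm⟩ := this
  refine ⟨m - n, by omega, fun z => ?_⟩
  ext p
  have := congrFun hnm ((z - (n : ℤ) • d), p)
  simp only [χ] at this
  have h2 := sgn_injective this
  rw [sub_add_cancel] at h2
  rw [h2]
  congr 1
  push_cast [Nat.cast_sub hlt.le]
  rw [sub_smul]
  abel_nf

/-- The key fact: without bad patterns the lamps at the origin act trivially. -/
theorem key (ρ : Representation ℂ LG V) [FiniteDimensional ℂ V] (h : cnt (BB ρ) Bad = 0) :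
    cnt (BB ρ) NB = 0 := by
  classical
  by_contra hne
  have : ∃ π ∈ NB, Module.finrank ℂ (W (BB ρ) π) ≠ 0 := by
    by_contra hcon
    push Not at hcon
    exact hne (Finset.sum_eq_zero hcon)
  obtain ⟨π, hπ, hfr⟩ := this
  have hU : W (BB ρ) π ≠ ⊥ := by
    intro hbot
    rw [hbot] at hfr
    exact hfr (finrank_bot ℂ V)
  obtain ⟨w, hwU, hw0, hw⟩ := exists_common (fun i : (ℤ × ℤ) × Sym => ρ (lamp i.1 i.2))
    (fun i j v => rho_comm ρ (lamp_comm _ _ _ _) v)
    (fun i v => by
      rw [← Module.End.mul_apply, ← map_mul, lamp_sq, map_one]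
      rfl) _ (W (BB ρ) π) rfl hU (by
      intro i v hv j
      show ρ (wl j) (ρ (lamp i.1 i.2) v) = sgn (π j) • ρ (lamp i.1 i.2) v
      have hc : ρ (wl j) (ρ (lamp i.1 i.2) v) = ρ (lamp i.1 i.2) (ρ (wl j) v) :=
        rho_comm ρ (lamp_comm (wpos j.1) i.1 j.2 i.2) v
      have hd : ρ (wl j) v = sgn (π j) • v := hv j
      rw [hc, hd, map_smul])
  choose y hy using hw
  set x : ℤ × ℤ → Sym → Bool := fun z p => y (z, p) with hxdef
  have hx : ∀ z p, ρ (lamp z p) w = sgn (x z p) • w := fun z p => hy (z, p)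
  -- windows of `x` are good
  have hgood : ∀ u : ℤ × ℤ, Good (x u) (x (u + (1, 0))) (x (u + (0, 1))) := by
    intro u
    by_contra hbad
    let π' : I → Bool := fun i => x (wpos i.1 + u) i.2
    have hmem : π' ∈ Bad := by
      rw [mem_Bad]
      have e0 : (fun p => π' (0, p)) = x u := by
        funext p
        show x ((0, 0) + u) p = x u p
        rw [Prod.mk_zero_zero, zero_add]
      have e1 : (fun p => π' (1, p)) = x (u + (1, 0)) := by
        funext p
        show x ((1, 0) + u) p = x (u + (1, 0)) p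
        rw [add_comm]
      have e2 : (fun p => π' (2, p)) = x (u + (0, 1)) := by
        funext p
        show x ((0, 1) + u) p = x (u + (0, 1)) p
        rw [add_comm]
      rw [e0, e1, e2]
      exact hbad
    have hz : Module.finrank ℂ (W (BB ρ) π') = 0 := (Finset.sum_eq_zero_iff.mp h) π' hmem
    have hbot : W (BB ρ) π' = ⊥ := Submodule.finrank_eq_zero.mp hz
    have hin : ρ (tau (-u)) w ∈ W (BB ρ) π' := by
      intro i
      exact shift_eigen ρ x w hx u (wpos i.1) i.2
    rw [hbot, Submodule.mem_bot] at hin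
    exact rho_ne_zero ρ _ hw0 hin
  obtain ⟨P, hP, hperP⟩ := period ρ x w hw0 hx (1, 0)
  obtain ⟨Q, hQ, hperQ⟩ := period ρ x w hw0 hx (0, 1)
  have hblank := aperiodic x hgood P Q hP hQ
    (fun z => by
      have := hperP z
      simpa using this)
    (fun z => by
      have := hperQ z
      simpa using this) (0, 0)
  -- but the pattern at the origin is not blank
  rw [mem_NB] at hπ
  apply hπ
  funext p
  have h1 : ρ (wl (0, p)) w = sgn (π (0, p)) • w := hwU (0, p)
  have h2 : ρ (wl (0, p)) w = sgn (x (0, 0) p) • w := hx (0, 0) p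
  rw [h1] at h2
  have h3 : sgn (π (0, p)) = sgn (x (0, 0) p) := smul_left_injective ℂ hw0 h2
  have h4 := sgn_injective h3
  show π (0, p) = false
  rw [h4, hblank]

end Rep

/-! ## The main inequality -/

/-- For finitely many representations there is a constant `D` with `NB ≤ D · Bad` for all direct
sums of them. -/
theorem main_bound {m : ℕ} {V : Fin m → Type*} [∀ j, AddCommGroup (V j)] [∀ j, Module ℂ (V j)]
    [∀ j, FiniteDimensional ℂ (V j)] (ρ : ∀ j, Representation ℂ LG (V j)) :
    ∃ D : ℕ, ∀ n : Fin m → ℕ,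
      cnt (piB (fun j => piB (fun _ : Fin (n j) => BB (ρ j)))) NB
        ≤ D * cnt (piB (fun j => piB (fun _ : Fin (n j) => BB (ρ j)))) Bad := by
  refine ⟨∑ j, cnt (BB (ρ j)) NB, fun n => ?_⟩
  have e : ∀ 𝒮, cnt (piB (fun j => piB (fun _ : Fin (n j) => BB (ρ j)))) 𝒮
      = ∑ j, n j * cnt (BB (ρ j)) 𝒮 := by
    intro 𝒮
    rw [cnt_pi]
    apply Finset.sum_congr rfl
    intro j _
    rw [cnt_pi]
    simp
  rw [e, e, Finset.mul_sum]
  apply Finset.sum_le_sum
  intro j _
  by_cases h : cnt (BB (ρ j)) Bad = 0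
  · rw [h, key (ρ j) h]
    simp
  · have h1 : 1 ≤ cnt (BB (ρ j)) Bad := Nat.one_le_iff_ne_zero.mpr h
    have h2 : cnt (BB (ρ j)) NB ≤ ∑ j, cnt (BB (ρ j)) NB :=
      Finset.single_le_sum (f := fun j => cnt (BB (ρ j)) NB) (fun _ _ => Nat.zero_le _)
        (Finset.mem_univ j)
    calc n j * cnt (BB (ρ j)) NB ≤ n j * ((∑ j, cnt (BB (ρ j)) NB) * cnt (BB (ρ j)) Bad) := by
          apply Nat.mul_le_mul_left
          calc cnt (BB (ρ j)) NB ≤ (∑ j, cnt (BB (ρ j)) NB) * 1 := by omega
            _ ≤ _ := Nat.mul_le_mul_left _ h1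
      _ = _ := by ring

/-! ## The finite actions -/

/-- The torus times two points. -/
abbrev XN (N : ℕ) : Type := (ZMod N × ZMod N) × Bool

/-- The bit pattern of the configuration on the torus. -/
noncomputable def cfg (N : ℕ) (z : ZMod N × ZMod N) : Sym → Bool := enc (sy z.1.val z.2.val)

/-- Translation. -/
def trans (N : ℕ) (d : ZMod N × ZMod N) : Equiv.Perm (XN N) :=
  (Equiv.subRight d).prodCongr (Equiv.refl Bool)

/-- The lamp permutation. -/
noncomputable def flip (N : ℕ) (g : ZMod N × ZMod N → Bool) : Equiv.Perm (XN N) where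
  toFun x := (x.1, xor x.2 (g x.1))
  invFun x := (x.1, xor x.2 (g x.1))
  left_inv x := by simp
  right_inv x := by simp

lemma trans_apply (N : ℕ) (d : ZMod N × ZMod N) (x : XN N) : trans N d x = (x.1 - d, x.2) := rfl

lemma flip_apply (N : ℕ) (g : ZMod N × ZMod N → Bool) (x : XN N) :
    flip N g x = (x.1, xor x.2 (g x.1)) := rfl

lemma trans_mul (N : ℕ) (d e : ZMod N × ZMod N) : trans N d * trans N e = trans N (d + e) := by
  ext x : 1
  rw [Equiv.Perm.mul_apply, trans_apply, trans_apply, trans_apply]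
  ext : 1
  · show x.1 - e - d = x.1 - (d + e)
    abel
  · rfl

lemma trans_zero (N : ℕ) : trans N 0 = 1 := by
  ext x : 1
  rw [trans_apply, Equiv.Perm.one_apply]
  simp

lemma trans_inv (N : ℕ) (d : ZMod N × ZMod N) : (trans N d)⁻¹ = trans N (-d) := by
  rw [inv_eq_iff_mul_eq_one, trans_mul, add_neg_cancel, trans_zero]

/-- Translation as a homomorphism. -/
def transHom (N : ℕ) : Multiplicative (ZMod N × ZMod N) →* Equiv.Perm (XN N) where
  toFun d := trans N d.toAdd
  map_one' := trans_zero N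
  map_mul' d e := (trans_mul N d.toAdd e.toAdd).symm

lemma trans_zpow (N : ℕ) (d : ZMod N × ZMod N) (k : ℤ) : trans N d ^ k = trans N (k • d) := by
  have := map_zpow (transHom N) (Multiplicative.ofAdd d) k
  exact this.symm

lemma flip_conj (N : ℕ) (d : ZMod N × ZMod N) (g : ZMod N × ZMod N → Bool) :
    trans N d * flip N g * (trans N d)⁻¹ = flip N (fun z => g (z + d)) := by
  rw [trans_inv]
  ext x : 1
  rw [Equiv.Perm.mul_apply, Equiv.Perm.mul_apply, trans_apply, flip_apply, trans_apply,
    flip_apply]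
  ext : 1
  · show x.1 - -d - d = x.1
    abel
  · show xor x.2 (g (x.1 - -d)) = xor x.2 (g (x.1 + d))
    rw [sub_neg_eq_add]

lemma flip_comm (N : ℕ) (g h : ZMod N × ZMod N → Bool) :
    flip N g * flip N h = flip N h * flip N g := by
  ext x : 1
  rw [Equiv.Perm.mul_apply, Equiv.Perm.mul_apply, flip_apply, flip_apply, flip_apply, flip_apply]
  ext : 1
  · rfl
  · show xor (xor x.2 (h x.1)) (g x.1) = xor (xor x.2 (g x.1)) (h x.1)
    rw [Bool.xor_assoc, Bool.xor_assoc, Bool.xor_comm (h x.1)]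

lemma flip_sq (N : ℕ) (g : ZMod N × ZMod N → Bool) : flip N g * flip N g = 1 := by
  ext x : 1
  rw [Equiv.Perm.mul_apply, flip_apply, flip_apply, Equiv.Perm.one_apply]
  ext : 1
  · rfl
  · simp

/-- Images of the generators. -/
noncomputable def genMap (N : ℕ) : Gen → Equiv.Perm (XN N)
  | .s => trans N (1, 0)
  | .t => trans N (0, 1)
  | .a p => flip N (fun z => cfg N z p)

/-- Reduction `ℤ × ℤ → (ℤ/N)²`. -/
def red (N : ℕ) (z : ℤ × ℤ) : ZMod N × ZMod N := ((z.1 : ZMod N), (z.2 : ZMod N))

lemma lift_ftau (N : ℕ) (z : ℤ × ℤ) : FreeGroup.lift (genMap N) (ftau z) = trans N (red N z) := by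
  unfold ftau
  rw [map_mul, map_zpow, map_zpow, FreeGroup.lift_apply_of, FreeGroup.lift_apply_of]
  show trans N (1, 0) ^ z.1 * trans N (0, 1) ^ z.2 = _
  rw [trans_zpow, trans_zpow, trans_mul]
  congr 1
  simp [red]

/-- The action of the group on the finite set `XN N`. -/
noncomputable def act (N : ℕ) : LG →* Equiv.Perm (XN N) :=
  PresentedGroup.toGroup (f := genMap N) (by
    rintro x (hx : IsRel x)
    cases hx with
    | st =>
      simp only [map_mul, map_inv, FreeGroup.lift_apply_of]
      show trans N (1, 0) * trans N (0, 1) * (trans N (1, 0))⁻¹ * (trans N (0, 1))⁻¹ = 1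
      rw [trans_mul, trans_inv, trans_inv, trans_mul, trans_mul, ← trans_zero]
      congr 1
      abel
    | sq p =>
      simp only [map_mul, FreeGroup.lift_apply_of]
      exact flip_sq N _
    | comm z p q =>
      simp only [map_mul, map_inv, FreeGroup.lift_apply_of, lift_ftau]
      show (trans N (red N z) * flip N _ * (trans N (red N z))⁻¹) * flip N _ *
        (trans N (red N z) * flip N _ * (trans N (red N z))⁻¹)⁻¹ * (flip N _)⁻¹ = 1
      rw [flip_conj, flip_comm]
      group)

lemma act_tau (N : ℕ) (z : ℤ × ℤ) : act N (tau z) = trans N (red N z) := by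
  rw [← mk_ftau]
  show FreeGroup.lift (genMap N) (ftau z) = _
  exact lift_ftau N z

lemma act_lamp (N : ℕ) (z : ℤ × ℤ) (p : Sym) :
    act N (lamp z p) = flip N (fun x => cfg N (x + red N z) p) := by
  unfold lamp
  rw [map_mul, map_mul, map_inv, act_tau]
  have : act N (PresentedGroup.of (Gen.a p)) = flip N (fun z => cfg N z p) := by
    unfold act
    rw [PresentedGroup.toGroup.of]
    rfl
  rw [this, flip_conj]

/-- The permutation representation on functions. -/
noncomputable def funRep {G X : Type*} [Group G] (a : G →* Equiv.Perm X) :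
    Representation ℂ G (X → ℂ) where
  toFun g :=
    { toFun := fun f x => f ((a g)⁻¹ x)
      map_add' := fun _ _ => rfl
      map_smul' := fun _ _ => rfl }
  map_one' := by
    ext f x
    simp
  map_mul' g h := by
    apply LinearMap.ext
    intro f
    ext x
    simp only [map_mul, mul_inv_rev, LinearMap.coe_mk, AddHom.coe_mk, Module.End.mul_apply,
      Equiv.Perm.mul_apply]

lemma funRep_apply {G X : Type*} [Group G] (a : G →* Equiv.Perm X) (g : G) (f : X → ℂ) (x : X) :
    funRep a g f x = f ((a g)⁻¹ x) := rfl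

/-- The window pattern at a site of the torus. -/
noncomputable def pat (N : ℕ) (z : ZMod N × ZMod N) (i : I) : Bool :=
  cfg N (z + red N (wpos i.1)) i.2

/-- The operators of the window lamps at one site. -/
def siteB (c : I → Bool) (i : I) : (Bool → ℂ) →ₗ[ℂ] (Bool → ℂ) where
  toFun f b := f (xor b (c i))
  map_add' _ _ := rfl
  map_smul' _ _ := rfl

lemma act_wl_inv (N : ℕ) (i : I) (x : XN N) :
    (act N (wl i))⁻¹ x = (x.1, xor x.2 (pat N x.1 i)) := by
  unfold wl
  rw [act_lamp, inv_eq_of_mul_eq_one_left (flip_sq N _), flip_apply]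
  rfl

lemma cnt_act (N : ℕ) [NeZero N] (𝒮 : Finset (I → Bool)) :
    cnt (BB (funRep (act N))) 𝒮 = ∑ z : ZMod N × ZMod N, cnt (siteB (pat N z)) 𝒮 := by
  rw [← cnt_pi]
  refine cnt_equiv (LinearEquiv.curry ℂ ℂ (ZMod N × ZMod N) Bool) _ _ ?_ 𝒮
  intro i f
  ext z b
  rw [piB_apply]
  show (funRep (act N) (wl i) f) (z, b) = f (z, xor b (pat N z i))
  rw [funRep_apply, act_wl_inv]

lemma cnt_site_NB (c : I → Bool) (hc : c ∈ NB) : 1 ≤ cnt (siteB c) NB := by
  unfold cnt
  refine le_trans ?_ (Finset.single_le_sum (f := fun π => Module.finrank ℂ (W (siteB c) π))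
    (fun _ _ => Nat.zero_le _) hc)
  rw [Nat.one_le_iff_ne_zero]
  intro h
  have hbot : W (siteB c) c = ⊥ := Submodule.finrank_eq_zero.mp h
  have hin : (fun b : Bool => sgn b) ∈ W (siteB c) c := by
    intro i
    ext b
    show sgn (xor b (c i)) = sgn (c i) * sgn b
    cases b <;> cases c i <;> simp [sgn]
  rw [hbot, Submodule.mem_bot] at hin
  have := congrFun hin false
  simp [sgn] at this

lemma site_bot (c π : I → Bool) (hπ : π ≠ fun _ => false) (hne : π ≠ c) :
    W (siteB c) π = ⊥ := by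
  rw [Submodule.eq_bot_iff]
  intro f hf
  have hf' : ∀ i b, f (xor b (c i)) = sgn (π i) * f b := fun i b => congrFun (hf i) b
  have hex : ∃ i, π i = true := by
    by_contra hcon
    push Not at hcon
    apply hπ
    ext i
    simpa using hcon i
  obtain ⟨i, hi⟩ := hex
  obtain ⟨j, hj⟩ := Function.ne_iff.mp hne
  -- all cases
  have two : ∀ y : ℂ, y = -y → y = 0 := by
    intro y hy
    have : (2 : ℂ) * y = 0 := by linear_combination hy
    simpa using this
  by_cases hci : c i = true
  · -- `f (!b) = - f b`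
    have h1 : ∀ b, f (!b) = - f b := by
      intro b
      have := hf' i b
      rw [hci, hi] at this
      simpa [sgn] using this
    -- position `j`
    by_cases hcj : c j = true
    · have hπj : π j = false := by
        cases h : π j
        · rfl
        · rw [h, hcj] at hj; exact absurd rfl hj
      ext b
      have := hf' j b
      rw [hcj, hπj] at this
      simp only [Bool.xor_true, sgn, Bool.false_eq_true, if_false, one_mul] at this
      rw [h1] at this
      exact two _ this.symm
    · have hcj' : c j = false := by simpa using hcj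
      have hπj : π j = true := by
        cases h : π j
        · rw [h, hcj'] at hj; exact absurd rfl hj
        · rfl
      ext b
      have := hf' j b
      rw [hcj', hπj] at this
      simp only [Bool.xor_false, sgn, if_true, neg_mul, one_mul] at this
      exact two _ this
  · have hci' : c i = false := by simpa using hci
    ext b
    have := hf' i b
    rw [hci', hi] at this
    simp only [Bool.xor_false, sgn, if_true, neg_mul, one_mul] at this
    exact two _ this

lemma not_zero_mem_Bad : (fun _ => false : I → Bool) ∉ Bad := by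
  rw [mem_Bad, not_not]
  left
  rfl

lemma cnt_site_Bad (c : I → Bool) :
    cnt (siteB c) Bad ≤ if c ∈ Bad then 2 else 0 := by
  classical
  unfold cnt
  have h0 : ∀ π ∈ Bad, π ≠ c → Module.finrank ℂ (W (siteB c) π) = 0 := by
    intro π hπ hne
    rw [site_bot c π (fun h => not_zero_mem_Bad (h ▸ hπ)) hne]
    exact finrank_bot ℂ _
  split_ifs with hc
  · rw [Finset.sum_eq_single_of_mem c hc h0]
    calc Module.finrank ℂ (W (siteB c) c) ≤ Module.finrank ℂ (Bool → ℂ) :=
          Submodule.finrank_le _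
      _ = 2 := by rw [Module.finrank_pi]; rfl
  · rw [Finset.sum_eq_zero]
    intro π hπ
    exact h0 π hπ (fun h => hc (h ▸ hπ))

lemma val_add_one (N : ℕ) [NeZero N] (a : ZMod N) (h : a.val + 1 < N) :
    (a + 1).val = a.val + 1 := by
  have hN : 1 < N := by omega
  have : Fact (1 < N) := ⟨hN⟩
  rw [ZMod.val_add, ZMod.val_one, Nat.mod_eq_of_lt h]

lemma pat_good (N : ℕ) [NeZero N] (z : ZMod N × ZMod N) (h1 : z.1.val + 1 < N)
    (h2 : z.2.val + 1 < N) : pat N z ∉ Bad := by
  rw [mem_Bad, not_not]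
  right
  refine ⟨sy z.1.val z.2.val, sy (z.1.val + 1) z.2.val, sy z.1.val (z.2.val + 1), ?_, ?_, ?_,
    rule_sy _ _⟩
  · funext p
    show enc (sy (z.1 + ((0 : ℤ) : ZMod N)).val (z.2 + ((0 : ℤ) : ZMod N)).val) p = _
    rw [Int.cast_zero, add_zero, add_zero]
  · funext p
    show enc (sy (z.1 + ((1 : ℤ) : ZMod N)).val (z.2 + ((0 : ℤ) : ZMod N)).val) p = _
    rw [Int.cast_zero, Int.cast_one, add_zero, val_add_one N z.1 h1]
  · funext p
    show enc (sy (z.1 + ((0 : ℤ) : ZMod N)).val (z.2 + ((1 : ℤ) : ZMod N)).val) p = _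
    rw [Int.cast_zero, Int.cast_one, add_zero, val_add_one N z.2 h2]

lemma pat_NB (N : ℕ) (z : ZMod N × ZMod N) : pat N z ∈ NB := by
  rw [mem_NB]
  have : (fun p => pat N z (0, p)) = enc (sy z.1.val z.2.val) := by
    funext p
    show enc (sy (z.1 + ((0 : ℤ) : ZMod N)).val (z.2 + ((0 : ℤ) : ZMod N)).val) p = _
    rw [Int.cast_zero, add_zero, add_zero]
  rw [this]
  exact enc_ne _

lemma card_bad (N : ℕ) [NeZero N] :
    (Finset.univ.filter fun z : ZMod N × ZMod N => pat N z ∈ Bad).card ≤ 2 * N := by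
  classical
  have hsub : (Finset.univ.filter fun z : ZMod N × ZMod N => pat N z ∈ Bad)
      ⊆ (Finset.univ.image fun b : ZMod N => (((N - 1 : ℕ) : ZMod N), b))
        ∪ (Finset.univ.image fun b : ZMod N => (b, ((N - 1 : ℕ) : ZMod N))) := by
    intro z hz
    simp only [Finset.mem_filter, Finset.mem_univ, true_and] at hz
    rw [Finset.mem_union, Finset.mem_image, Finset.mem_image]
    by_contra hcon
    push Not at hcon
    obtain ⟨hc1, hc2⟩ := hcon
    have key : ∀ a : ZMod N, a ≠ ((N - 1 : ℕ) : ZMod N) → a.val + 1 < N := by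
      intro a ha
      have hlt := ZMod.val_lt a
      have hNpos : 0 < N := NeZero.pos N
      by_contra hge
      have : a.val = N - 1 := by omega
      apply ha
      rw [← this, ZMod.natCast_zmod_val]
    have h1 : z.1.val + 1 < N := by
      apply key
      intro h
      exact hc1 z.2 (Finset.mem_univ _) (by rw [← h])
    have h2 : z.2.val + 1 < N := by
      apply key
      intro h
      exact hc2 z.1 (Finset.mem_univ _) (by rw [← h])
    exact pat_good N z h1 h2 hz
  refine (Finset.card_le_card hsub).trans ((Finset.card_union_le _ _).trans ?_)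
  have h1 : ∀ g : ZMod N → ZMod N × ZMod N, (Finset.univ.image g).card ≤ N := by
    intro g
    refine Finset.card_image_le.trans ?_
    rw [Finset.card_univ, ZMod.card]
  have := h1 (fun b : ZMod N => (((N - 1 : ℕ) : ZMod N), b))
  have := h1 (fun b : ZMod N => (b, ((N - 1 : ℕ) : ZMod N)))
  omega

theorem lower (N : ℕ) [NeZero N] : N * N ≤ cnt (BB (funRep (act N))) NB := by
  rw [cnt_act]
  calc N * N = ∑ z : ZMod N × ZMod N, 1 := by
        rw [Finset.sum_const, Finset.card_univ, Fintype.card_prod, ZMod.card]; simp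
    _ ≤ _ := Finset.sum_le_sum fun z _ => cnt_site_NB _ (pat_NB N z)

theorem upper (N : ℕ) [NeZero N] : cnt (BB (funRep (act N))) Bad ≤ 4 * N := by
  classical
  rw [cnt_act]
  calc ∑ z : ZMod N × ZMod N, cnt (siteB (pat N z)) Bad
      ≤ ∑ z : ZMod N × ZMod N, (if pat N z ∈ Bad then 2 else 0) :=
        Finset.sum_le_sum fun z _ => cnt_site_Bad _
    _ = (Finset.univ.filter fun z : ZMod N × ZMod N => pat N z ∈ Bad).card * 2 := by
        rw [← Finset.sum_filter, Finset.sum_const, smul_eq_mul]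
    _ ≤ _ := by have := card_bad N; omega

/-- Core statement: given finitely many finite-dimensional representations, some `XN N` is
not a sum of their restrictions. -/
theorem core {m : ℕ} {V : Fin m → Type*} [∀ j, AddCommGroup (V j)] [∀ j, Module ℂ (V j)]
    [∀ j, FiniteDimensional ℂ (V j)] (ρ : ∀ j, Representation ℂ LG (V j)) :
    ∃ N : ℕ, N ≠ 0 ∧ ∀ (n : Fin m → ℕ)
      (e : (XN N → ℂ) ≃ₗ[ℂ] ((j : Fin m) → Fin (n j) → V j)),
      ¬ ∀ h ∈ H, ∀ f j k, e (funRep (act N) h f) j k = ρ j h (e f j k) := by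
  obtain ⟨D, hD⟩ := main_bound ρ
  refine ⟨4 * D + 1, by omega, ?_⟩
  intro n e hcon
  have : NeZero (4 * D + 1) := ⟨by omega⟩
  have heq : ∀ 𝒮, cnt (BB (funRep (act (4 * D + 1)))) 𝒮
      = cnt (piB (fun j => piB (fun _ : Fin (n j) => BB (ρ j)))) 𝒮 := by
    intro 𝒮
    refine cnt_equiv e _ _ ?_ 𝒮
    intro i f
    ext j k
    exact hcon (wl i) (wl_mem i) f j k
  have h1 := hD n
  rw [← heq, ← heq] at h1
  have h2 := lower (4 * D + 1)
  have h3 := upper (4 * D + 1)
  have h4 : (4 * D + 1) * (4 * D + 1) ≤ D * (4 * (4 * D + 1)) :=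
    h2.trans (h1.trans (Nat.mul_le_mul_left D h3))
  nlinarith

end Pool.Agent.V1114.Lamp
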