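import Mathlib

/-!
# Polynomial computations for a fake Heisenberg group
-/

namespace Pool.Agent.V1114.FrobKer

open TensorProduct MvPolynomial

variable (k : Type) [Field k] (q : ℕ)

/-- The coordinate ring `k[x, y, z]`. -/
abbrev R : Type := MvPolynomial (Fin 3) k

/-- The comultiplication of `(x,y,z)(a,b,c) = (x+a, y+b, z+c+x^q b)`. -/
noncomputable def Δ : R k →ₐ[k] R k ⊗[k] R k :=
  aeval ![X 0 ⊗ₜ 1 + 1 ⊗ₜ X 0, X 1 ⊗ₜ 1 + 1 ⊗ₜ X 1,
    X 2 ⊗ₜ 1 + 1 ⊗ₜ X 2 + (X 0 ^ q) ⊗ₜ X 1]

/-- The ideal of the Frobenius kernel. -/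
noncomputable def I : Ideal (R k) := Ideal.span {f | ∃ i : Fin 3, f = X i ^ q}

/-- The algebra map `k[t] ⊗ R → R[t]`. -/
noncomputable def θ : Polynomial k ⊗[k] R k →ₐ[k] Polynomial (R k) :=
  Algebra.TensorProduct.lift (Polynomial.mapAlgHom (Algebra.ofId k (R k)))
    (Polynomial.CAlgHom) (fun _ _ => Commute.all _ _)

lemma θ_tmul (a : Polynomial k) (f : R k) :
    θ k (a ⊗ₜ f) = a.map (algebraMap k (R k)) * Polynomial.C f := by
  simp [θ]

lemma θ_coeff (n : R k →ₗ[k] k) (j : ℕ) (t : Polynomial k ⊗[k] R k) :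
    n ((θ k t).coeff j) = LinearMap.mul' k k (TensorProduct.map (Polynomial.lcoeff k j) n t) := by
  induction t with
  | zero => simp
  | tmul a f =>
    rw [θ_tmul, Polynomial.coeff_mul_C, Polynomial.coeff_map, TensorProduct.map_tmul,
      LinearMap.mul'_apply, Polynomial.lcoeff_apply, ← Algebra.smul_def, map_smul, smul_eq_mul]
  | add s t hs ht => rw [map_add, Polynomial.coeff_add, map_add, hs, ht, map_add, map_add]

/-- Convolution of functionals. -/
noncomputable def conv (φ ψ : R k →ₗ[k] k) (f : R k) : k :=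
  LinearMap.mul' k k (TensorProduct.map φ ψ (Δ k q f))

/-- The functional attached to a curve. -/
noncomputable def fn (κ : R k →ₐ[k] Polynomial k) : R k →ₗ[k] k :=
  (Polynomial.lcoeff k q).comp κ.toLinearMap

lemma conv_left (κ : R k →ₐ[k] Polynomial k) (n : R k →ₗ[k] k) (f : R k) :
    conv k q (fn k q κ) n f
      = n ((((θ k).comp (Algebra.TensorProduct.map κ (AlgHom.id k (R k)))).comp (Δ k q) f).coeff q)
      := by
  rw [AlgHom.comp_apply, AlgHom.comp_apply, θ_coeff]
  unfold conv fn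
  congr 1
  rw [show (Algebra.TensorProduct.map κ (AlgHom.id k (R k))) (Δ k q f)
    = TensorProduct.map κ.toLinearMap LinearMap.id (Δ k q f) from rfl]
  rw [← LinearMap.comp_apply, ← TensorProduct.map_comp, LinearMap.comp_id]

lemma conv_right (κ : R k →ₐ[k] Polynomial k) (n : R k →ₗ[k] k) (f : R k) :
    conv k q n (fn k q κ) f
      = n ((((θ k).comp ((Algebra.TensorProduct.comm k (R k) (Polynomial k)).toAlgHom.comp
        (Algebra.TensorProduct.map (AlgHom.id k (R k)) κ))).comp (Δ k q) f).coeff q)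
      := by
  rw [AlgHom.comp_apply, AlgHom.comp_apply, θ_coeff]
  unfold conv fn
  generalize Δ k q f = t
  induction t with
  | zero => simp
  | tmul a b =>
    rw [TensorProduct.map_tmul, LinearMap.mul'_apply, AlgHom.comp_apply,
      Algebra.TensorProduct.map_tmul]
    show n a * Polynomial.lcoeff k q (κ b)
      = LinearMap.mul' k k (TensorProduct.map (Polynomial.lcoeff k q) n (κ b ⊗ₜ a))
    rw [TensorProduct.map_tmul, LinearMap.mul'_apply, mul_comm]
  | add s t hs ht => rw [map_add, map_add, hs, ht, map_add, map_add, map_add]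

/-- The curve `t ↦ (t, 0, 0)`. -/
noncomputable def κx : R k →ₐ[k] Polynomial k := aeval ![Polynomial.X, 0, 0]

/-- The curve `t ↦ (0, t, 0)`. -/
noncomputable def κy : R k →ₐ[k] Polynomial k := aeval ![0, Polynomial.X, 0]

/-- The functional `x^q`. -/
noncomputable def P : R k →ₗ[k] k := fn k q (κx k)

/-- The functional `y^q`. -/
noncomputable def Q : R k →ₗ[k] k := fn k q (κy k)

/-- The four substitution maps. -/
noncomputable def α : R k →ₐ[k] Polynomial (R k) :=
  aeval ![Polynomial.X + Polynomial.C (X 0), Polynomial.C (X 1),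
    Polynomial.C (X 2) + Polynomial.X ^ q * Polynomial.C (X 1)]

/-- Substitution. -/
noncomputable def β : R k →ₐ[k] Polynomial (R k) :=
  aeval ![Polynomial.X + Polynomial.C (X 0), Polynomial.C (X 1), Polynomial.C (X 2)]

/-- Substitution. -/
noncomputable def γ : R k →ₐ[k] Polynomial (R k) :=
  aeval ![Polynomial.C (X 0), Polynomial.X + Polynomial.C (X 1),
    Polynomial.C (X 2) + Polynomial.X * Polynomial.C (X 0 ^ q)]

/-- Substitution. -/
noncomputable def δ : R k →ₐ[k] Polynomial (R k) :=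
  aeval ![Polynomial.C (X 0), Polynomial.X + Polynomial.C (X 1), Polynomial.C (X 2)]

lemma conv_P_left (n : R k →ₗ[k] k) (f : R k) :
    conv k q (P k q) n f = n ((α k q f).coeff q) := by
  rw [P, conv_left]
  congr 3
  apply MvPolynomial.algHom_ext
  intro i
  fin_cases i <;>
    simp [Δ, α, κx, θ_tmul, Algebra.TensorProduct.map_tmul]

lemma conv_P_right (n : R k →ₗ[k] k) (f : R k) :
    conv k q n (P k q) f = n ((β k f).coeff q) := by
  rw [P, conv_right]
  congr 3
  apply MvPolynomial.algHom_ext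
  intro i
  fin_cases i <;>
    simp [Δ, β, κx, θ_tmul, Algebra.TensorProduct.map_tmul, add_comm]

lemma conv_Q_left (n : R k →ₗ[k] k) (f : R k) (hq : q ≠ 0) :
    conv k q (Q k q) n f = n ((δ k f).coeff q) := by
  rw [Q, conv_left]
  congr 3
  apply MvPolynomial.algHom_ext
  intro i
  fin_cases i <;>
    simp [Δ, δ, κy, θ_tmul, hq, Algebra.TensorProduct.map_tmul]

lemma conv_Q_right (n : R k →ₗ[k] k) (f : R k) :
    conv k q n (Q k q) f = n ((γ k q f).coeff q) := by
  rw [Q, conv_right]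
  congr 3
  apply MvPolynomial.algHom_ext
  intro i
  fin_cases i <;>
    simp [Δ, γ, κy, θ_tmul, Algebra.TensorProduct.map_tmul, add_comm]

lemma β_exists (f : R k) : ∃ g, β k f = Polynomial.C f + Polynomial.X * g := by
  induction f using MvPolynomial.induction_on with
  | C a =>
    refine ⟨0, ?_⟩
    rw [mul_zero, add_zero]
    show β k (algebraMap k (R k) a) = _
    rw [AlgHom.commutes]
    rfl
  | add f g hf hg =>
    obtain ⟨f', hf⟩ := hf
    obtain ⟨g', hg⟩ := hg
    refine ⟨f' + g', ?_⟩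
    rw [map_add, hf, hg, map_add]
    ring
  | mul_X f i hf =>
    obtain ⟨f', hf⟩ := hf
    have hi : ∃ g, β k (X i) = Polynomial.C (X i) + Polynomial.X * g := by
      fin_cases i
      · exact ⟨1, by simp [β, add_comm]⟩
      · exact ⟨0, by simp [β]⟩
      · exact ⟨0, by simp [β]⟩
    obtain ⟨g', hg⟩ := hi
    refine ⟨f' * Polynomial.C (X i) + Polynomial.C f * g' + Polynomial.X * f' * g', ?_⟩
    rw [map_mul, hf, hg, map_mul]
    ring

lemma α_exists (hq : 1 ≤ q) (f : R k) : ∃ g, α k q f = β k f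
    + Polynomial.X ^ q * Polynomial.C (X 1 * pderiv 2 f) + Polynomial.X ^ (q + 1) * g := by
  induction f using MvPolynomial.induction_on with
  | C a =>
    refine ⟨0, ?_⟩
    have h1 : α k q (C a) = β k (C a) := by
      show α k q (algebraMap k (R k) a) = β k (algebraMap k (R k) a)
      rw [AlgHom.commutes, AlgHom.commutes]
    rw [h1, pderiv_C]
    simp
  | add f g hf hg =>
    obtain ⟨f', hf⟩ := hf
    obtain ⟨g', hg⟩ := hg
    refine ⟨f' + g', ?_⟩
    rw [map_add, hf, hg, map_add, map_add, mul_add, map_add]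
    ring
  | mul_X f i hf =>
    obtain ⟨f', hf⟩ := hf
    have hi : α k q (X i) = β k (X i)
        + Polynomial.X ^ q * Polynomial.C (X 1 * pderiv 2 (X i : R k)) := by
      fin_cases i
      · simp [α, β, pderiv_X]
      · simp [α, β, pderiv_X]
      · simp [α, β, pderiv_X]
    obtain ⟨bf, hbf⟩ := β_exists k f
    obtain ⟨bi, hbi⟩ := β_exists k (X i)
    obtain ⟨m, hm⟩ := Nat.exists_eq_add_of_le hq
    refine ⟨f' * α k q (X i) + Polynomial.C (X 1 * pderiv 2 f) * bi
      + bf * Polynomial.C (X 1 * pderiv 2 (X i : R k))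
      + Polynomial.X ^ m * Polynomial.C (X 1 * pderiv 2 f)
        * Polynomial.C (X 1 * pderiv 2 (X i : R k)), ?_⟩
    have hX : (Polynomial.X : Polynomial (R k)) ^ q = Polynomial.X * Polynomial.X ^ m := by
      rw [hm, pow_add, pow_one]
    have hD : (X 1 : R k) * pderiv 2 (f * X i)
        = (X 1 * pderiv 2 f) * X i + f * (X 1 * pderiv 2 (X i : R k)) := by
      rw [(pderiv 2).leibniz, smul_eq_mul, smul_eq_mul]
      ring
    rw [hD, map_mul, map_mul, map_add, map_mul Polynomial.C (X 1 * pderiv 2 f),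
      map_mul Polynomial.C f]
    rw [hf, hi]
    generalize Polynomial.C (X 1 * pderiv 2 f) = Df at *
    generalize Polynomial.C (X 1 * pderiv 2 (X i : R k)) = Di at *
    rw [pow_succ]
    rw [hbf, hbi]
    rw [hX]
    ring

lemma α_coeff (hq : 1 ≤ q) (f : R k) :
    (α k q f).coeff q = (β k f).coeff q + X 1 * pderiv 2 f := by
  obtain ⟨g, hg⟩ := α_exists k q hq f
  rw [hg, Polynomial.coeff_add, Polynomial.coeff_add, Polynomial.coeff_X_pow_mul',
    Polynomial.coeff_X_pow_mul', if_pos le_rfl, if_neg (by omega)]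
  simp

lemma X_mem (i : Fin 3) : (X i : R k) ^ q ∈ I k q := Ideal.subset_span ⟨i, rfl⟩

lemma γ_coeff (f : R k) : Ideal.Quotient.mkₐ k (I k q) ((γ k q f).coeff q)
    = Ideal.Quotient.mkₐ k (I k q) ((δ k f).coeff q) := by
  have h : (Polynomial.mapAlgHom (Ideal.Quotient.mkₐ k (I k q))).comp (γ k q)
      = (Polynomial.mapAlgHom (Ideal.Quotient.mkₐ k (I k q))).comp (δ k) := by
    apply MvPolynomial.algHom_ext
    intro i
    have h0 : (Ideal.Quotient.mk (I k q)) (X 0) ^ q = 0 := by
      rw [← map_pow, Ideal.Quotient.eq_zero_iff_mem]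
      exact X_mem k q 0
    have h1 : Polynomial.C ((Ideal.Quotient.mk (I k q)) (X 0)) ^ q = 0 := by
      rw [← map_pow, h0, map_zero]
    fin_cases i <;> simp [γ, δ, h1]
  have h2 := congrArg (fun φ : R k →ₐ[k] Polynomial (R k ⧸ I k q) => (φ f).coeff q) h
  simpa using h2

lemma fn_conv_Q (φ : (R k ⧸ I k q) →ₗ[k] k) (hq : q ≠ 0) (f : R k) :
    conv k q (φ.comp (Ideal.Quotient.mkₐ k (I k q)).toLinearMap) (Q k q) f
      = conv k q (Q k q) (φ.comp (Ideal.Quotient.mkₐ k (I k q)).toLinearMap) f := by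
  rw [conv_Q_right, conv_Q_left _ _ _ _ hq, LinearMap.comp_apply, LinearMap.comp_apply,
    AlgHom.toLinearMap_apply, AlgHom.toLinearMap_apply, γ_coeff]

lemma conv_comm (φ ψ : (R k ⧸ I k q) →ₗ[k] k) (f : R k) :
    conv k q (φ.comp (Ideal.Quotient.mkₐ k (I k q)).toLinearMap)
        (ψ.comp (Ideal.Quotient.mkₐ k (I k q)).toLinearMap) f
      = conv k q (ψ.comp (Ideal.Quotient.mkₐ k (I k q)).toLinearMap)
        (φ.comp (Ideal.Quotient.mkₐ k (I k q)).toLinearMap) f := by
  have h : (Algebra.TensorProduct.comm k (R k ⧸ I k q) (R k ⧸ I k q)).toAlgHom.comp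
      ((Algebra.TensorProduct.map (Ideal.Quotient.mkₐ k (I k q))
        (Ideal.Quotient.mkₐ k (I k q))).comp (Δ k q))
      = (Algebra.TensorProduct.map (Ideal.Quotient.mkₐ k (I k q))
        (Ideal.Quotient.mkₐ k (I k q))).comp (Δ k q) := by
    apply MvPolynomial.algHom_ext
    intro i
    have h0 : (Ideal.Quotient.mk (I k q)) (X 0) ^ q = 0 := by
      rw [← map_pow, Ideal.Quotient.eq_zero_iff_mem]
      exact X_mem k q 0
    fin_cases i
    · simp [Δ, add_comm]
    · simp [Δ, add_comm]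
    · simp [Δ, h0, add_comm]
  have key : ∀ (φ ψ : (R k ⧸ I k q) →ₗ[k] k) (t : R k ⊗[k] R k),
      LinearMap.mul' k k (TensorProduct.map
        (φ.comp (Ideal.Quotient.mkₐ k (I k q)).toLinearMap)
        (ψ.comp (Ideal.Quotient.mkₐ k (I k q)).toLinearMap) t)
      = LinearMap.mul' k k (TensorProduct.map φ ψ
        (Algebra.TensorProduct.map (Ideal.Quotient.mkₐ k (I k q))
          (Ideal.Quotient.mkₐ k (I k q)) t)) := by
    intro φ ψ t
    induction t with
    | zero => simp
    | tmul a b => rfl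
    | add s t hs ht => rw [map_add, map_add, hs, ht, map_add, map_add, map_add]
  have key2 : ∀ (φ ψ : (R k ⧸ I k q) →ₗ[k] k) (t : (R k ⧸ I k q) ⊗[k] (R k ⧸ I k q)),
      LinearMap.mul' k k (TensorProduct.map φ ψ t)
      = LinearMap.mul' k k (TensorProduct.map ψ φ
        (Algebra.TensorProduct.comm k (R k ⧸ I k q) (R k ⧸ I k q) t)) := by
    intro φ ψ t
    induction t with
    | zero => simp
    | tmul a b =>
      rw [Algebra.TensorProduct.comm_tmul, TensorProduct.map_tmul, TensorProduct.map_tmul,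
        LinearMap.mul'_apply, LinearMap.mul'_apply, mul_comm]
    | add s t hs ht => rw [map_add, map_add, hs, ht, map_add, map_add, map_add]
  unfold conv
  rw [key, key2, key]
  congr 2
  exact congrArg (fun g : R k →ₐ[k] _ => g f) h

lemma pderiv_mem (hqk : (q : k) = 0) (f : R k) (hf : f ∈ I k q) : pderiv 2 f ∈ I k q := by
  unfold I at hf ⊢
  induction hf using Submodule.span_induction with
  | mem f hf =>
    obtain ⟨i, rfl⟩ := hf
    have : (pderiv 2) ((X i : R k) ^ q) = 0 := by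
      rw [(pderiv 2).leibniz_pow, ← Nat.cast_smul_eq_nsmul k, hqk, zero_smul]
    rw [this]
    exact Ideal.zero_mem _
  | zero => rw [map_zero]; exact Ideal.zero_mem _
  | add f g _ _ hf hg => rw [map_add]; exact Ideal.add_mem _ hf hg
  | smul a f hf' hf =>
    rw [smul_eq_mul, (pderiv 2).leibniz, smul_eq_mul, smul_eq_mul]
    exact Ideal.add_mem _ (Ideal.mul_mem_left _ _ hf) (Ideal.mul_mem_right _ _ hf')

lemma Q_apply (f : R k) : Q k q f = (κy k f).coeff q := rfl

lemma Q_X1_mul (hq : q ≠ 0) (f : R k) (hf : f ∈ I k q) : Q k q (X 1 * f) = 0 := by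
  have h : ∀ f ∈ I k q, ∃ g, κy k (X 1 * f) = Polynomial.X ^ (q + 1) * g := by
    intro f hf
    unfold I at hf
    induction hf using Submodule.span_induction with
    | mem f hf =>
      obtain ⟨i, rfl⟩ := hf
      fin_cases i
      · exact ⟨0, by simp [κy, hq]⟩
      · exact ⟨1, by simp [κy, pow_succ, mul_comm]⟩
      · exact ⟨0, by simp [κy, hq]⟩
    | zero => exact ⟨0, by simp⟩
    | add f g _ _ hf hg =>
      obtain ⟨a, ha⟩ := hf
      obtain ⟨b, hb⟩ := hg
      exact ⟨a + b, by rw [mul_add, map_add, ha, hb, mul_add]⟩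
    | smul a f _ hf =>
      obtain ⟨b, hb⟩ := hf
      refine ⟨κy k a * b, ?_⟩
      have : (X 1 : R k) * (a • f) = a * (X 1 * f) := by rw [smul_eq_mul]; ring
      rw [this, map_mul, hb]
      ring
  obtain ⟨g, hg⟩ := h f hf
  rw [Q_apply, hg, Polynomial.coeff_X_pow_mul', if_neg (by omega)]

lemma Q_X1_pow : Q k q (X 1 ^ q) = 1 := by
  rw [Q_apply]
  simp [κy]

/-- The core contradiction. -/
theorem core (hq : q ≠ 0) (hqk : (q : k) = 0) {M : Type} [AddCommGroup M] [Module k M]
    (E : M →ₗ[k] R k) (ρ : M →ₗ[k] M ⊗[k] R k)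
    (hE : ∀ m, TensorProduct.map E LinearMap.id (ρ m) = Δ k q (E m))
    (hbij : Function.Bijective fun m => Ideal.Quotient.mkₐ k (I k q) (E m)) : False := by
  let e : M ≃ₗ[k] (R k ⧸ I k q) :=
    LinearEquiv.ofBijective ((Ideal.Quotient.mkₐ k (I k q)).toLinearMap.comp E) hbij
  have he : ∀ m, e m = Ideal.Quotient.mkₐ k (I k q) (E m) := fun m => rfl
  -- functionals on `M` come from functionals on the quotient
  have hfun : ∀ L : M →ₗ[k] k, ∃ φ : (R k ⧸ I k q) →ₗ[k] k,
      ∀ m, L m = φ (Ideal.Quotient.mkₐ k (I k q) (E m)) := by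
    intro L
    refine ⟨L.comp e.symm.toLinearMap, fun m => ?_⟩
    rw [← he]
    simp
  -- convolution on the left only depends on the restriction to `M`
  have hleft : ∀ (A B : R k →ₗ[k] k) (ψ : R k →ₗ[k] k) (m : M), (∀ m, A (E m) = B (E m)) →
      conv k q A ψ (E m) = conv k q B ψ (E m) := by
    intro A B ψ m hAB
    have hAB' : A.comp E = B.comp E := LinearMap.ext hAB
    unfold conv
    rw [← hE m]
    have h1 : ∀ C : R k →ₗ[k] k, TensorProduct.map C ψ (TensorProduct.map E LinearMap.id (ρ m))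
        = TensorProduct.map (C.comp E) ψ (ρ m) := by
      intro C
      rw [← LinearMap.comp_apply, ← TensorProduct.map_comp, LinearMap.comp_id]
    rw [h1, h1, hAB']
  obtain ⟨p', hp'⟩ := hfun ((P k q).comp E)
  obtain ⟨n, hn⟩ := hfun ((Q k q).comp E)
  obtain ⟨m, hm⟩ := hbij.2 (Ideal.Quotient.mkₐ k (I k q) (X 1 ^ (q - 1) * X 2))
  set π := (Ideal.Quotient.mkₐ k (I k q)).toLinearMap with hπ
  have e1 : conv k q (P k q) (Q k q) (E m) = conv k q (P k q) (n.comp π) (E m) := by
    rw [hleft (P k q) (p'.comp π) _ m hp', fn_conv_Q k q p' hq, hleft (Q k q) (n.comp π) _ m hn,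
      conv_comm k q n p', ← hleft (P k q) (p'.comp π) _ m hp']
  have e2 : conv k q (Q k q) (P k q) (E m) = conv k q (n.comp π) (P k q) (E m) :=
    hleft (Q k q) (n.comp π) _ m hn
  have hq1 : 1 ≤ q := Nat.one_le_iff_ne_zero.mpr hq
  have e3 : ∀ ν : R k →ₗ[k] k, conv k q (P k q) ν (E m) - conv k q ν (P k q) (E m)
      = ν (X 1 * pderiv 2 (E m)) := by
    intro ν
    rw [conv_P_left, conv_P_right, α_coeff k q hq1, map_add]
    ring
  -- the derivative
  have hdiff : E m - X 1 ^ (q - 1) * X 2 ∈ I k q := by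
    have := hm
    rw [← sub_eq_zero, ← map_sub] at this
    exact Ideal.Quotient.eq_zero_iff_mem.mp this
  have hder : pderiv 2 (E m) - X 1 ^ (q - 1) ∈ I k q := by
    have h1 := pderiv_mem k q hqk _ hdiff
    have h2 : pderiv 2 (E m - X 1 ^ (q - 1) * X 2) = pderiv 2 (E m) - X 1 ^ (q - 1) := by
      rw [map_sub, (pderiv 2).leibniz, (pderiv 2).leibniz_pow, pderiv_X_self,
        pderiv_X_of_ne (by decide)]
      simp
    rwa [h2] at h1
  have hpow : (X 1 : R k) * X 1 ^ (q - 1) = X 1 ^ q := by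
    rw [← pow_succ']
    congr 1
    omega
  have e4 : (n.comp π) (X 1 * pderiv 2 (E m)) = 0 := by
    have h1 : (X 1 : R k) * pderiv 2 (E m) ∈ I k q := by
      have h2 : (X 1 : R k) * pderiv 2 (E m)
          = X 1 * (pderiv 2 (E m) - X 1 ^ (q - 1)) + X 1 ^ q := by
        rw [mul_sub, hpow]; ring
      rw [h2]
      exact Ideal.add_mem _ (Ideal.mul_mem_left _ _ hder) (X_mem k q 1)
    rw [LinearMap.comp_apply]
    have h3 : π (X 1 * pderiv 2 (E m)) = 0 := Ideal.Quotient.eq_zero_iff_mem.mpr h1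
    rw [h3, map_zero]
  have e5 : Q k q (X 1 * pderiv 2 (E m)) = 1 := by
    have h2 : (X 1 : R k) * pderiv 2 (E m)
        = X 1 * (pderiv 2 (E m) - X 1 ^ (q - 1)) + X 1 ^ q := by
      rw [mul_sub, hpow]; ring
    rw [h2, map_add, Q_X1_mul k q hq _ hder, Q_X1_pow, zero_add]
  have h1 := e3 (Q k q)
  have h2 := e3 (n.comp π)
  rw [e5] at h1
  rw [e4] at h2
  rw [e1, e2, h2] at h1
  exact zero_ne_one h1

end Pool.Agent.V1114.FrobKer
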