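import Mathlib

/-!
# Monomial representations: irreducibility and dimension; an upper bound for dimensions
-/

namespace Pool.Agent.V1114.IndRep

section Induced

variable {G : Type} [Group G] (S : Subgroup G) (χ : S →* ℂˣ)

/-- Functions `f` on `G` with `f (g s) = χ(s)⁻¹ f(g)`. -/
def Space : Submodule ℂ (G → ℂ) where
  carrier := {f | ∀ (g : G) (s : S), f (g * s) = ((χ s)⁻¹ : ℂˣ) * f g}
  zero_mem' := by intro g s; simp
  add_mem' := by
    intro f f' hf hf' g s
    simp only [Pi.add_apply, hf g s, hf' g s, mul_add]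
  smul_mem' := by
    intro c f hf g s
    simp only [Pi.smul_apply, smul_eq_mul, hf g s]
    ring

variable {S χ}

lemma mem_apply {f : G → ℂ} (hf : f ∈ Space S χ) (g : G) (s : S) :
    f (g * s) = ((χ s)⁻¹ : ℂˣ) * f g := hf g s

variable (S χ)

/-- The representation by left translation. -/
def rep : Representation ℂ G (Space S χ) where
  toFun h :=
    { toFun := fun f => ⟨fun g => f.1 (h⁻¹ * g), fun g s => by
        show f.1 (h⁻¹ * (g * s)) = _ * f.1 (h⁻¹ * g)
        rw [← mul_assoc]; exact f.2 _ s⟩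
      map_add' := fun _ _ => rfl
      map_smul' := fun _ _ => rfl }
  map_one' := by
    ext f g
    show f.1 (1⁻¹ * g) = f.1 g
    rw [inv_one, one_mul]
  map_mul' h h' := by
    ext f g
    show f.1 ((h * h')⁻¹ * g) = f.1 (h'⁻¹ * (h⁻¹ * g))
    rw [mul_inv_rev, mul_assoc]

lemma rep_apply (h : G) (f : Space S χ) (g : G) : (rep S χ h f).1 g = f.1 (h⁻¹ * g) := rfl

/-- The element of `S` relating `g` to the representative of its coset. -/
noncomputable def sOf (g : G) : S :=
  ⟨((g : G ⧸ S).out)⁻¹ * g, by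
    rw [← QuotientGroup.eq]
    exact QuotientGroup.out_eq' _⟩

lemma out_mul_sOf (g : G) : (g : G ⧸ S).out * (sOf S g : G) = g := by
  show (g : G ⧸ S).out * (((g : G ⧸ S).out)⁻¹ * g) = g
  group

lemma mk_mul_mem (g : G) (s : S) : ((g * s : G) : G ⧸ S) = (g : G ⧸ S) := by
  rw [QuotientGroup.eq]
  have : (g * s)⁻¹ * g = ((s : G))⁻¹ := by group
  rw [this]
  exact S.inv_mem s.2

lemma sOf_mul (g : G) (s : S) : sOf S (g * s) = sOf S g * s := by
  apply Subtype.ext
  show (((g * s : G) : G ⧸ S).out)⁻¹ * (g * s) = ((g : G ⧸ S).out)⁻¹ * g * s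
  rw [mk_mul_mem, mul_assoc]

/-- Functions on the cosets. -/
noncomputable def equivCosets : Space S χ ≃ₗ[ℂ] (G ⧸ S → ℂ) where
  toFun f c := f.1 c.out
  invFun F := ⟨fun g => ((χ (sOf S g))⁻¹ : ℂˣ) * F g, by
    intro g s
    show ((χ (sOf S (g * s)))⁻¹ : ℂˣ) * F ((g * s : G) : G ⧸ S) = _
    rw [mk_mul_mem, sOf_mul, map_mul, mul_inv, Units.val_mul]
    ring⟩
  map_add' _ _ := rfl
  map_smul' _ _ := rfl
  left_inv f := by
    apply Subtype.ext
    funext g
    show ((χ (sOf S g))⁻¹ : ℂˣ) * f.1 ((g : G ⧸ S).out) = f.1 g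
    rw [← mem_apply f.2, out_mul_sOf]
  right_inv F := by
    funext c
    show ((χ (sOf S c.out))⁻¹ : ℂˣ) * F (c.out : G ⧸ S) = F c
    have h1 : ((c.out : G) : G ⧸ S) = c := QuotientGroup.out_eq' c
    have h2 : sOf S c.out = 1 := by
      apply Subtype.ext
      show (((c.out : G) : G ⧸ S).out)⁻¹ * c.out = 1
      rw [h1]
      group
    rw [h2, h1]
    simp

variable [Finite G]

instance : FiniteDimensional ℂ (Space S χ) := inferInstance

theorem finrank_space : Module.finrank ℂ (Space S χ) = S.index := by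
  classical
  have : Fintype (G ⧸ S) := Fintype.ofFinite _
  rw [(equivCosets S χ).finrank_eq, Module.finrank_fintype_fun_eq_card, Subgroup.index,
    Nat.card_eq_fintype_card]

omit [Finite G] in
/-- Action of an element all of whose conjugates lie in `S`. -/
lemma rep_conj (k g : G) (hk : g⁻¹ * k * g ∈ S) (f : Space S χ) :
    (rep S χ k f).1 g = χ ⟨g⁻¹ * k * g, hk⟩ * f.1 g := by
  rw [rep_apply]
  have h1 : k⁻¹ * g = g * (((⟨g⁻¹ * k * g, hk⟩ : S)⁻¹ : S) : G) := by
    show k⁻¹ * g = g * (g⁻¹ * k * g)⁻¹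
    group
  rw [h1, mem_apply f.2, map_inv, inv_inv]

/-- Irreducibility criterion. -/
theorem irreducible
    (hK : ∀ g : G, g ∉ S → ∃ (k : G) (hk : ∀ x : G, x⁻¹ * k * x ∈ S),
      χ ⟨g⁻¹ * k * g, hk g⟩ ≠ χ ⟨1⁻¹ * k * 1, hk 1⟩)
    (W : Submodule ℂ (Space S χ)) (hW : ∀ g v, v ∈ W → rep S χ g v ∈ W) : W = ⊥ ∨ W = ⊤ := by
  classical
  have : Fintype G := Fintype.ofFinite G
  by_cases hbot : W = ⊥
  · exact Or.inl hbot
  right
  -- a nonzero element of minimal support
  let supp : Space S χ → ℕ := fun f => (Finset.univ.filter fun g => f.1 g ≠ 0).card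
  have hex : ∃ n, ∃ f ∈ W, f ≠ 0 ∧ supp f = n := by
    obtain ⟨f, hf, hf0⟩ := (Submodule.ne_bot_iff W).mp hbot
    exact ⟨_, f, hf, hf0, rfl⟩
  obtain ⟨f, hfW, hf0, hfn⟩ := Nat.find_spec hex
  have hmin : ∀ f' ∈ W, f' ≠ 0 → supp f ≤ supp f' := by
    intro f' hf' hf'0
    rw [hfn]
    exact Nat.find_min' hex ⟨f', hf', hf'0, rfl⟩
  have hg1 : ∃ g1, f.1 g1 ≠ 0 := by
    by_contra hcon
    push Not at hcon
    exact hf0 (Subtype.ext (funext hcon))
  obtain ⟨g1, hg1⟩ := hg1
  -- the support is one coset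
  have hsupp : ∀ g2, f.1 g2 ≠ 0 → g1⁻¹ * g2 ∈ S := by
    intro g2 hg2
    by_contra hnot
    obtain ⟨k, hk, hne⟩ := hK _ hnot
    let k' : G := g1 * k * g1⁻¹
    have hk' : ∀ x : G, x⁻¹ * k' * x ∈ S := by
      intro x
      have := hk (g1⁻¹ * x)
      have e : (g1⁻¹ * x)⁻¹ * k * (g1⁻¹ * x) = x⁻¹ * k' * x := by
        simp only [k']; group
      rwa [e] at this
    set c1 : ℂˣ := χ ⟨g1⁻¹ * k' * g1, hk' g1⟩ with hc1
    set c2 : ℂˣ := χ ⟨g2⁻¹ * k' * g2, hk' g2⟩ with hc2
    have hc12 : c2 ≠ c1 := by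
      intro h
      apply hne
      have e1 : (⟨g1⁻¹ * k' * g1, hk' g1⟩ : S) = ⟨1⁻¹ * k * 1, hk 1⟩ := by
        apply Subtype.ext
        show g1⁻¹ * (g1 * k * g1⁻¹) * g1 = 1⁻¹ * k * 1
        group
      have e2 : (⟨g2⁻¹ * k' * g2, hk' g2⟩ : S) = ⟨(g1⁻¹ * g2)⁻¹ * k * (g1⁻¹ * g2), hk _⟩ := by
        apply Subtype.ext
        show g2⁻¹ * (g1 * k * g1⁻¹) * g2 = (g1⁻¹ * g2)⁻¹ * k * (g1⁻¹ * g2)
        group
      rw [← e1, ← e2]
      exact h
    let f' : Space S χ := rep S χ k' f - (c1 : ℂ) • f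
    have hf' : ∀ g, f'.1 g = ((χ ⟨g⁻¹ * k' * g, hk' g⟩ : ℂˣ) - (c1 : ℂ)) * f.1 g := by
      intro g
      show (rep S χ k' f).1 g - (c1 : ℂ) * f.1 g = _
      rw [rep_conj S χ k' g (hk' g) f]
      ring
    have hf'W : f' ∈ W := W.sub_mem (hW _ _ hfW) (W.smul_mem _ hfW)
    have hf'0 : f' ≠ 0 := by
      intro h
      have : f'.1 g2 = 0 := by rw [h]; rfl
      rw [hf' g2] at this
      rcases mul_eq_zero.mp this with h1 | h1
      · exact hc12 (Units.ext (sub_eq_zero.mp h1))
      · exact hg2 h1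
    have hlt : supp f' < supp f := by
      apply Finset.card_lt_card
      rw [Finset.ssubset_iff_of_subset]
      · refine ⟨g1, ?_, ?_⟩
        · simp [hg1]
        · simp only [Finset.mem_filter, Finset.mem_univ, true_and, not_not]
          rw [hf' g1, ← hc1, sub_self, zero_mul]
      · intro g hg
        simp only [Finset.mem_filter, Finset.mem_univ, true_and] at hg ⊢
        intro h0
        apply hg
        rw [hf' g, h0, mul_zero]
    exact absurd (hmin f' hf'W hf'0) (not_le.mpr hlt)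
  -- generate everything
  rw [Submodule.eq_top_iff']
  intro F
  have : Fintype (G ⧸ S) := Fintype.ofFinite _
  have hF : F = ∑ c : G ⧸ S, (F.1 c.out / f.1 g1) • rep S χ (c.out * g1⁻¹) f := by
    apply Subtype.ext
    funext x
    have hcoe : (∑ c : G ⧸ S, (F.1 c.out / f.1 g1) • rep S χ (c.out * g1⁻¹) f).1 x
        = ∑ c : G ⧸ S, (F.1 c.out / f.1 g1) * f.1 ((c.out * g1⁻¹)⁻¹ * x) := by
      rw [Submodule.coe_sum, Finset.sum_apply]
      rfl
    rw [hcoe, Finset.sum_eq_single (x : G ⧸ S)]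
    · have e1 : ((x : G ⧸ S).out * g1⁻¹)⁻¹ * x = g1 * (sOf S x : G) := by
        show _ = g1 * (((x : G ⧸ S).out)⁻¹ * x)
        group
      rw [e1, mem_apply f.2]
      have e2 : F.1 x = ((χ (sOf S x))⁻¹ : ℂˣ) * F.1 (x : G ⧸ S).out := by
        rw [← mem_apply F.2, out_mul_sOf]
      rw [e2]
      field_simp
    · intro c _ hc
      have : f.1 ((c.out * g1⁻¹)⁻¹ * x) = 0 := by
        by_contra hne
        have := hsupp _ hne
        apply hc
        have e : g1⁻¹ * ((c.out * g1⁻¹)⁻¹ * x) = (c.out)⁻¹ * x := by group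
        rw [e, ← QuotientGroup.eq] at this
        rw [← this]
        exact (QuotientGroup.out_eq' c).symm
      rw [this, mul_zero]
    · intro h
      exact absurd (Finset.mem_univ _) h
  rw [hF]
  exact W.sum_mem fun c _ => W.smul_mem _ (hW _ _ hfW)

end Induced

section Bound

variable {G : Type} [Group G] [Finite G] {V : Type} [AddCommGroup V] [Module ℂ V]

/-- An irreducible representation is spanned by the translates of a vector `v`; if `v` is an
eigenvector of a subgroup `L`, its dimension is at most the index of `L`. -/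
theorem finrank_le (ρ : Representation ℂ G V)
    (hirr : ∀ W : Submodule ℂ V, (∀ g v, v ∈ W → ρ g v ∈ W) → W = ⊥ ∨ W = ⊤)
    (v : V) (hv : v ≠ 0) (L : Subgroup G) (hL : ∀ g ∈ L, ∃ c : ℂ, ρ g v = c • v) :
    Module.finrank ℂ V ≤ L.index := by
  classical
  have : Fintype (G ⧸ L) := Fintype.ofFinite _
  let F : G ⧸ L → V := fun c => ρ c.out v
  have hspan : Submodule.span ℂ (Set.range F) = ⊤ := by
    have hmem : ∀ g : G, ρ g v ∈ Submodule.span ℂ (Set.range F) := by
      intro g
      have h1 : ((g : G ⧸ L).out)⁻¹ * g ∈ L := by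
        rw [← QuotientGroup.eq]
        exact QuotientGroup.out_eq' _
      obtain ⟨c, hc⟩ := hL _ h1
      have h2 : ρ g v = c • F (g : G ⧸ L) := by
        have : g = (g : G ⧸ L).out * (((g : G ⧸ L).out)⁻¹ * g) := by group
        conv_lhs => rw [this, map_mul, Module.End.mul_apply, hc, map_smul]
      rw [h2]
      exact Submodule.smul_mem _ _ (Submodule.subset_span ⟨_, rfl⟩)
    rcases hirr (Submodule.span ℂ (Set.range F)) (by
      intro g w hw
      induction hw using Submodule.span_induction with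
      | mem x hx =>
        obtain ⟨c, rfl⟩ := hx
        show ρ g (ρ c.out v) ∈ _
        rw [← Module.End.mul_apply, ← map_mul]
        exact hmem _
      | zero => rw [map_zero]; exact Submodule.zero_mem _
      | add x y _ _ hx hy => rw [map_add]; exact Submodule.add_mem _ hx hy
      | smul a x _ hx => rw [map_smul]; exact Submodule.smul_mem _ _ hx) with h | h
    · exfalso
      apply hv
      have := hmem 1
      rw [h, Submodule.mem_bot, map_one] at this
      exact this
    · exact h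
  calc Module.finrank ℂ V = Module.finrank ℂ (⊤ : Submodule ℂ V) := (finrank_top ℂ V).symm
    _ = (Set.range F).finrank ℂ := by rw [Set.finrank, hspan]
    _ ≤ Fintype.card (G ⧸ L) := finrank_range_le_card F
    _ = L.index := by rw [Subgroup.index, Nat.card_eq_fintype_card]

end Bound

end Pool.Agent.V1114.IndRep
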