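import Mathlib
import Pool.Agent.V1114.IndRep

/-!
# `GL_3(ℤ/p²)`: reduction, the preimage of the torus and a character
-/

namespace Pool.Agent.V1114.GL3

open Matrix

variable (p : ℕ) [hp : Fact p.Prime]

/-- The ring `ℤ/p²`. -/
abbrev A : Type := ZMod (p ^ 2)

instance : NeZero (p ^ 2) := ⟨pow_ne_zero 2 hp.out.ne_zero⟩

/-- Reduction modulo `p`. -/
def π : A p →+* ZMod p := ZMod.castHom (dvd_pow_self p two_ne_zero) (ZMod p)

lemma π_surj : Function.Surjective (π p) := ZMod.castHom_surjective _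

lemma p_sq : (p : A p) * (p : A p) = 0 := by
  have : ((p ^ 2 : ℕ) : A p) = 0 := ZMod.natCast_self _
  rw [← this]
  push_cast
  ring

lemma π_p_mul (x : A p) : π p ((p : A p) * x) = 0 := by
  rw [map_mul, map_natCast, ZMod.natCast_self, zero_mul]

lemma π_eq_zero (x : A p) : π p x = 0 ↔ ∃ y, x = p * y := by
  constructor
  · intro h
    have h1 : ((x.val : ℕ) : ZMod p) = 0 := by
      have : π p ((x.val : ℕ) : A p) = 0 := by rw [ZMod.natCast_zmod_val]; exact h
      rwa [map_natCast] at this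
    rw [ZMod.natCast_eq_zero_iff] at h1
    obtain ⟨y, hy⟩ := h1
    refine ⟨(y : A p), ?_⟩
    rw [← ZMod.natCast_zmod_val x, hy]
    push_cast
    ring
  · rintro ⟨y, rfl⟩
    exact π_p_mul p y

lemma ker_sq (x y : A p) (hx : π p x = 0) (hy : π p y = 0) : x * y = 0 := by
  obtain ⟨a, rfl⟩ := (π_eq_zero p x).mp hx
  obtain ⟨b, rfl⟩ := (π_eq_zero p y).mp hy
  have : (p : A p) * a * (p * b) = (p * p) * (a * b) := by ring
  rw [this, p_sq, zero_mul]

lemma isUnit_of (a : A p) (h : π p a ≠ 0) : IsUnit a := by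
  obtain ⟨b, hb⟩ := π_surj p (π p a)⁻¹
  have h1 : π p (a * b - 1) = 0 := by
    rw [map_sub, map_mul, hb, mul_inv_cancel₀ h, map_one, sub_self]
  have h2 := ker_sq p _ _ h1 h1
  refine IsUnit.of_mul_eq_one (b * (1 - (a * b - 1))) ?_
  linear_combination (-1 : A p) * h2

lemma p_mul_eq_zero (x : A p) (h : (p : A p) * x = 0) : π p x = 0 := by
  by_contra hne
  obtain ⟨u, hu⟩ := isUnit_of p x hne
  have h1 : (p : A p) = 0 := by
    have : (p : A p) * x * (u⁻¹ : (A p)ˣ) = 0 := by rw [h, zero_mul]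
    rwa [mul_assoc, ← hu, Units.mul_inv, mul_one] at this
  rw [ZMod.natCast_eq_zero_iff] at h1
  have h2 := Nat.le_of_dvd hp.out.pos h1
  have h3 := hp.out.two_le
  nlinarith

/-- Reduction of matrices. -/
def red : GL (Fin 3) (A p) →* GL (Fin 3) (ZMod p) := Matrix.GeneralLinearGroup.map (π p)

lemma red_apply (g : GL (Fin 3) (A p)) (i j : Fin 3) :
    (red p g : Matrix (Fin 3) (Fin 3) (ZMod p)) i j = π p (g i j) := rfl

lemma red_surj : Function.Surjective (red p) := by
  intro h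
  choose s hs using π_surj p
  let M : Matrix (Fin 3) (Fin 3) (A p) := fun i j => s (h i j)
  have hM : (π p).mapMatrix M = (h : Matrix (Fin 3) (Fin 3) (ZMod p)) := by
    ext i j
    exact hs _
  have hdet : IsUnit M.det := by
    apply isUnit_of
    rw [RingHom.map_det, hM]
    exact ((Matrix.isUnit_iff_isUnit_det _).mp h.isUnit).ne_zero
  refine ⟨Matrix.GeneralLinearGroup.mk'' M hdet, ?_⟩
  apply Units.ext
  exact hM

/-- The diagonal torus. -/
def T (k : Type) [Field k] : Subgroup (GL (Fin 3) k) :=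
  (Units.map ((Matrix.diagonalRingHom (Fin 3) k : (Fin 3 → k) →+* _) :
    (Fin 3 → k) →* Matrix (Fin 3) (Fin 3) k)).range

lemma mem_T (k : Type) [Field k] (g : GL (Fin 3) k) :
    g ∈ T k ↔ ∀ i j, i ≠ j → (g : Matrix (Fin 3) (Fin 3) k) i j = 0 := by
  constructor
  · rintro ⟨d, rfl⟩ i j hij
    exact Matrix.diagonal_apply_ne _ hij
  · intro h
    have hdiag : (g : Matrix (Fin 3) (Fin 3) k)
        = Matrix.diagonal (fun i => (g : Matrix (Fin 3) (Fin 3) k) i i) := by
      ext i j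
      by_cases hij : i = j
      · subst hij; rw [Matrix.diagonal_apply_eq]
      · rw [Matrix.diagonal_apply_ne _ hij, h i j hij]
    have hu : IsUnit (fun i => (g : Matrix (Fin 3) (Fin 3) k) i i) := by
      have := g.isUnit
      rw [hdiag, Matrix.isUnit_diagonal] at this
      exact this
    obtain ⟨u, hu⟩ := hu
    refine ⟨u, ?_⟩
    apply Units.ext
    show Matrix.diagonal (u : Fin 3 → k) = _
    rw [hu]
    exact hdiag.symm

lemma card_T (k : Type) [Field k] [Finite k] : Nat.card (T k) = (Nat.card k - 1) ^ 3 := by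
  have hinj : Function.Injective
      (Units.map ((Matrix.diagonalRingHom (Fin 3) k : (Fin 3 → k) →+* _) :
        (Fin 3 → k) →* Matrix (Fin 3) (Fin 3) k)) := by
    apply Units.map_injective
    intro a b hab
    exact Matrix.diagonal_injective hab
  have h1 : Nat.card (T k) = Nat.card (Fin 3 → k)ˣ :=
    (Nat.card_congr (MonoidHom.ofInjective hinj).toEquiv).symm
  rw [h1, Nat.card_congr (MulEquiv.piUnits).toEquiv, Nat.card_pi, Finset.prod_const,
    Nat.card_units, Finset.card_univ, Fintype.card_fin]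

/-- The dimension `q³ (q + 1) (q² + q + 1)`. -/
def cdim (q : ℕ) : ℕ := q ^ 3 * (q + 1) * (q ^ 2 + q + 1)

lemma card_GL3 (k : Type) [Field k] [Fintype k] :
    Nat.card (GL (Fin 3) k) = (Fintype.card k - 1) ^ 3 * cdim (Fintype.card k) := by
  rw [Matrix.card_GL_field, Fin.prod_univ_three]
  have hq : 1 ≤ Fintype.card k := Fintype.card_pos
  obtain ⟨m, hm⟩ := Nat.exists_eq_add_of_le hq
  rw [hm]
  simp only [Fin.val_zero, Fin.val_one, Fin.val_two, pow_zero, pow_one, Nat.add_sub_cancel_left,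
    cdim]
  have e1 : (1 + m) ^ 3 - 1 = m * ((1 + m) ^ 2 + (1 + m) + 1) := by
    have : (1 + m) ^ 3 = m * ((1 + m) ^ 2 + (1 + m) + 1) + 1 := by ring
    omega
  have e2 : (1 + m) ^ 3 - (1 + m) = m * ((1 + m) * (1 + m + 1)) := by
    have : (1 + m) ^ 3 = m * ((1 + m) * (1 + m + 1)) + (1 + m) := by ring
    omega
  have e3 : (1 + m) ^ 3 - (1 + m) ^ 2 = m * (1 + m) ^ 2 := by
    have : (1 + m) ^ 3 = m * (1 + m) ^ 2 + (1 + m) ^ 2 := by ring
    omega
  rw [e1, e2, e3]
  ring

lemma index_T (hp2 : 2 ≤ p) : (T (ZMod p)).index = cdim p := by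
  have h1 := (T (ZMod p)).card_mul_index
  rw [card_T, card_GL3, Nat.card_eq_fintype_card, ZMod.card] at h1
  exact Nat.eq_of_mul_eq_mul_left (pow_pos (by omega) 3) h1

/-- The preimage of the torus. -/
def S : Subgroup (GL (Fin 3) (A p)) := (T (ZMod p)).comap (red p)

lemma index_S (hp2 : 2 ≤ p) : (S p).index = cdim p := by
  rw [S, Subgroup.index_comap_of_surjective _ (red_surj p), index_T p hp2]

lemma mem_S (g : GL (Fin 3) (A p)) : g ∈ S p ↔ ∀ i j, i ≠ j → π p (g i j) = 0 := by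
  rw [S, Subgroup.mem_comap, mem_T]
  rfl

/-- The diagonal entries are multiplicative on `S`. -/
def dgHom (i : Fin 3) : S p →* A p where
  toFun g := (g : GL (Fin 3) (A p)) i i
  map_one' := by
    show (1 : Matrix (Fin 3) (Fin 3) (A p)) i i = 1
    exact Matrix.one_apply_eq i
  map_mul' g h := by
    show ((g : GL (Fin 3) (A p)).val * (h : GL (Fin 3) (A p)).val) i i = _
    rw [Matrix.mul_apply, Finset.sum_eq_single i]
    · intro j _ hj
      exact ker_sq p _ _ ((mem_S p _).mp g.2 i j hj.symm) ((mem_S p _).mp h.2 j i hj)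
    · intro h
      exact absurd (Finset.mem_univ i) h

/-- The standard additive character. -/
noncomputable def e (x : A p) : ℂ := ZMod.stdAddChar x

lemma e_add (x y : A p) : e p (x + y) = e p x * e p y := AddChar.map_add_eq_mul _ x y

lemma e_zero : e p 0 = 1 := AddChar.map_zero_eq_one _

lemma e_inj (x y : A p) (h : e p x = e p y) : x = y := ZMod.injective_stdAddChar h

lemma π_pow (u : (A p)ˣ) : π p ((u : A p) ^ (p - 1) - 1) = 0 := by
  have h : π p (u : A p) ≠ 0 := (u.isUnit.map (π p)).ne_zero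
  rw [map_sub, map_pow, ZMod.pow_card_sub_one_eq_one h, map_one, sub_self]

/-- The character `u ↦ e (u ^ (p - 1) - 1)` of the units. -/
noncomputable def θ₀ : (A p)ˣ →* ℂ where
  toFun u := e p ((u : A p) ^ (p - 1) - 1)
  map_one' := by
    rw [Units.val_one, one_pow, sub_self, e_zero]
  map_mul' u v := by
    rw [← e_add]
    congr 1
    have h := ker_sq p _ _ (π_pow p u) (π_pow p v)
    rw [Units.val_mul, mul_pow]
    linear_combination h

/-- The character with values in the units. -/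
noncomputable def θ : (A p)ˣ →* ℂˣ := (θ₀ p).toHomUnits

lemma θ_val (u : (A p)ˣ) : ((θ p u : ℂˣ) : ℂ) = e p ((u : A p) ^ (p - 1) - 1) := rfl

lemma one_add_pow (a : A p) (n : ℕ) : (1 + (p : A p) * a) ^ n = 1 + n * (p * a) := by
  induction n with
  | zero => simp
  | succ n ih =>
    rw [pow_succ, ih]
    push_cast
    linear_combination (n : A p) * a * a * p_sq p

lemma θ_one_add (u : (A p)ˣ) (a : A p) (hu : (u : A p) = 1 + p * a) :
    ((θ p u : ℂˣ) : ℂ) = e p (-(p * a)) := by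
  rw [θ_val, hu, one_add_pow]
  congr 1
  have : ((p - 1 : ℕ) : A p) = p - 1 := by
    rw [Nat.cast_sub hp.out.one_le, Nat.cast_one]
  rw [this]
  linear_combination a * p_sq p

/-- The character of `S`. -/
noncomputable def χ : S p →* ℂˣ :=
  ((θ p).comp (dgHom p 1).toHomUnits) * ((θ p).comp (dgHom p 2).toHomUnits) ^ 2

lemma dgHom_units (i : Fin 3) (s : S p) :
    (((dgHom p i).toHomUnits s : (A p)ˣ) : A p) = (s : GL (Fin 3) (A p)) i i := rfl

lemma χ_val (s : S p) (y : Matrix (Fin 3) (Fin 3) (A p))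
    (hs : ((s : GL (Fin 3) (A p)) : Matrix (Fin 3) (Fin 3) (A p)) = 1 + (p : A p) • y) :
    ((χ p s : ℂˣ) : ℂ) = e p (-(p * (y 1 1 + 2 * y 2 2))) := by
  have h1 : (((dgHom p 1).toHomUnits s : (A p)ˣ) : A p) = 1 + p * y 1 1 := by
    rw [dgHom_units, hs, Matrix.add_apply, Matrix.one_apply_eq, Matrix.smul_apply, smul_eq_mul]
  have h2 : (((dgHom p 2).toHomUnits s : (A p)ˣ) : A p) = 1 + p * y 2 2 := by
    rw [dgHom_units, hs, Matrix.add_apply, Matrix.one_apply_eq, Matrix.smul_apply, smul_eq_mul]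
  show ((θ p ((dgHom p 1).toHomUnits s) * (θ p ((dgHom p 2).toHomUnits s)) ^ 2 : ℂˣ) : ℂ) = _
  have hsq : ∀ z : ℂ, z ^ 2 = z * z := fun z => pow_two z
  rw [Units.val_mul, Units.val_pow_eq_pow_val, θ_one_add p _ _ h1, θ_one_add p _ _ h2, hsq,
    ← e_add, ← e_add]
  congr 1
  ring

/-- The element `1 + p x`. -/
def kx (x : Matrix (Fin 3) (Fin 3) (A p)) : GL (Fin 3) (A p) where
  val := 1 + (p : A p) • x
  inv := 1 - (p : A p) • x
  val_inv := by
    have : (p : A p) • x * ((p : A p) • x) = 0 := by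
      rw [Matrix.smul_mul, Matrix.mul_smul, smul_smul, p_sq, zero_smul]
    rw [add_mul, mul_sub, mul_sub, this]
    simp
  inv_val := by
    have : (p : A p) • x * ((p : A p) • x) = 0 := by
      rw [Matrix.smul_mul, Matrix.mul_smul, smul_smul, p_sq, zero_smul]
    rw [sub_mul, mul_add, mul_add, this]
    simp

lemma kx_val (x : Matrix (Fin 3) (Fin 3) (A p)) :
    (kx p x : Matrix (Fin 3) (Fin 3) (A p)) = 1 + (p : A p) • x := rfl

lemma conj_kx (g : GL (Fin 3) (A p)) (x : Matrix (Fin 3) (Fin 3) (A p)) :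
    ((g⁻¹ * kx p x * g : GL (Fin 3) (A p)) : Matrix (Fin 3) (Fin 3) (A p))
      = 1 + (p : A p) • ((g⁻¹ : GL (Fin 3) (A p)).val * x * g.val) := by
  rw [Units.val_mul, Units.val_mul, kx_val, mul_add, mul_one, add_mul, Units.inv_mul,
    Matrix.mul_smul, Matrix.smul_mul]

lemma kx_mem (g : GL (Fin 3) (A p)) (x : Matrix (Fin 3) (Fin 3) (A p)) :
    g⁻¹ * kx p x * g ∈ S p := by
  rw [mem_S]
  intro i j hij
  rw [conj_kx, Matrix.add_apply, Matrix.one_apply_ne hij, zero_add, Matrix.smul_apply,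
    smul_eq_mul, π_p_mul]

/-- The diagonal matrix `(0, 1, 2)`. -/
def B : Matrix (Fin 3) (Fin 3) (A p) := Matrix.diagonal ![0, 1, 2]

lemma trace_B (y : Matrix (Fin 3) (Fin 3) (A p)) :
    (B p * y).trace = y 1 1 + 2 * y 2 2 := by
  rw [B, Matrix.trace_fin_three, Matrix.diagonal_mul, Matrix.diagonal_mul, Matrix.diagonal_mul]
  simp

lemma single_trace (M : Matrix (Fin 3) (Fin 3) (A p)) (i j : Fin 3) :
    (M * Matrix.single j i 1).trace = M i j := by
  rw [Matrix.trace_mul_single]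
  simp

/-- The key separation property. -/
lemma separate' (hp3 : 3 ≤ p) (g : GL (Fin 3) (A p)) (hg : g ∉ S p) :
    ∃ x : Matrix (Fin 3) (Fin 3) (A p),
      χ p ⟨g⁻¹ * kx p x * g, kx_mem p g x⟩ ≠ χ p ⟨1⁻¹ * kx p x * 1, kx_mem p 1 x⟩ := by
  by_contra hcon
  push Not at hcon
  apply hg
  have h1 : ∀ x : Matrix (Fin 3) (Fin 3) (A p),
      (p : A p) * ((g.val * B p * (g⁻¹ : GL (Fin 3) (A p)).val - B p) * x).trace = 0 := by
    intro x
    have h := hcon x
    have h2 := congrArg (Units.val) h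
    rw [χ_val p _ _ (conj_kx p g x), χ_val p _ _ (conj_kx p 1 x)] at h2
    have h3 := e_inj p _ _ h2
    rw [← trace_B, ← trace_B] at h3
    have h4 : (B p * ((g⁻¹ : GL (Fin 3) (A p)).val * x * g.val)).trace
        = (g.val * B p * (g⁻¹ : GL (Fin 3) (A p)).val * x).trace := by
      rw [← Matrix.mul_assoc, Matrix.trace_mul_comm, ← Matrix.mul_assoc, ← Matrix.mul_assoc]
    have h5 : (B p * (((1 : GL (Fin 3) (A p))⁻¹ : GL (Fin 3) (A p)).val * x
        * (1 : GL (Fin 3) (A p)).val)).trace = (B p * x).trace := by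
      rw [inv_one, Units.val_one, one_mul, mul_one]
    rw [h4, h5] at h3
    rw [sub_mul, Matrix.trace_sub]
    linear_combination (-1 : A p) * h3
  have h2 : (p : A p) • (g.val * B p * (g⁻¹ : GL (Fin 3) (A p)).val - B p) = 0 := by
    ext i j
    have := h1 (Matrix.single j i 1)
    rw [single_trace] at this
    exact this
  have h3 : (p : A p) • (g.val * B p - B p * g.val) = 0 := by
    have : (g.val * B p - B p * g.val)
        = (g.val * B p * (g⁻¹ : GL (Fin 3) (A p)).val - B p) * g.val := by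
      rw [sub_mul, Matrix.mul_assoc (g.val * B p), Units.inv_mul, mul_one]
    rw [this, ← Matrix.smul_mul, h2, zero_mul]
  rw [mem_S]
  intro i j hij
  have h4 := congrFun (congrFun h3 i) j
  rw [Matrix.smul_apply, Matrix.sub_apply, B, Matrix.mul_diagonal, Matrix.diagonal_mul,
    smul_eq_mul, Matrix.zero_apply] at h4
  have h5 : (p : A p) * (((![0, 1, 2] : Fin 3 → A p) j - (![0, 1, 2] : Fin 3 → A p) i)
      * g i j) = 0 := by
    refine Eq.trans ?_ h4
    ring
  have h6 := p_mul_eq_zero p _ h5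
  rw [map_mul] at h6
  rcases mul_eq_zero.mp h6 with h7 | h7
  · exfalso
    have one_ne : (1 : ZMod p) ≠ 0 := one_ne_zero
    have two_ne : (2 : ZMod p) ≠ 0 := by
      intro h
      have : ((2 : ℕ) : ZMod p) = 0 := by exact_mod_cast h
      rw [ZMod.natCast_eq_zero_iff] at this
      exact absurd (Nat.le_of_dvd (by norm_num) this) (by omega)
    fin_cases i <;> fin_cases j <;> simp [map_ofNat] at hij h7
    · exact two_ne h7
    · norm_num at h7
    · exact two_ne h7
    · norm_num at h7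
  · exact h7

/-- The separation property in the form used by the irreducibility criterion. -/
lemma separate (hp3 : 3 ≤ p) (g : GL (Fin 3) (A p)) (hg : g ∉ S p) :
    ∃ (k : GL (Fin 3) (A p)) (hk : ∀ x : GL (Fin 3) (A p), x⁻¹ * k * x ∈ S p),
      χ p ⟨g⁻¹ * k * g, hk g⟩ ≠ χ p ⟨1⁻¹ * k * 1, hk 1⟩ := by
  obtain ⟨x, hx⟩ := separate' p hp3 g hg
  exact ⟨kx p x, fun g' => kx_mem p g' x, hx⟩

end Pool.Agent.V1114.GL3
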