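import Mathlib
import Pool.Agent.V1114.GL3
import Pool.Agent.V1114.Lamp

/-!
# `GL_3(ℤ/4)` has no irreducible representation of dimension `168`
-/

namespace Pool.Agent.V1114.GL3

open Matrix

theorem finite_check : ∀ a b c d e f g h i : ZMod 2,
    a * e * i - a * f * h - b * d * i + b * f * g + c * d * h - c * e * g = 0 →
    (a+1) * (e+1) * (i+1) - (a+1) * f * h - b * d * (i+1) + b * f * g + c * d * h
      - c * (e+1) * g = 0 →
    (∃ w0 w1 w2 p0 p1 p2 : ZMod 2,
    (w0 = 1 ∨ w1 = 1 ∨ w2 = 1) ∧ (p0 = 1 ∨ p1 = 1 ∨ p2 = 1) ∧ (w0*p0 + w1*p1 + w2*p2 = 0) ∧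
    (a*w0+b*w1+c*w2)*p0 = w0*(p0*a+p1*d+p2*g) ∧ (a*w0+b*w1+c*w2)*p1 = w0*(p0*b+p1*e+p2*h) ∧
    (a*w0+b*w1+c*w2)*p2 = w0*(p0*c+p1*f+p2*i) ∧
    (d*w0+e*w1+f*w2)*p0 = w1*(p0*a+p1*d+p2*g) ∧ (d*w0+e*w1+f*w2)*p1 = w1*(p0*b+p1*e+p2*h) ∧
    (d*w0+e*w1+f*w2)*p2 = w1*(p0*c+p1*f+p2*i) ∧
    (g*w0+h*w1+i*w2)*p0 = w2*(p0*a+p1*d+p2*g) ∧ (g*w0+h*w1+i*w2)*p1 = w2*(p0*b+p1*e+p2*h) ∧
    (g*w0+h*w1+i*w2)*p2 = w2*(p0*c+p1*f+p2*i)) := by
  decide +kernel

/-- The unit `1 + N` for `N² = 0`. -/
def tv {k : Type} [Field k] (N : Matrix (Fin 3) (Fin 3) k) (hN : N * N = 0) : GL (Fin 3) k where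
  val := 1 + N
  inv := 1 - N
  val_inv := by
    rw [add_mul, mul_sub, mul_sub, hN]; simp
  inv_val := by
    rw [sub_mul, mul_add, mul_add, hN]; simp

/-- Every matrix over the field with two elements commutes with a nontrivial invertible one. -/
theorem exists_comm (β : Matrix (Fin 3) (Fin 3) (ZMod 2)) :
    ∃ h : GL (Fin 3) (ZMod 2), h ≠ 1 ∧ h.val * β = β * h.val := by
  have htv : ∃ h : GL (Fin 3) (ZMod 2), h ≠ 1 := by
    refine ⟨tv (Matrix.single 0 1 1) (by
      rw [Matrix.single_mul_single_of_ne]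
      decide), ?_⟩
    intro h
    have h0 : (1 + Matrix.single 0 1 1 : Matrix (Fin 3) (Fin 3) (ZMod 2)) = 1 :=
      congrArg Units.val h
    have h1 := congrFun (congrFun h0 0) 1
    have h2 : (1 + Matrix.single 0 1 1 : Matrix (Fin 3) (Fin 3) (ZMod 2)) 0 1 = 1 := by decide
    have h3 : (1 : Matrix (Fin 3) (Fin 3) (ZMod 2)) 0 1 = 0 := by decide
    have h4 : (1 : ZMod 2) = 0 := by
      rw [← h2, ← h3]; exact h1
    exact absurd h4 (by decide)
  by_cases hb0 : β = 0
  · obtain ⟨h, hh⟩ := htv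
    exact ⟨h, hh, by rw [hb0, mul_zero, zero_mul]⟩
  by_cases hb1 : β = 1
  · obtain ⟨h, hh⟩ := htv
    exact ⟨h, hh, by rw [hb1, mul_one, one_mul]⟩
  by_cases hd : β.det = 0
  swap
  · refine ⟨Matrix.GeneralLinearGroup.mkOfDetNeZero β hd, ?_, rfl⟩
    intro h
    exact hb1 (congrArg Units.val h)
  by_cases hd1 : (β + 1).det = 0
  swap
  · refine ⟨Matrix.GeneralLinearGroup.mkOfDetNeZero (β + 1) hd1, ?_, ?_⟩
    · intro h
      have : β + 1 = 1 := congrArg Units.val h
      exact hb0 (by simpa using this)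
    · show (β + 1) * β = β * (β + 1)
      rw [add_mul, mul_add, one_mul, mul_one]
  rw [Matrix.det_fin_three] at hd hd1
  have e00 : (β + 1) 0 0 = β 0 0 + 1 := rfl
  have e11 : (β + 1) 1 1 = β 1 1 + 1 := rfl
  have e22 : (β + 1) 2 2 = β 2 2 + 1 := rfl
  have e01 : (β + 1) 0 1 = β 0 1 := add_zero _
  have e02 : (β + 1) 0 2 = β 0 2 := add_zero _
  have e10 : (β + 1) 1 0 = β 1 0 := add_zero _
  have e12 : (β + 1) 1 2 = β 1 2 := add_zero _
  have e20 : (β + 1) 2 0 = β 2 0 := add_zero _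
  have e21 : (β + 1) 2 1 = β 2 1 := add_zero _
  rw [e00, e11, e22, e01, e02, e10, e12, e20, e21] at hd1
  obtain ⟨w0, w1, w2, p0, p1, p2, hw, hpp, horth, h1, h2, h3, h4, h5, h6, h7, h8, h9⟩ :=
    finite_check (β 0 0) (β 0 1) (β 0 2) (β 1 0) (β 1 1) (β 1 2) (β 2 0) (β 2 1) (β 2 2) hd hd1
  let N : Matrix (Fin 3) (Fin 3) (ZMod 2) := Matrix.vecMulVec ![w0, w1, w2] ![p0, p1, p2]
  have hNN : N * N = 0 := by
    ext i j
    simp only [N, Matrix.mul_apply, Matrix.vecMulVec_apply, Fin.sum_univ_three, Matrix.zero_apply]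
    have : ∀ x y : ZMod 2, x * p0 * (w0 * y) + x * p1 * (w1 * y) + x * p2 * (w2 * y) = 0 := by
      intro x y
      linear_combination x * y * horth
    exact this _ _
  refine ⟨tv N hNN, ?_, ?_⟩
  · intro h
    have hN0 : N = 0 := by
      have : 1 + N = 1 := congrArg Units.val h
      simpa using this
    have hall : ∀ i j, (![w0, w1, w2] : Fin 3 → ZMod 2) i * (![p0, p1, p2] : Fin 3 → ZMod 2) j
        = 0 := fun i j => congrFun (congrFun hN0 i) j
    have hi : ∃ i, (![w0, w1, w2] : Fin 3 → ZMod 2) i = 1 := by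
      rcases hw with h | h | h
      · exact ⟨0, h⟩
      · exact ⟨1, h⟩
      · exact ⟨2, h⟩
    have hj : ∃ i, (![p0, p1, p2] : Fin 3 → ZMod 2) i = 1 := by
      rcases hpp with h | h | h
      · exact ⟨0, h⟩
      · exact ⟨1, h⟩
      · exact ⟨2, h⟩
    obtain ⟨i, hi⟩ := hi
    obtain ⟨j, hj⟩ := hj
    have := hall i j
    rw [hi, hj] at this
    exact absurd this (by decide)
  · show (1 + N) * β = β * (1 + N)
    rw [add_mul, mul_add, one_mul, mul_one]
    congr 1
    ext i j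
    fin_cases i <;> fin_cases j <;>
      simp only [N, Matrix.mul_apply, Matrix.vecMulVec_apply, Fin.sum_univ_three] <;> simp
    · linear_combination -h1
    · linear_combination -h2
    · linear_combination -h3
    · linear_combination -h4
    · linear_combination -h5
    · linear_combination -h6
    · linear_combination -h7
    · linear_combination -h8
    · linear_combination -h9

variable (p : ℕ) [hp : Fact p.Prime]

lemma kx_mul (x y : Matrix (Fin 3) (Fin 3) (A p)) : kx p x * kx p y = kx p (x + y) := by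
  apply Units.ext
  show (1 + (p : A p) • x) * (1 + (p : A p) • y) = 1 + (p : A p) • (x + y)
  have h : (p : A p) • x * ((p : A p) • y) = 0 := by
    rw [Matrix.smul_mul, Matrix.mul_smul, smul_smul, p_sq, zero_smul]
  rw [add_mul, mul_add, mul_add, h, one_mul, one_mul, mul_one, add_zero, smul_add]
  abel

lemma kx_zero : kx p 0 = 1 := by
  apply Units.ext
  show 1 + (p : A p) • (0 : Matrix (Fin 3) (Fin 3) (A p)) = 1
  rw [smul_zero, add_zero]

lemma kx_comm (x y : Matrix (Fin 3) (Fin 3) (A p)) : Commute (kx p x) (kx p y) := by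
  show kx p x * kx p y = kx p y * kx p x
  rw [kx_mul, kx_mul, add_comm]

lemma red_kx (x : Matrix (Fin 3) (Fin 3) (A p)) : red p (kx p x) = 1 := by
  apply Units.ext
  ext i j
  show π p ((1 + (p : A p) • x) i j) = (1 : Matrix (Fin 3) (Fin 3) (ZMod p)) i j
  rw [Matrix.add_apply, map_add, Matrix.smul_apply, smul_eq_mul, π_p_mul, add_zero]
  by_cases hij : i = j
  · subst hij; rw [Matrix.one_apply_eq, Matrix.one_apply_eq, map_one]
  · rw [Matrix.one_apply_ne hij, Matrix.one_apply_ne hij, map_zero]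

lemma exists_kx (k : GL (Fin 3) (A p)) (hk : red p k = 1) : ∃ x, k = kx p x := by
  have h : ∀ i j, ∃ y : A p, (k.val - 1) i j = p * y := by
    intro i j
    rw [← π_eq_zero, Matrix.sub_apply, map_sub, ← red_apply, hk]
    by_cases hij : i = j
    · subst hij; rw [Units.val_one, Matrix.one_apply_eq, Matrix.one_apply_eq, map_one, sub_self]
    · rw [Units.val_one, Matrix.one_apply_ne hij, Matrix.one_apply_ne hij, map_zero, sub_self]
  choose x hx using h
  refine ⟨Matrix.of x, ?_⟩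
  apply Units.ext
  have : k.val - 1 = (p : A p) • (Matrix.of x : Matrix (Fin 3) (Fin 3) (A p)) := by
    ext i j
    exact hx i j
  rw [kx_val, ← this]
  abel

lemma conj_kx' (g : GL (Fin 3) (A p)) (x : Matrix (Fin 3) (Fin 3) (A p)) :
    g⁻¹ * kx p x * g = kx p ((g⁻¹ : GL (Fin 3) (A p)).val * x * g.val) := by
  apply Units.ext
  rw [conj_kx, kx_val]

/-! ## The upper bound for `p = 2` -/

/-- Bits as elements of `ZMod 2`. -/
def toZ (b : Bool) : ZMod 2 := if b then 1 else 0

lemma toZ_inj : Function.Injective toZ := by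
  intro a b
  revert a b
  decide

open Pool.Agent.V1114.Lamp in
lemma toZ_add (a b c : Bool) (h : sgn c = sgn a * sgn b) : toZ c = toZ a + toZ b := by
  have h1 : ((1 : ℂ) : ℂ) ≠ -1 := by norm_num
  cases a <;> cases b <;> cases c <;> simp [sgn] at h
  · rfl
  · exact absurd h.symm h1
  · exact absurd h h1
  · rfl
  · exact absurd h h1
  · rfl
  · decide
  · exact absurd h.symm h1

open Pool.Agent.V1114.Lamp in
/-- Irreducible representations of `GL_3(ℤ/4)` have dimension at most `84`. -/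
theorem bound_two {V : Type} [AddCommGroup V] [Module ℂ V] [FiniteDimensional ℂ V]
    [Nontrivial V] (ρ : Representation ℂ (GL (Fin 3) (A 2)) V)
    (hirr : ∀ W : Submodule ℂ V, (∀ g v, v ∈ W → ρ g v ∈ W) → W = ⊥ ∨ W = ⊤) :
    Module.finrank ℂ V ≤ 84 := by
  classical
  have hsq1 : ∀ x : Matrix (Fin 3) (Fin 3) (A 2), kx 2 x * kx 2 x = 1 := by
    intro x
    rw [kx_mul]
    apply Units.ext
    show 1 + ((2 : ℕ) : A 2) • (x + x) = 1
    have : ((2 : ℕ) : A 2) • (x + x) = 0 := by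
      ext i j
      show ((2 : ℕ) : A 2) * (x i j + x i j) = 0
      have h := p_sq 2
      push_cast at h ⊢
      linear_combination x i j * h
    rw [this, add_zero]
  -- a common eigenvector
  obtain ⟨v0, -, hv0, hv0'⟩ := exists_common
    (fun x : Matrix (Fin 3) (Fin 3) (A 2) => ρ (kx 2 x))
    (fun x y v => by
      show ρ (kx 2 x) (ρ (kx 2 y) v) = ρ (kx 2 y) (ρ (kx 2 x) v)
      rw [← Module.End.mul_apply, ← Module.End.mul_apply, ← map_mul, ← map_mul, (kx_comm 2 x y).eq])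
    (fun x v => by
      show ρ (kx 2 x) (ρ (kx 2 x) v) = v
      rw [← Module.End.mul_apply, ← map_mul, hsq1, map_one]
      rfl) _ ⊤ rfl top_ne_bot (fun _ _ _ => Submodule.mem_top)
  choose b hb using hv0'
  -- the additive functional
  let m₀ : Matrix (Fin 3) (Fin 3) (A 2) → ZMod 2 := fun x => toZ (b x)
  have hadd : ∀ x y, m₀ (x + y) = m₀ x + m₀ y := by
    intro x y
    have h1 : sgn (b (x + y)) • v0 = (sgn (b x) * sgn (b y)) • v0 := by
      rw [← hb, ← kx_mul, map_mul, Module.End.mul_apply]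
      have := hb y
      rw [this, map_smul, hb x, smul_smul, mul_comm]
    have h2 := smul_left_injective ℂ hv0 h1
    exact toZ_add _ _ _ h2
  let m : Matrix (Fin 3) (Fin 3) (A 2) →+ ZMod 2 := AddMonoidHom.mk' m₀ hadd
  have hsmul : ∀ (c : A 2) x, m (c • x) = π 2 c * m x := by
    intro c x
    have h1 : c • x = c.val • x := by
      conv_lhs => rw [← ZMod.natCast_zmod_val c]
      rw [Nat.cast_smul_eq_nsmul]
    rw [h1, map_nsmul, nsmul_eq_mul]
    congr 1
  let β : Matrix (Fin 3) (Fin 3) (ZMod 2) := Matrix.of fun j i => m (Matrix.single i j 1)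
  have hm : ∀ x : Matrix (Fin 3) (Fin 3) (A 2), m x = (β * (π 2).mapMatrix x).trace := by
    intro x
    conv_lhs => rw [Matrix.matrix_eq_sum_single x]
    rw [map_sum, Matrix.trace]
    simp only [Matrix.diag_apply, Matrix.mul_apply]
    rw [Finset.sum_comm]
    apply Finset.sum_congr rfl
    intro i _
    rw [map_sum]
    apply Finset.sum_congr rfl
    intro j _
    have : Matrix.single i j (x i j) = x i j • Matrix.single i j (1 : A 2) := by
      rw [Matrix.smul_single, smul_eq_mul, mul_one]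
    rw [this, hsmul, mul_comm]
    rfl
  -- a commuting element
  obtain ⟨hbar, hne, hcomm⟩ := exists_comm β
  obtain ⟨h, hh⟩ := red_surj 2 hbar
  have hval : (π 2).mapMatrix h.val = hbar.val := by rw [← hh]; rfl
  have hinv : (π 2).mapMatrix (h⁻¹ : GL (Fin 3) (A 2)).val = (hbar⁻¹ : GL (Fin 3) (ZMod 2)).val := by
    rw [← hh, ← map_inv]; rfl
  have hbconj : ∀ x : Matrix (Fin 3) (Fin 3) (A 2),
      b ((h⁻¹ : GL (Fin 3) (A 2)).val * x * h.val) = b x := by
    intro x
    apply toZ_inj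
    show m _ = m x
    rw [hm, hm, map_mul, map_mul, hval, hinv]
    rw [← Matrix.mul_assoc, Matrix.trace_mul_comm, ← Matrix.mul_assoc, ← Matrix.mul_assoc, hcomm,
      Matrix.mul_assoc β, Units.mul_inv, mul_one]
  -- the eigenspace
  let W : Submodule ℂ V :=
    { carrier := {v | ∀ x, ρ (kx 2 x) v = sgn (b x) • v}
      zero_mem' := by intro x; simp
      add_mem' := by
        intro v w hv hw x
        rw [map_add, hv x, hw x, smul_add]
      smul_mem' := by
        intro c v hv x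
        rw [map_smul, hv x, smul_comm] }
  have hWinv : ∀ v ∈ W, ρ h v ∈ W := by
    intro v hv x
    have h1 : kx 2 x * h = h * kx 2 ((h⁻¹ : GL (Fin 3) (A 2)).val * x * h.val) := by
      rw [← conj_kx']
      group
    rw [← Module.End.mul_apply, ← map_mul, h1, map_mul, Module.End.mul_apply, hv _, hbconj,
      map_smul]
  have : Nontrivial W := ⟨⟨⟨v0, hb⟩, 0, fun hcon => hv0 (congrArg Subtype.val hcon)⟩⟩
  obtain ⟨μ, hμ⟩ := Module.End.exists_eigenvalue ((ρ h).restrict hWinv)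
  obtain ⟨w, hw⟩ := hμ.exists_hasEigenvector
  have hw0 : (w : V) ≠ 0 := fun hcon => hw.2 (Subtype.ext hcon)
  have hwh : ρ h (w : V) = μ • (w : V) := congrArg Subtype.val hw.apply_eq_smul
  let L : Subgroup (GL (Fin 3) (A 2)) :=
    { carrier := {g | ∃ c : ℂ, ρ g (w : V) = c • (w : V)}
      one_mem' := ⟨1, by rw [map_one, one_smul]; rfl⟩
      mul_mem' := by
        rintro g g' ⟨c, hc⟩ ⟨c', hc'⟩
        exact ⟨c' * c, by rw [map_mul, Module.End.mul_apply, hc', map_smul, hc, smul_smul]⟩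
      inv_mem' := by
        rintro g ⟨c, hc⟩
        have h1 : ρ g⁻¹ (ρ g (w : V)) = w := by
          rw [← Module.End.mul_apply, ← map_mul, inv_mul_cancel, map_one]; rfl
        rw [hc, map_smul] at h1
        have hc0 : c ≠ 0 := by
          intro h0
          rw [h0, zero_smul] at h1
          exact hw0 h1.symm
        refine ⟨c⁻¹, ?_⟩
        rw [← h1, smul_smul, inv_mul_cancel₀ hc0, one_smul, h1] }
  have hle := Pool.Agent.V1114.IndRep.finrank_le ρ hirr (w : V) hw0 L (fun g hg => hg)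
  have hKL : (red 2).ker ≤ L := by
    intro k hk
    obtain ⟨x, rfl⟩ := exists_kx 2 k hk
    exact ⟨sgn (b x), w.2 x⟩
  have hnot : ¬ L ≤ (red 2).ker := by
    intro hcon
    have h1 : h ∈ (red 2).ker := hcon ⟨μ, hwh⟩
    rw [MonoidHom.mem_ker, hh] at h1
    exact hne h1
  have h1 := Subgroup.relIndex_mul_index hKL
  have h2 : (red 2).ker.index = 168 := by
    rw [Subgroup.index_ker, MonoidHom.range_eq_top.mpr (red_surj 2), Subgroup.card_top, card_GL3,
      ZMod.card]
    rfl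
  rw [h2] at h1
  have h3 : (red 2).ker.relIndex L ≠ 1 := fun hcon => hnot (Subgroup.relIndex_eq_one.mp hcon)
  have h4 : (red 2).ker.relIndex L ≠ 0 := by
    intro h0
    rw [h0, zero_mul] at h1
    exact absurd h1 (by norm_num)
  have h5 : 2 ≤ (red 2).ker.relIndex L := by omega
  have h6 : 2 * L.index ≤ 168 := by
    rw [← h1]
    exact Nat.mul_le_mul_right _ h5
  omega

end Pool.Agent.V1114.GL3
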