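import Pool.Agent.W172.WL.Defs

set_option autoImplicit false

open Set MeasureTheory
open scoped ENNReal NNReal

namespace Pool.Agent.V1114.WeierLevel

open Pool.Agent.W172.WL

/-! ### the series -/

/-- `∑ q^k g(b^k x)` -/
noncomputable def Wq (q : ℝ) (b : ℕ) (g : ℝ → ℝ) (x : ℝ) : ℝ :=
  ∑' k : ℕ, q ^ k * g ((b : ℝ) ^ k * x)

section series

variable {q : ℝ} {b : ℕ} {g : ℝ → ℝ} {A : ℝ}

theorem summ (hq0 : 0 ≤ q) (hq1 : q < 1) (hA : ∀ x, |g x| ≤ A) (x : ℝ) :
    Summable (fun k : ℕ => q ^ k * g ((b : ℝ) ^ k * x)) := by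
  refine Summable.of_norm_bounded (g := fun k => A * q ^ k)
    ((summable_geometric_of_lt_one hq0 hq1).mul_left A) ?_
  intro k
  rw [Real.norm_eq_abs, abs_mul, abs_pow, abs_of_nonneg hq0, mul_comm]
  exact mul_le_mul_of_nonneg_right (hA _) (pow_nonneg hq0 k)

theorem Wq_eq (hq0 : 0 ≤ q) (hq1 : q < 1) (hA : ∀ x, |g x| ≤ A) (x : ℝ) :
    Wq q b g x = g x + q * Wq q b g (b * x) := by
  unfold Wq
  rw [(summ (b := b) hq0 hq1 hA x).tsum_eq_zero_add, ← tsum_mul_left]
  simp only [pow_zero, one_mul]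
  congr 1
  refine tsum_congr fun k => ?_
  rw [pow_succ, pow_succ]
  ring_nf

theorem Wq_bd (hq0 : 0 ≤ q) (hq1 : q < 1) (hA : ∀ x, |g x| ≤ A) (x : ℝ) :
    |Wq q b g x| ≤ A / (1 - q) := by
  have h := tsum_of_norm_bounded (f := fun k : ℕ => q ^ k * g ((b : ℝ) ^ k * x))
    (g := fun k => A * q ^ k) (a := A * (1 - q)⁻¹)
    ((hasSum_geometric_of_lt_one hq0 hq1).mul_left A) (by
      intro k
      rw [Real.norm_eq_abs, abs_mul, abs_pow, abs_of_nonneg hq0, mul_comm]
      exact mul_le_mul_of_nonneg_right (hA _) (pow_nonneg hq0 k))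
  rw [div_eq_mul_inv]
  exact h

theorem per_int {g : ℝ → ℝ} (h : ∀ x, g (x + 1) = g x) (x : ℝ) (m : ℤ) : g (x + m) = g x := by
  have : Function.Periodic g 1 := h
  have h2 := this.int_mul m x
  simpa using h2

theorem Wq_per (h : ∀ x, g (x + 1) = g x) (x : ℝ) (m : ℤ) :
    Wq q b g (x + m) = Wq q b g x := by
  unfold Wq
  refine tsum_congr fun k => ?_
  have : (b : ℝ) ^ k * (x + m) = (b : ℝ) ^ k * x + (((b : ℤ) ^ k * m : ℤ) : ℝ) := by
    push_cast; ring
  rw [this, per_int h]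

theorem Wq_cont (hq0 : 0 ≤ q) (hq1 : q < 1) (hA : ∀ x, |g x| ≤ A) (hg : Continuous g) :
    Continuous (Wq q b g) := by
  unfold Wq
  refine continuous_tsum (u := fun k => A * q ^ k) ?_
    ((summable_geometric_of_lt_one hq0 hq1).mul_left A) ?_
  · intro k
    exact continuous_const.mul (hg.comp (continuous_const.mul continuous_id))
  · intro k x
    rw [Real.norm_eq_abs, abs_mul, abs_pow, abs_of_nonneg hq0, mul_comm]
    exact mul_le_mul_of_nonneg_right (hA _) (pow_nonneg hq0 k)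

/-- half-period shift -/
noncomputable def sh (g : ℝ → ℝ) (x : ℝ) : ℝ := -g (x + 1 / 2)

/-- reflection -/
noncomputable def rf (g : ℝ → ℝ) (x : ℝ) : ℝ := -g (-x)

theorem Wq_sh (hb : Odd b) (h : ∀ x, g (x + 1) = g x) (x : ℝ) :
    Wq q b (sh g) x = -Wq q b g (x + 1 / 2) := by
  unfold Wq sh
  rw [← tsum_neg]
  refine tsum_congr fun k => ?_
  obtain ⟨m, hm⟩ := hb.pow (n := k)
  have hm' : (b : ℝ) ^ k = 2 * m + 1 := by exact_mod_cast hm
  have : (b : ℝ) ^ k * (x + 1 / 2) = (b : ℝ) ^ k * x + 1 / 2 + ((m : ℤ) : ℝ) := by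
    rw [mul_add]
    nth_rewrite 2 [hm']
    push_cast; ring
  rw [this, per_int h]
  ring

theorem Wq_rf (x : ℝ) : Wq q b (rf g) x = -Wq q b g (-x) := by
  unfold Wq rf
  rw [← tsum_neg]
  refine tsum_congr fun k => ?_
  rw [mul_neg, mul_neg]

end series

/-! ### the staircase -/

/-- clamp to `[-1,1]` -/
noncomputable def cl (x : ℝ) : ℝ := max (-1) (min 1 x)

/-- ramp -/
noncomputable def c01 (L u : ℝ) : ℝ := max 0 (min 1 (1 / 2 + L * (u - 1 / 2)))

/-- staircase with flat steps around the integers -/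
noncomputable def psi (L z : ℝ) : ℝ := ⌊z⌋ + c01 L (Int.fract z)

/-- triangle wave -/
noncomputable def tw (x : ℝ) : ℝ := ‖((x + 1 / 4 : ℝ) : UnitAddCircle)‖ - 1 / 4

/-- the base function -/
noncomputable def G (q : ℝ) (b : ℕ) (x : ℝ) : ℝ := cl (-2 * q * psi (q * b) (b * tw x))

theorem cl_le (x : ℝ) : cl x ≤ 1 := max_le (by norm_num) (min_le_left _ _)
theorem le_cl (x : ℝ) : -1 ≤ cl x := le_max_left _ _
theorem cl_abs (x : ℝ) : |cl x| ≤ 1 := abs_le.mpr ⟨le_cl x, cl_le x⟩

theorem cl_neg (x : ℝ) : cl (-x) = -cl x := by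
  unfold cl
  rcases le_total x (-1) with h | h
  · rw [min_eq_left (by linarith), min_eq_right (by linarith), max_eq_right (by norm_num),
      max_eq_left h]
    norm_num
  · rcases le_total x 1 with h2 | h2
    · rw [min_eq_right (by linarith), min_eq_right h2, max_eq_right (by linarith),
        max_eq_right h]
    · rw [min_eq_right (by linarith), min_eq_left h2, max_eq_left (by linarith),
        max_eq_right (by norm_num)]

theorem cl_mono {x y : ℝ} (h : x ≤ y) : cl x ≤ cl y :=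
  max_le_max le_rfl (min_le_min le_rfl h)

theorem cl_add_le (x : ℝ) {q : ℝ} (hq : 0 ≤ q) : cl (x + q) ≤ cl x + q := by
  unfold cl
  refine max_le ?_ ?_
  · have := le_max_left (-1 : ℝ) (min 1 x)
    linarith
  · have h1 := le_max_right (-1 : ℝ) (min 1 x)
    rcases le_total x 1 with h | h
    · rw [min_eq_right h] at h1
      exact (min_le_right _ _).trans (by rw [min_eq_right h]; linarith)
    · rw [min_eq_left h] at h1
      exact (min_le_left _ _).trans (by rw [min_eq_left h]; linarith)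

theorem cl_lip (x y : ℝ) : |cl x - cl y| ≤ |x - y| := by
  rw [abs_le]
  have h1 : cl x ≤ cl y + |x - y| := by
    refine le_trans (cl_mono ?_) (cl_add_le y (abs_nonneg (x - y)))
    have := le_abs_self (x - y)
    linarith
  have h2 : cl y ≤ cl x + |x - y| := by
    refine le_trans (cl_mono ?_) (cl_add_le x (abs_nonneg (x - y)))
    have := neg_abs_le (x - y)
    linarith
  constructor <;> linarith

theorem cl_id {x : ℝ} (h : |x| ≤ 1) : cl x = x := by
  obtain ⟨h1, h2⟩ := abs_le.mp h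
  unfold cl
  rw [min_eq_right h2, max_eq_right h1]

theorem cl_le_max (x : ℝ) : cl x ≤ max (-1) x := max_le_max le_rfl (min_le_right _ _)

theorem c01_nonneg (L u : ℝ) : 0 ≤ c01 L u := le_max_left _ _
theorem c01_le (L u : ℝ) : c01 L u ≤ 1 := max_le (by norm_num) (min_le_left _ _)

theorem c01_eq_cl (L u : ℝ) : 2 * c01 L u = 1 + cl (2 * L * (u - 1 / 2)) := by
  unfold c01 cl
  rcases le_total (L * (u - 1 / 2)) (-1/2) with h | h
  · rw [min_eq_right (by linarith), min_eq_right (by linarith), max_eq_left (by linarith),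
      max_eq_left (by linarith)]
    norm_num
  · rcases le_total (L * (u - 1 / 2)) (1/2) with h2 | h2
    · rw [min_eq_right (by linarith), min_eq_right (by linarith), max_eq_right (by linarith),
        max_eq_right (by linarith)]
      ring
    · rw [min_eq_left (by linarith), min_eq_left (by linarith), max_eq_right (by linarith),
        max_eq_right (by linarith)]
      norm_num

theorem c01_symm (L u : ℝ) : c01 L (1 - u) = 1 - c01 L u := by
  have h1 := c01_eq_cl L (1 - u)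
  have h2 := c01_eq_cl L u
  have h3 : 2 * L * (1 - u - 1 / 2) = -(2 * L * (u - 1 / 2)) := by ring
  rw [h3, cl_neg] at h1
  linarith

theorem c01_zero {L : ℝ} (hL : 1 ≤ L) : c01 L 0 = 0 := by
  unfold c01
  exact max_eq_left ((min_le_right _ _).trans (by nlinarith))

theorem c01_lip {L : ℝ} (hL : 0 ≤ L) (u v : ℝ) : |c01 L u - c01 L v| ≤ L * |u - v| := by
  have h1 := c01_eq_cl L u
  have h2 := c01_eq_cl L v
  have h3 := cl_lip (2 * L * (u - 1 / 2)) (2 * L * (v - 1 / 2))
  have h4 : 2 * L * (u - 1 / 2) - 2 * L * (v - 1 / 2) = 2 * (L * (u - v)) := by ring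
  rw [h4, abs_mul, abs_mul, abs_of_nonneg hL, abs_two] at h3
  have h5 : c01 L u - c01 L v = (cl (2 * L * (u - 1 / 2)) - cl (2 * L * (v - 1 / 2))) / 2 := by
    linarith
  rw [h5, abs_div, abs_two]
  linarith

theorem c01_le_mul {L u : ℝ} (hL : 1 ≤ L) (hu : 0 ≤ u) : c01 L u ≤ L * u := by
  have h := c01_lip (L := L) (by linarith) u 0
  rw [c01_zero hL, sub_zero, sub_zero, abs_of_nonneg hu, abs_of_nonneg (c01_nonneg L u)] at h
  exact h

theorem one_sub_c01_le {L u : ℝ} (hL : 1 ≤ L) (hu : u ≤ 1) : 1 - c01 L u ≤ L * (1 - u) := by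
  rw [← c01_symm]
  exact c01_le_mul hL (by linarith)

theorem psi_add_int (L z : ℝ) (n : ℤ) : psi L (z + n) = psi L z + n := by
  unfold psi
  rw [Int.floor_add_intCast, Int.fract_add_intCast]
  push_cast
  ring

theorem psi_of_mem {L v : ℝ} (h0 : 0 ≤ v) (h1 : v < 1) : psi L v = c01 L v := by
  unfold psi
  have : ⌊v⌋ = 0 := by rw [Int.floor_eq_zero_iff]; exact ⟨h0, h1⟩
  rw [this, Int.fract_eq_self.mpr ⟨h0, h1⟩]
  simp

theorem psi_int {L : ℝ} (hL : 1 ≤ L) (n : ℤ) : psi L n = n := by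
  have := psi_add_int L 0 n
  rw [psi_of_mem le_rfl one_pos, c01_zero hL] at this
  simpa using this

theorem psi_abs_sub {L : ℝ} (hL : 1 ≤ L) (z : ℝ) : |psi L z - z| ≤ 1 / 2 := by
  have h0 := Int.fract_nonneg z
  have h1 := Int.fract_lt_one z
  have e : psi L z - z = c01 L (Int.fract z) - Int.fract z := by
    unfold psi
    have := Int.floor_add_fract z
    linarith
  rw [e]
  set u := Int.fract z
  have hn := c01_nonneg L u
  have hl := c01_le L u
  rw [abs_le]
  rcases le_total u (1 / 2) with h | h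
  · have hc : c01 L u ≤ u := by
      unfold c01
      refine max_le h0 ((min_le_right _ _).trans ?_)
      nlinarith
    constructor <;> linarith
  · have hc : u ≤ c01 L u := by
      unfold c01
      refine le_trans ?_ (le_max_right _ _)
      refine le_min h1.le ?_
      nlinarith
    constructor <;> linarith

theorem psi_neg {L : ℝ} (hL : 1 ≤ L) (z : ℝ) : psi L (-z) = -psi L z := by
  have h0 := Int.fract_nonneg z
  have h1 := Int.fract_lt_one z
  have hz := Int.floor_add_fract z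
  rcases eq_or_lt_of_le h0 with h | h
  · have : z = (⌊z⌋ : ℝ) := by linarith
    rw [this, psi_int hL]
    have h2 := psi_int hL (-⌊z⌋)
    push_cast at h2
    rw [h2]
  · have e : -z = (1 - Int.fract z) + ((-⌊z⌋ - 1 : ℤ) : ℝ) := by
      push_cast; linarith
    rw [e, psi_add_int, psi_of_mem (by linarith) (by linarith), c01_symm]
    unfold psi
    push_cast
    ring

theorem psi_lip {L : ℝ} (hL : 1 ≤ L) (x y : ℝ) : |psi L x - psi L y| ≤ L * |x - y| := by
  wlog hxy : x ≤ y generalizing x y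
  · rw [abs_sub_comm, abs_sub_comm x y]
    exact this y x (le_of_not_ge hxy)
  have hx0 := Int.fract_nonneg x
  have hx1 := Int.fract_lt_one x
  have hy0 := Int.fract_nonneg y
  have hy1 := Int.fract_lt_one y
  have hx := Int.floor_add_fract x
  have hy := Int.floor_add_fract y
  have hmn : ⌊x⌋ ≤ ⌊y⌋ := Int.floor_mono hxy
  rcases eq_or_lt_of_le hmn with h | h
  · have e1 : psi L x - psi L y = c01 L (Int.fract x) - c01 L (Int.fract y) := by
      unfold psi; rw [h]; ring
    have e2 : x - y = Int.fract x - Int.fract y := by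
      have : (⌊x⌋ : ℝ) = ⌊y⌋ := by exact_mod_cast h
      linarith
    rw [e1, e2]
    exact c01_lip (by linarith) _ _
  · have h' : (⌊x⌋ : ℝ) + 1 ≤ ⌊y⌋ := by exact_mod_cast h
    have a1 := c01_le_mul hL hy0
    have a2 := one_sub_c01_le hL hx1.le
    have a3 := c01_nonneg L (Int.fract y)
    have a4 := c01_le L (Int.fract x)
    have e : psi L y - psi L x = ((⌊y⌋ : ℝ) - ⌊x⌋ - 1) + c01 L (Int.fract y) +
        (1 - c01 L (Int.fract x)) := by unfold psi; ring
    rw [abs_sub_comm, abs_sub_comm x y, abs_of_nonneg (by rw [e]; linarith),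
      abs_of_nonneg (by linarith), e]
    have a5 : (⌊y⌋ : ℝ) - ⌊x⌋ - 1 ≤ L * ((⌊y⌋ : ℝ) - ⌊x⌋ - 1) := by
      nlinarith
    have a6 : y - x = ((⌊y⌋ : ℝ) - ⌊x⌋ - 1) + Int.fract y + (1 - Int.fract x) := by linarith
    rw [a6]
    nlinarith

theorem psi_near {L z : ℝ} (hL : 2 ≤ L) {n : ℤ} (h : |z - n| ≤ 1 / 4) : psi L z = n := by
  obtain ⟨h1, h2⟩ := abs_le.mp h
  have e : psi L z = psi L (z - n) + n := by
    rw [← psi_add_int]; congr 1; ring
  rw [e]
  have key : ∀ v : ℝ, 0 ≤ v → v ≤ 1 / 4 → psi L v = 0 := by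
    intro v hv0 hv1
    rw [psi_of_mem hv0 (by linarith)]
    unfold c01
    exact max_eq_left ((min_le_right _ _).trans (by nlinarith))
  rcases le_total 0 (z - n) with h0 | h0
  · rw [key _ h0 h2, zero_add]
  · have := key (-(z - n)) (by linarith) (by linarith)
    rw [psi_neg (by linarith)] at this
    linarith

theorem fract_half (y : ℝ) : min (Int.fract (y + 1 / 2)) (1 - Int.fract (y + 1 / 2)) =
    1 / 2 - min (Int.fract y) (1 - Int.fract y) := by
  have h0 := Int.fract_nonneg y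
  have h1 := Int.fract_lt_one y
  have hy := Int.floor_add_fract y
  rcases lt_or_ge (Int.fract y) (1 / 2) with h | h
  · have e : Int.fract (y + 1 / 2) = Int.fract y + 1 / 2 := by
      rw [Int.fract_eq_iff]
      refine ⟨by linarith, by linarith, ⌊y⌋, by linarith⟩
    rw [e, min_eq_right (by linarith), min_eq_left (by linarith)]
    ring
  · have e : Int.fract (y + 1 / 2) = Int.fract y - 1 / 2 := by
      rw [Int.fract_eq_iff]
      refine ⟨by linarith, by linarith, ⌊y⌋ + 1, by push_cast; linarith⟩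
    rw [e, min_eq_left (by linarith), min_eq_right (by linarith)]
    ring

theorem tw_eq (x : ℝ) : tw x = min (Int.fract (x + 1 / 4)) (1 - Int.fract (x + 1 / 4)) - 1 / 4 := by
  unfold tw
  rw [UnitAddCircle.norm_eq, abs_sub_round_eq_min]

theorem tw_half (x : ℝ) : tw (x + 1 / 2) = -tw x := by
  rw [tw_eq, tw_eq]
  have e : x + 1 / 2 + 1 / 4 = x + 1 / 4 + 1 / 2 := by ring
  rw [e, fract_half]
  ring

theorem tw_per (x : ℝ) : tw (x + 1) = tw x := by
  have e : x + 1 = x + 1 / 2 + 1 / 2 := by ring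
  rw [e, tw_half, tw_half, neg_neg]

theorem tw_neg (x : ℝ) : tw (-x) = -tw x := by
  rw [← tw_half]
  unfold tw
  rw [← norm_neg, ← AddCircle.coe_neg]
  have e : x + 1 / 2 + 1 / 4 = -(-x + 1 / 4) + 1 := by ring
  rw [e]
  have : ((-(-x + 1 / 4) + 1 : ℝ) : UnitAddCircle) = ((-(-x + 1 / 4) : ℝ) : UnitAddCircle) :=
    AddCircle.coe_add_period 1 _
  rw [this]

theorem tw_id {x : ℝ} (h : |x| ≤ 1 / 4) : tw x = x := by
  obtain ⟨h1, h2⟩ := abs_le.mp h
  rw [tw_eq, Int.fract_eq_self.mpr ⟨by linarith, by linarith⟩, min_eq_left (by linarith)]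
  ring

theorem tw_lip (x y : ℝ) : |tw x - tw y| ≤ |x - y| := by
  unfold tw
  have e : ‖((x + 1 / 4 : ℝ) : UnitAddCircle)‖ - 1 / 4 - (‖((y + 1 / 4 : ℝ) : UnitAddCircle)‖ - 1 / 4) =
    ‖((x + 1 / 4 : ℝ) : UnitAddCircle)‖ - ‖((y + 1 / 4 : ℝ) : UnitAddCircle)‖ := by ring
  rw [e]
  refine (abs_norm_sub_norm_le _ _).trans ?_
  rw [← AddCircle.coe_sub, UnitAddCircle.norm_eq]
  have := round_le (x + 1 / 4 - (y + 1 / 4)) 0
  rw [Int.cast_zero, sub_zero] at this
  refine this.trans (le_of_eq ?_)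
  congr 1
  ring

/-! ### the base function -/

section base

variable {q : ℝ} {b : ℕ}

/-- standing hypotheses -/
structure Par (q : ℝ) (b : ℕ) : Prop where
  q0 : 0 < q
  q1 : q ≤ 1 / 20
  qb : 2 ≤ q * b

theorem Par.b0 (h : Par q b) : (40 : ℝ) ≤ b := by
  have h1 := h.q0
  have h2 := h.q1
  have h3 := h.qb
  by_contra hc
  push Not at hc
  nlinarith

theorem G_abs (x : ℝ) : |G q b x| ≤ 1 := cl_abs _

theorem G_per (x : ℝ) : G q b (x + 1) = G q b x := by
  unfold G; rw [tw_per]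

theorem G_half (h : Par q b) (x : ℝ) : G q b (x + 1 / 2) = -G q b x := by
  unfold G
  rw [tw_half, mul_neg, psi_neg (by linarith [h.qb]), mul_neg, cl_neg]

theorem G_neg (h : Par q b) (x : ℝ) : G q b (-x) = -G q b x := by
  unfold G
  rw [tw_neg, mul_neg, psi_neg (by linarith [h.qb]), mul_neg, cl_neg]

theorem G_lip (h : Par q b) (x y : ℝ) :
    |G q b x - G q b y| ≤ 2 * q * (q * b) * b * |x - y| := by
  unfold G
  refine (cl_lip _ _).trans ?_
  have e : -2 * q * psi (q * b) (b * tw x) - -2 * q * psi (q * b) (b * tw y) =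
    -(2 * q * (psi (q * b) (b * tw x) - psi (q * b) (b * tw y))) := by ring
  rw [e, abs_neg, abs_mul, abs_of_pos (by linarith [h.q0] : (0:ℝ) < 2 * q)]
  have h1 := psi_lip (L := q * b) (by linarith [h.qb]) (b * tw x) (b * tw y)
  have e2 : (b : ℝ) * tw x - b * tw y = b * (tw x - tw y) := by ring
  rw [e2, abs_mul, abs_of_pos (by linarith [h.b0] : (0:ℝ) < b)] at h1
  have h2 := tw_lip x y
  have hb : (0:ℝ) < b := by linarith [h.b0]
  have hq := h.q0
  have hqb : 0 < q * b := mul_pos hq hb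
  calc 2 * q * |psi (q * b) (b * tw x) - psi (q * b) (b * tw y)|
      ≤ 2 * q * (q * b * (b * |tw x - tw y|)) := by gcongr
    _ ≤ 2 * q * (q * b * (b * |x - y|)) := by gcongr
    _ = _ := by ring

theorem G_near (h : Par q b) {x : ℝ} (hx : |x| ≤ 1 / 4) {n : ℤ} (hn : |b * x - n| ≤ 1 / 4)
    (hn2 : 2 * q * |(n : ℝ)| ≤ 1) : G q b x = -2 * q * n := by
  unfold G
  rw [tw_id hx, psi_near h.qb hn]
  apply cl_id
  rw [abs_mul, abs_mul, abs_neg, abs_two, abs_of_pos h.q0]
  exact hn2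

theorem f_shift (z : ℝ) (m : ℤ) : -2 * psi (q * b) (z + m) + G q b (z + m) =
    -2 * psi (q * b) z + G q b z - 2 * m := by
  rw [psi_add_int, per_int (g := G q b) G_per]
  ring

theorem f_upper0 (h : Par q b) {v : ℝ} (h1 : 1 / 4 ≤ v) (h2 : v < 5 / 4) :
    -2 * psi (q * b) v + G q b v ≤ -1 + q := by
  have hq := h.q0
  have hL := h.qb
  rcases lt_or_ge v (3 / 4) with h3 | h3
  · rw [psi_of_mem (by linarith) (by linarith)]
    have hc := c01_eq_cl (q * b) v
    have hG : G q b v ≤ cl (2 * (q * b) * (v - 1 / 2)) + q := by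
      refine le_trans ?_ (cl_add_le _ hq.le)
      unfold G
      apply cl_mono
      have e : v = (v - 1 / 2) + 1 / 2 := by ring
      have e2 : tw v = -(v - 1 / 2) := by
        nth_rewrite 1 [e]
        rw [tw_half, tw_id (abs_le.mpr ⟨by linarith, by linarith⟩)]
      rw [e2]
      have hp := (abs_le.mp (psi_abs_sub (L := q * b) (by linarith) (b * -(v - 1 / 2)))).1
      nlinarith
    linarith
  · have h5 := (G_abs (q := q) (b := b) v)
    have h6 := (abs_le.mp h5).2
    have h7 : 1 ≤ psi (q * b) v := by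
      rcases lt_or_ge v 1 with h8 | h8
      · rw [psi_of_mem (by linarith) h8]
        unfold c01
        refine le_trans ?_ (le_max_right _ _)
        refine le_min le_rfl ?_
        nlinarith
      · have e : v = (v - 1) + ((1 : ℤ) : ℝ) := by push_cast; ring
        rw [e, psi_add_int, psi_of_mem (by linarith) (by linarith)]
        have := c01_nonneg (q * b) (v - 1)
        push_cast
        linarith
    linarith

theorem f_upper (h : Par q b) {z : ℝ} {n : ℤ} (hz : n + 1 / 4 ≤ z) :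
    -2 * psi (q * b) z + G q b z ≤ -2 * n - 1 + q := by
  set m := ⌊z - 1 / 4⌋ with hm
  have h0 := Int.floor_le (z - 1 / 4)
  have h1 := Int.lt_floor_add_one (z - 1 / 4)
  rw [← hm] at h0 h1
  have hmn : n ≤ m := by
    rw [hm, Int.le_floor]; linarith
  have hmn' : (n : ℝ) ≤ m := by exact_mod_cast hmn
  have e : z = (z - m) + m := by ring
  rw [e, f_shift]
  have := f_upper0 h (v := z - m) (by linarith) (by linarith)
  linarith

/-- the drop: to the right of the step of `n` the two-scale function is low -/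
theorem G2_upper (h : Par q b) {x : ℝ} (hx : |x| ≤ 1 / 4) {n : ℤ} (hz : n + 1 / 4 ≤ b * x) :
    G q b x + q * G q b (b * x) ≤ max (-1 + q) (q * (-2 * n - 1 + q)) := by
  have hq := h.q0
  have h1 : G q b x ≤ max (-1) (-2 * q * psi (q * b) (b * x)) := by
    have : G q b x = cl (-2 * q * psi (q * b) (b * x)) := by
      unfold G; rw [tw_id hx]
    rw [this]
    exact cl_le_max _
  have h2 := f_upper h hz
  have h3 := (abs_le.mp (G_abs (q := q) (b := b) (b * x))).2
  rcases le_max_iff.mp h1 with h4 | h4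
  · exact le_max_of_le_left (by nlinarith)
  · refine le_max_of_le_right ?_
    have := mul_le_mul_of_nonneg_left h2 hq.le
    nlinarith

end base

/-! ### perturbations -/

/-- `g` is a small Lipschitz perturbation of the base function -/
structure Near (q : ℝ) (b : ℕ) (g : ℝ → ℝ) : Prop where
  per : ∀ x, g (x + 1) = g x
  bd : ∀ x, |g x - G q b x| ≤ q / 100
  lip : ∀ x y, |(g x - G q b x) - (g y - G q b y)| ≤ q / 100 * |x - y|

section near

variable {q : ℝ} {b : ℕ} {g : ℝ → ℝ}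

theorem Near.sh (hp : Par q b) (h : Near q b g) : Near q b (sh g) where
  per x := by
    unfold WeierLevel.sh
    rw [show x + 1 + 1 / 2 = (x + 1 / 2) + 1 by ring, h.per]
  bd x := by
    have := h.bd (x + 1 / 2)
    rw [G_half hp] at this
    unfold WeierLevel.sh
    rw [← abs_neg]
    convert this using 2
    ring
  lip x y := by
    have := h.lip (x + 1 / 2) (y + 1 / 2)
    rw [G_half hp, G_half hp] at this
    unfold WeierLevel.sh
    rw [← abs_neg]
    convert this using 2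
    · ring
    · congr 1; ring

theorem Near.rf (hp : Par q b) (h : Near q b g) : Near q b (rf g) where
  per x := by
    unfold WeierLevel.rf
    have := h.per (-(x + 1))
    rw [show -(x + 1) + 1 = -x by ring] at this
    rw [this]
  bd x := by
    have := h.bd (-x)
    rw [G_neg hp] at this
    unfold WeierLevel.rf
    rw [← abs_neg]
    convert this using 2
    ring
  lip x y := by
    have := h.lip (-x) (-y)
    rw [G_neg hp, G_neg hp] at this
    unfold WeierLevel.rf
    rw [← abs_neg]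
    convert this using 2
    · ring
    · rw [← abs_neg]; congr 1; ring

theorem Near.abs_le (h : Near q b g) (x : ℝ) : |g x| ≤ 1 + q / 100 := by
  have h1 := h.bd x
  have h2 := G_abs (q := q) (b := b) x
  have : g x = (g x - G q b x) + G q b x := by ring
  rw [this]
  exact (abs_add_le _ _).trans (by linarith)

theorem Near.cont (hp : Par q b) (h : Near q b g) : Continuous g := by
  have hq := hp.q0
  have hb : (0:ℝ) < b := by linarith [hp.b0]
  have hK : 0 ≤ q / 100 + 2 * q * (q * b) * b := by positivity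
  have : LipschitzWith ⟨q / 100 + 2 * q * (q * b) * b, hK⟩ g := by
    refine LipschitzWith.of_dist_le_mul fun x y => ?_
    rw [Real.dist_eq, Real.dist_eq]
    have h1 := h.lip x y
    have h2 := G_lip hp x y
    have e : g x - g y = ((g x - G q b x) - (g y - G q b y)) + (G q b x - G q b y) := by ring
    rw [e]
    refine (abs_add_le _ _).trans ?_
    show _ ≤ (q / 100 + 2 * q * (q * b) * b) * |x - y|
    linarith
  exact this.continuous

theorem M_le (hp : Par q b) : (1 + q / 100) / (1 - q) ≤ 11 / 10 := by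
  have h1 := hp.q0
  have h2 := hp.q1
  rw [div_le_iff₀ (by linarith)]
  linarith

theorem Near.W_eq (hp : Par q b) (h : Near q b g) (x : ℝ) :
    Wq q b g x = g x + q * Wq q b g (b * x) :=
  Wq_eq hp.q0.le (by linarith [hp.q1]) h.abs_le x

theorem Near.W_bd (hp : Par q b) (h : Near q b g) (x : ℝ) : |Wq q b g x| ≤ 11 / 10 :=
  (Wq_bd hp.q0.le (by linarith [hp.q1]) h.abs_le x).trans (M_le hp)

theorem Near.W_cont (hp : Par q b) (h : Near q b g) : Continuous (Wq q b g) :=
  Wq_cont hp.q0.le (by linarith [hp.q1]) h.abs_le (h.cont hp)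

end near

/-! ### digit expansions -/

/-- admissible digits -/
def Dig (q : ℝ) (n : ℕ → ℤ) : Prop := ∀ k, 2 * q * |(n k : ℝ)| ≤ 3 / 5

/-- the point with digits `n` -/
noncomputable def X (b : ℕ) (n : ℕ → ℤ) : ℝ := ∑' j : ℕ, (n j : ℝ) * ((b : ℝ)⁻¹) ^ (j + 1)

/-- shift of a digit sequence -/
def tl (n : ℕ → ℤ) : ℕ → ℤ := fun k => n (k + 1)

section digits

variable {q : ℝ} {b : ℕ} {n : ℕ → ℤ}

theorem Dig.tl (h : Dig q n) : Dig q (tl n) := fun k => h (k + 1)

theorem Dig.neg (h : Dig q n) : Dig q (fun k => -n k) := fun k => by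
  have := h k
  push_cast
  rwa [abs_neg]

theorem X_dom (hp : Par q b) (h : Dig q n) (j : ℕ) :
    ‖(n j : ℝ) * ((b : ℝ)⁻¹) ^ (j + 1)‖ ≤ (3 / 10 / q * (b : ℝ)⁻¹) * ((b : ℝ)⁻¹) ^ j := by
  have hq := hp.q0
  have hb : (0:ℝ) < b := by linarith [hp.b0]
  have h1 := h j
  have h2 : |(n j : ℝ)| ≤ 3 / 10 / q := by
    rw [le_div_iff₀ hq]; linarith
  rw [Real.norm_eq_abs, abs_mul, abs_of_pos (by positivity : (0:ℝ) < ((b : ℝ)⁻¹) ^ (j + 1)), pow_succ']
  calc |(n j : ℝ)| * ((b : ℝ)⁻¹ * (b : ℝ)⁻¹ ^ j) ≤ 3 / 10 / q * ((b : ℝ)⁻¹ * (b : ℝ)⁻¹ ^ j) := by gcongr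
    _ = _ := by ring

theorem X_summ (hp : Par q b) (h : Dig q n) :
    Summable (fun j : ℕ => (n j : ℝ) * ((b : ℝ)⁻¹) ^ (j + 1)) := by
  have hb : (40:ℝ) ≤ b := hp.b0
  refine Summable.of_norm_bounded (g := fun j => (3 / 10 / q * (b : ℝ)⁻¹) * ((b : ℝ)⁻¹) ^ j)
    ((summable_geometric_of_lt_one (by positivity) ?_).mul_left _) (X_dom hp h)
  rw [inv_lt_one₀ (by linarith)]
  linarith

theorem X_bd (hp : Par q b) (h : Dig q n) : |X b n| ≤ 1 / 6 := by
  have hb : (40:ℝ) ≤ b := hp.b0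
  have hq := hp.q0
  have hq1 := hp.q1
  have hL := hp.qb
  have hlt : (b : ℝ)⁻¹ < 1 := by
    rw [inv_lt_one₀ (by linarith)]
    linarith
  have h1 := tsum_of_norm_bounded
    ((hasSum_geometric_of_lt_one (by positivity) hlt).mul_left (3 / 10 / q * (b : ℝ)⁻¹)) (X_dom hp h)
  refine le_trans h1 ?_
  have e : 3 / 10 / q * (b : ℝ)⁻¹ * (1 - (b : ℝ)⁻¹)⁻¹ = 3 / 10 / (q * b - q) := by
    have : (b : ℝ) ≠ 0 := by linarith
    have h3 : (b : ℝ) - 1 ≠ 0 := by linarith
    have h4 : q * b - q = q * (b - 1) := by ring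
    rw [h4]
    have h5 : 1 - (b : ℝ)⁻¹ = (b - 1) / b := by field_simp
    rw [h5]
    field_simp
  rw [e, div_le_iff₀ (by linarith)]
  linarith

theorem X_rec (hp : Par q b) (h : Dig q n) : b * X b n = n 0 + X b (tl n) := by
  have hb : (40:ℝ) ≤ b := hp.b0
  have hb0 : (b : ℝ) ≠ 0 := by linarith
  unfold X
  rw [(X_summ hp h).tsum_eq_zero_add, mul_add, ← tsum_mul_left]
  congr 1
  · simp; field_simp
  · refine tsum_congr fun j => ?_
    unfold tl
    rw [pow_succ _ (j + 1)]
    field_simp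

theorem X_neg : X b (fun k => -n k) = -X b n := by
  unfold X
  rw [← tsum_neg]
  refine tsum_congr fun j => ?_
  push_cast
  ring

end digits

/-! ### the values near a digit point -/

section drop

variable {q : ℝ} {b : ℕ} {g : ℝ → ℝ}

theorem G_X (hp : Par q b) {n : ℕ → ℤ} (hn : Dig q n) : G q b (X b n) = -2 * q * n 0 := by
  refine G_near hp ((X_bd hp hn).trans (by norm_num)) ?_ ((hn 0).trans (by norm_num))
  rw [X_rec hp hn]
  have := X_bd hp hn.tl
  rw [add_sub_cancel_left]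
  exact this.trans (by norm_num)

theorem drop_base (hp : Par q b) (h : Near q b g) {n : ℕ → ℤ} (hn : Dig q n) {x : ℝ}
    (hx : |x| ≤ 1 / 4) (hx2 : n 0 + 1 / 4 ≤ b * x) :
    q / 5 ≤ Wq q b g (X b n) - Wq q b g x := by
  have hq := hp.q0
  have hq1 := hp.q1
  have hX := X_bd hp hn
  -- lower bound at `X`
  have a1 := h.W_eq hp (X b n)
  have a2 := G_X hp hn
  have a3 := (abs_le.mp (h.bd (X b n))).1
  have a4 : Wq q b g (b * X b n) = Wq q b g (X b (tl n)) := by
    rw [X_rec hp hn, add_comm, Wq_per h.per]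
  have a5 := h.W_eq hp (X b (tl n))
  have a6 := G_X hp hn.tl
  have a7 := (abs_le.mp (h.bd (X b (tl n)))).1
  have a8 := (abs_le.mp (h.W_bd hp (b * X b (tl n)))).1
  have a9 := hn.tl 0
  have a10 := hn 0
  have a11 : (tl n 0 : ℝ) ≤ |(tl n 0 : ℝ)| := le_abs_self _
  have a12 : (n 0 : ℝ) ≤ |(n 0 : ℝ)| := le_abs_self _
  have a13 : 2 * q * (tl n 0 : ℝ) ≤ 3 / 5 := le_trans (by gcongr) a9
  have a14 : 2 * q * (n 0 : ℝ) ≤ 3 / 5 := le_trans (by gcongr) a10
  have a15 : q * (-(11 / 10)) ≤ q * Wq q b g (b * X b (tl n)) := by gcongr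
  have a16 : -(3 / 5) - q / 100 - q * (11 / 10) ≤ Wq q b g (X b (tl n)) := by
    rw [a5]; linarith
  have a17 : q * (-(3 / 5) - q / 100 - q * (11 / 10)) ≤ q * Wq q b g (X b (tl n)) := by gcongr
  have lowX : -2 * q * n 0 - q / 100 + q * (-(3 / 5) - q / 100 - q * (11 / 10)) ≤
      Wq q b g (X b n) := by
    rw [a1, a4]; linarith
  -- upper bound at `x`
  have b1 := h.W_eq hp x
  have b2 := h.W_eq hp (b * x)
  have b3 := (abs_le.mp (h.bd x)).2
  have b4 := (abs_le.mp (h.bd (b * x))).2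
  have b5 := (abs_le.mp (h.W_bd hp (b * (b * x)))).2
  have b6 := G2_upper hp hx hx2
  have b7 : q * Wq q b g (b * (b * x)) ≤ q * (11 / 10) := by gcongr
  have b8 : Wq q b g (b * x) ≤ G q b (b * x) + q / 100 + q * (11 / 10) := by
    rw [b2]; linarith
  have b9 : q * Wq q b g (b * x) ≤ q * (G q b (b * x) + q / 100 + q * (11 / 10)) := by gcongr
  have upx : Wq q b g x ≤ (G q b x + q * G q b (b * x)) + q / 100 + q * (q / 100 + q * (11 / 10)) := by
    rw [b1]; linarith
  have hqq : q * q ≤ q * (1 / 20) := by gcongr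
  rcases le_max_iff.mp b6 with c | c
  · nlinarith
  · nlinarith

theorem drop_aux (hp : Par q b) (h : Near q b g) : ∀ k : ℕ, ∀ n : ℕ → ℤ, Dig q n → ∀ x : ℝ,
    |x| ≤ 1 / 4 → X b n < x → 5 / 12 < (b : ℝ) ^ k * (x - X b n) →
    q / 5 * (x - X b n) ≤ Wq q b g (X b n) - Wq q b g x := by
  intro k
  induction k with
  | zero =>
    intro n hn x hx _ hk
    exfalso
    have h1 := (abs_le.mp (X_bd hp hn)).1
    have h2 := (abs_le.mp hx).2
    rw [pow_zero, one_mul] at hk
    linarith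
  | succ k ih =>
    intro n hn x hx hlt hk
    have hq := hp.q0
    have hL := hp.qb
    have hb : (0:ℝ) < b := by linarith [hp.b0]
    have hX := abs_le.mp (X_bd hp hn)
    have hX1 := abs_le.mp (X_bd hp hn.tl)
    have hx' := abs_le.mp hx
    rcases le_or_gt (n 0 + 1 / 4 : ℝ) (b * x) with hc | hc
    · have := drop_base hp h hn hx hc
      nlinarith
    · have e1 : b * x - n 0 - X b (tl n) = b * (x - X b n) := by
        rw [mul_sub, X_rec hp hn]; ring
      have e2 : 0 < b * (x - X b n) := mul_pos hb (by linarith)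
      have hx1 : |b * x - n 0| ≤ 1 / 4 := abs_le.mpr ⟨by linarith, by linarith⟩
      have i1 := ih (tl n) hn.tl (b * x - n 0) hx1 (by linarith) (by
        rw [e1]
        calc (5 : ℝ) / 12 < (b : ℝ) ^ (k + 1) * (x - X b n) := hk
          _ = (b : ℝ) ^ k * (b * (x - X b n)) := by ring)
      have a1 := h.W_eq hp (X b n)
      have a2 := h.W_eq hp x
      have a4 : Wq q b g (b * X b n) = Wq q b g (X b (tl n)) := by
        rw [X_rec hp hn, add_comm, Wq_per h.per]
      have a5 : Wq q b g (b * x) = Wq q b g (b * x - n 0) := by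
        have := Wq_per (q := q) (b := b) h.per (b * x - n 0) (n 0)
        rw [← this]; congr 1; ring
      have a6 := G_X hp hn
      have a7 := G_near hp hx hx1 ((hn 0).trans (by norm_num))
      have a8 := (abs_le.mp (h.lip (X b n) x)).1
      rw [a6, a7, abs_sub_comm, abs_of_pos (by linarith : 0 < x - X b n)] at a8
      rw [a1, a2, a4, a5]
      rw [e1] at i1
      have i2 := mul_le_mul_of_nonneg_left i1 hq.le
      have i3 : q / 5 * (2 * (x - X b n)) ≤ q / 5 * ((q * b) * (x - X b n)) := by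
        have : 0 ≤ x - X b n := by linarith
        gcongr
      have i4 : q * (q / 5 * (b * (x - X b n))) = q / 5 * ((q * b) * (x - X b n)) := by ring
      rw [i4] at i2
      have i5 : 0 < q * (x - X b n) := mul_pos hq (by linarith)
      nlinarith

theorem drop (hp : Par q b) (h : Near q b g) {n : ℕ → ℤ} (hn : Dig q n) {x : ℝ}
    (hx : |x| ≤ 1 / 4) (hlt : X b n < x) : Wq q b g x < Wq q b g (X b n) := by
  have hb : (1:ℝ) < b := by linarith [hp.b0]
  obtain ⟨k, hk⟩ := pow_unbounded_of_one_lt (5 / 12 / (x - X b n)) hb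
  have hpos : 0 < x - X b n := by linarith
  have := drop_aux hp h k n hn x hx hlt (by rwa [div_lt_iff₀ hpos] at hk)
  have hq := hp.q0
  have : 0 < q / 5 * (x - X b n) := by positivity
  linarith

theorem rise (hp : Par q b) (h : Near q b g) {n : ℕ → ℤ} (hn : Dig q n) {x : ℝ}
    (hx : |x| ≤ 1 / 4) (hlt : x < X b n) : Wq q b g (X b n) < Wq q b g x := by
  have h1 := drop hp (h.rf hp) hn.neg (x := -x) (by rwa [abs_neg]) (by rw [X_neg]; linarith)
  rw [X_neg, Wq_rf, Wq_rf, neg_neg, neg_neg] at h1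
  linarith

theorem uniq (hp : Par q b) (h : Near q b g) {n : ℕ → ℤ} (hn : Dig q n) {x : ℝ}
    (hx : |x| ≤ 1 / 4) (he : Wq q b g x = Wq q b g (X b n)) : x = X b n := by
  rcases lt_trichotomy x (X b n) with h1 | h1 | h1
  · have := rise hp h hn hx h1; linarith
  · exact h1
  · have := drop hp h hn hx h1; linarith

end drop

/-! ### matching an up-crossing with a down-crossing -/

section matching

variable {q : ℝ} {b : ℕ} {g g' : ℝ → ℝ}

/-- sum of the next two digits -/
noncomputable def dp (q : ℝ) (s : ℝ → ℝ → ℝ) : ℤ := round (-s 0 0 / (2 * q))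
noncomputable def dn (q : ℝ) (s : ℝ → ℝ → ℝ) : ℤ := dp q s / 2
noncomputable def dm (q : ℝ) (s : ℝ → ℝ → ℝ) : ℤ := dp q s - dp q s / 2

/-- next target function -/
noncomputable def nxt (q : ℝ) (b : ℕ) (g g' : ℝ → ℝ) (s : ℝ → ℝ → ℝ) : ℝ → ℝ → ℝ := fun x x' =>
  (s ((dn q s + x) / b) ((dm q s + x') / b) + 2 * q * (dn q s + dm q s)
    - (g ((dn q s + x) / b) - G q b ((dn q s + x) / b))
    - (g' ((dm q s + x') / b) - G q b ((dm q s + x') / b))) / q

/-- target functions that can be met -/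
structure Inv (q : ℝ) (s : ℝ → ℝ → ℝ) : Prop where
  lip : ∀ x x' y y', |s x x' - s y y'| ≤ q / 100 * (|x - y| + |x' - y'|)
  zero : |s 0 0| ≤ 103 / 100

theorem dpn (q : ℝ) (s : ℝ → ℝ → ℝ) : dn q s + dm q s = dp q s := by
  unfold dn dm; ring

theorem dp_le (hp : Par q b) (s : ℝ → ℝ → ℝ) :
    |s 0 0 + 2 * q * dp q s| ≤ q := by
  have hq := hp.q0
  have h1 := abs_sub_round (-s 0 0 / (2 * q))
  have e : s 0 0 + 2 * q * dp q s = -(2 * q * (-s 0 0 / (2 * q) - round (-s 0 0 / (2 * q)))) := by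
    unfold dp; field_simp; ring
  rw [e, abs_neg, abs_mul, abs_of_pos (by linarith : (0:ℝ) < 2 * q)]
  calc 2 * q * |-s 0 0 / (2 * q) - round (-s 0 0 / (2 * q))| ≤ 2 * q * (1 / 2) := by gcongr
    _ = q := by ring

theorem dnm_le (hp : Par q b) {s : ℝ → ℝ → ℝ} (hs : Inv q s) :
    2 * q * |(dn q s : ℝ)| ≤ 3 / 5 ∧ 2 * q * |(dm q s : ℝ)| ≤ 3 / 5 := by
  have hq := hp.q0
  have hq1 := hp.q1
  have h1 := dp_le hp s
  have h2 := hs.zero
  have h3 : |2 * q * (dp q s : ℝ)| ≤ 103 / 100 + q := by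
    have : 2 * q * (dp q s : ℝ) = (s 0 0 + 2 * q * dp q s) - s 0 0 := by ring
    rw [this]
    exact (abs_sub _ _).trans (by linarith)
  obtain ⟨h4, h5⟩ := abs_le.mp h3
  have e1 : 2 * dn q s ≤ dp q s := by unfold dn; omega
  have e2 : dp q s ≤ 2 * dn q s + 1 := by unfold dn; omega
  have e3 : (dm q s : ℝ) = dp q s - dn q s := by unfold dm dn; push_cast; ring
  have e1' : (2 : ℝ) * dn q s ≤ dp q s := by exact_mod_cast e1
  have e2' : (dp q s : ℝ) ≤ 2 * dn q s + 1 := by exact_mod_cast e2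
  have f1 : q * ((2 : ℝ) * dn q s) ≤ q * dp q s := by gcongr
  have f2 : q * (dp q s : ℝ) ≤ q * (2 * dn q s + 1) := by gcongr
  constructor
  · rw [← abs_of_pos (by linarith : (0:ℝ) < 2 * q), ← abs_mul, abs_le]
    constructor <;> nlinarith
  · rw [e3, ← abs_of_pos (by linarith : (0:ℝ) < 2 * q), ← abs_mul, abs_le]
    constructor <;> nlinarith

theorem div_le_aux (hp : Par q b) {c : ℝ} (hc : 2 * q * |c| ≤ 3 / 5) : |c / b| ≤ 3 / 20 := by
  have hq := hp.q0
  have hL := hp.qb
  have hb : (0:ℝ) < b := by linarith [hp.b0]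
  rw [abs_div, abs_of_pos hb, div_le_iff₀ hb]
  have : q * |c| ≤ q * (3 / 20 * b) := by nlinarith
  exact le_of_mul_le_mul_left this hq

theorem Inv.nxt (hp : Par q b) (h : Near q b g) (h' : Near q b g') {s : ℝ → ℝ → ℝ} (hs : Inv q s) :
    Inv q (nxt q b g g' s) := by
  have hq := hp.q0
  have hL := hp.qb
  have hb : (0:ℝ) < b := by linarith [hp.b0]
  constructor
  · intro x x' y y'
    unfold WeierLevel.nxt
    set u := ((dn q s : ℝ) + x) / b
    set u' := ((dm q s : ℝ) + x') / b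
    set v := ((dn q s : ℝ) + y) / b
    set v' := ((dm q s : ℝ) + y') / b
    have e1 : |u - v| = |x - y| / b := by
      have : u - v = (x - y) / b := by simp only [u, v]; ring
      rw [this, abs_div, abs_of_pos hb]
    have e2 : |u' - v'| = |x' - y'| / b := by
      have : u' - v' = (x' - y') / b := by simp only [u', v']; ring
      rw [this, abs_div, abs_of_pos hb]
    have a1 := hs.lip u u' v v'
    have a2 := h.lip u v
    have a3 := h'.lip u' v'
    rw [e1, e2] at a1
    rw [e1] at a2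
    rw [e2] at a3
    rw [← sub_div, abs_div, abs_of_pos hq, div_le_iff₀ hq]
    have e3 : s u u' + 2 * q * (dn q s + dm q s) - (g u - G q b u) - (g' u' - G q b u') -
      (s v v' + 2 * q * (dn q s + dm q s) - (g v - G q b v) - (g' v' - G q b v')) =
      (s u u' - s v v') - ((g u - G q b u) - (g v - G q b v))
        - ((g' u' - G q b u') - (g' v' - G q b v')) := by ring
    rw [e3]
    refine (abs_sub _ _).trans ?_
    refine (add_le_add ((abs_sub _ _).trans (add_le_add a1 a2)) a3).trans ?_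
    have hA : 0 ≤ |x - y| := abs_nonneg _
    have hB : 0 ≤ |x' - y'| := abs_nonneg _
    have e4 : q / 100 * (|x - y| / b + |x' - y'| / b) + q / 100 * (|x - y| / b) +
        q / 100 * (|x' - y'| / b) = (q / 100 * (2 * (|x - y| + |x' - y'|))) / b := by ring
    rw [e4, div_le_iff₀ hb]
    have : q / 100 * (2 * (|x - y| + |x' - y'|)) ≤ q / 100 * ((q * b) * (|x - y| + |x' - y'|)) := by
      gcongr
    linarith
  · unfold WeierLevel.nxt
    obtain ⟨c1, c2⟩ := dnm_le hp hs
    have d1 := div_le_aux hp c1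
    have d2 := div_le_aux hp c2
    rw [add_zero, add_zero]
    set u := (dn q s : ℝ) / b
    set u' := (dm q s : ℝ) / b
    have a1 := hs.lip u u' 0 0
    rw [sub_zero, sub_zero] at a1
    have a2 := h.bd u
    have a3 := h'.bd u'
    have a4 := dp_le hp s
    have a5 : ((dn q s : ℝ) + dm q s) = dp q s := by exact_mod_cast dpn q s
    rw [abs_div, abs_of_pos hq, div_le_iff₀ hq, a5]
    have e : s u u' + 2 * q * (dp q s) - (g u - G q b u) - (g' u' - G q b u') =
      (s u u' - s 0 0) + (s 0 0 + 2 * q * dp q s) - (g u - G q b u) - (g' u' - G q b u') := by ring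
    rw [e]
    have a6 : q / 100 * (|u| + |u'|) ≤ q / 100 * (3 / 20 + 3 / 20) := by gcongr
    refine (abs_sub _ _).trans ((add_le_add ((abs_sub _ _).trans (add_le_add
      ((abs_add_le _ _).trans (add_le_add (a1.trans a6) a4)) a2)) a3).trans ?_)
    linarith

theorem Inv.iter (hp : Par q b) (h : Near q b g) (h' : Near q b g') {s : ℝ → ℝ → ℝ} (hs : Inv q s)
    (k : ℕ) : Inv q ((WeierLevel.nxt q b g g')^[k] s) := by
  induction k generalizing s with
  | zero => exact hs
  | succ k ih =>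
    rw [Function.iterate_succ_apply]
    exact ih (hs.nxt hp h h')

/-- digits of the first point -/
noncomputable def sn (q : ℝ) (b : ℕ) (g g' : ℝ → ℝ) (s : ℝ → ℝ → ℝ) (k : ℕ) : ℤ :=
  dn q ((nxt q b g g')^[k] s)
noncomputable def sm (q : ℝ) (b : ℕ) (g g' : ℝ → ℝ) (s : ℝ → ℝ → ℝ) (k : ℕ) : ℤ :=
  dm q ((nxt q b g g')^[k] s)

theorem tl_sn (s : ℝ → ℝ → ℝ) : tl (sn q b g g' s) = sn q b g g' (nxt q b g g' s) := rfl
theorem tl_sm (s : ℝ → ℝ → ℝ) : tl (sm q b g g' s) = sm q b g g' (nxt q b g g' s) := rfl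

theorem dig_sn (hp : Par q b) (h : Near q b g) (h' : Near q b g') {s : ℝ → ℝ → ℝ} (hs : Inv q s) :
    Dig q (sn q b g g' s) := fun k => (dnm_le hp (hs.iter hp h h' k)).1
theorem dig_sm (hp : Par q b) (h : Near q b g) (h' : Near q b g') {s : ℝ → ℝ → ℝ} (hs : Inv q s) :
    Dig q (sm q b g g' s) := fun k => (dnm_le hp (hs.iter hp h h' k)).2

/-- defect -/
noncomputable def DD (q : ℝ) (b : ℕ) (g g' : ℝ → ℝ) (s : ℝ → ℝ → ℝ) : ℝ :=
  Wq q b g (X b (sn q b g g' s)) + Wq q b g' (X b (sm q b g g' s))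
    - s (X b (sn q b g g' s)) (X b (sm q b g g' s))

theorem DD_rec (hp : Par q b) (h : Near q b g) (h' : Near q b g') {s : ℝ → ℝ → ℝ} (hs : Inv q s) :
    DD q b g g' s = q * DD q b g g' (nxt q b g g' s) := by
  have hq := hp.q0
  have hb : (0:ℝ) < b := by linarith [hp.b0]
  have n1 := dig_sn hp h h' hs
  have n2 := dig_sm hp h h' hs
  have r1 := X_rec hp n1
  have r2 := X_rec hp n2
  rw [tl_sn] at r1
  rw [tl_sm] at r2
  have z1 : sn q b g g' s 0 = dn q s := rfl
  have z2 : sm q b g g' s 0 = dm q s := rfl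
  rw [z1] at r1
  rw [z2] at r2
  have g1 := G_X hp n1
  have g2 := G_X hp n2
  rw [z1] at g1
  rw [z2] at g2
  have w1 := h.W_eq hp (X b (sn q b g g' s))
  have w2 := h'.W_eq hp (X b (sm q b g g' s))
  rw [r1, add_comm (dn q s : ℝ), Wq_per h.per] at w1
  rw [r2, add_comm (dm q s : ℝ), Wq_per h'.per] at w2
  have x1 : ((dn q s : ℝ) + X b (sn q b g g' (nxt q b g g' s))) / b = X b (sn q b g g' s) := by
    rw [← r1]; field_simp
  have x2 : ((dm q s : ℝ) + X b (sm q b g g' (nxt q b g g' s))) / b = X b (sm q b g g' s) := by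
    rw [← r2]; field_simp
  have key : q * nxt q b g g' s (X b (sn q b g g' (nxt q b g g' s)))
      (X b (sm q b g g' (nxt q b g g' s))) =
      s (X b (sn q b g g' s)) (X b (sm q b g g' s)) + 2 * q * (dn q s + dm q s)
        - (g (X b (sn q b g g' s)) - G q b (X b (sn q b g g' s)))
        - (g' (X b (sm q b g g' s)) - G q b (X b (sm q b g g' s))) := by
    conv_lhs => rw [nxt]
    rw [x1, x2]
    field_simp
  unfold DD
  rw [mul_sub, key, w1, w2, g1, g2]
  ring

theorem DD_zero (hp : Par q b) (h : Near q b g) (h' : Near q b g') {s : ℝ → ℝ → ℝ} (hs : Inv q s) :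
    DD q b g g' s = 0 := by
  have hq := hp.q0
  have hq1 := hp.q1
  have h1 : ∀ k : ℕ, ∀ s : ℝ → ℝ → ℝ, Inv q s →
      DD q b g g' s = q ^ k * DD q b g g' ((nxt q b g g')^[k] s) := by
    intro k
    induction k with
    | zero => intro s _; simp
    | succ k ih =>
      intro s hs
      rw [DD_rec hp h h' hs, ih _ (hs.nxt hp h h'), Function.iterate_succ_apply]
      ring
  have h2 : ∀ s : ℝ → ℝ → ℝ, Inv q s → |DD q b g g' s| ≤ 4 := by
    intro s hs
    unfold DD
    have a1 := h.W_bd hp (X b (sn q b g g' s))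
    have a2 := h'.W_bd hp (X b (sm q b g g' s))
    have a3 := hs.lip (X b (sn q b g g' s)) (X b (sm q b g g' s)) 0 0
    have a4 := hs.zero
    have a5 := X_bd hp (dig_sn hp h h' hs)
    have a6 := X_bd hp (dig_sm hp h h' hs)
    rw [sub_zero, sub_zero] at a3
    have a7 : |s (X b (sn q b g g' s)) (X b (sm q b g g' s))| ≤ 3 / 2 := by
      have e : s (X b (sn q b g g' s)) (X b (sm q b g g' s)) =
        (s (X b (sn q b g g' s)) (X b (sm q b g g' s)) - s 0 0) + s 0 0 := by ring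
      rw [e]
      refine (abs_add_le _ _).trans ?_
      have : q / 100 * (|X b (sn q b g g' s)| + |X b (sm q b g g' s)|) ≤
        (1 / 20) / 100 * (1 / 6 + 1 / 6) := by gcongr
      linarith
    refine (abs_sub _ _).trans ((add_le_add ((abs_add_le _ _).trans (add_le_add a1 a2)) a7).trans ?_)
    norm_num
  have h3 : ∀ k : ℕ, |DD q b g g' s| ≤ q ^ k * 4 := by
    intro k
    rw [h1 k s hs, abs_mul, abs_of_pos (pow_pos hq k)]
    exact mul_le_mul_of_nonneg_left (h2 _ (hs.iter hp h h' k)) (pow_pos hq k).le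
  have h4 : Filter.Tendsto (fun k : ℕ => q ^ k * 4) Filter.atTop (nhds (0 * 4)) :=
    (tendsto_pow_atTop_nhds_zero_of_lt_one hq.le (by linarith)).mul_const 4
  rw [zero_mul] at h4
  have h5 : |DD q b g g' s| ≤ 0 := ge_of_tendsto' h4 h3
  exact abs_nonpos_iff.mp h5

theorem matching (hp : Par q b) (h : Near q b g) (h' : Near q b g') :
    ∃ n m : ℕ → ℤ, Dig q n ∧ Dig q m ∧ Wq q b g (X b n) + Wq q b g' (X b m) = 0 := by
  have hq := hp.q0
  have hs : Inv q (fun _ _ => (0:ℝ)) := by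
    constructor
    · intro x x' y y'
      simp only [sub_self, abs_zero]
      positivity
    · simp only [abs_zero]; norm_num
  refine ⟨_, _, dig_sn hp h h' hs, dig_sm hp h h' hs, ?_⟩
  have := DD_zero hp h h' hs
  unfold DD at this
  simpa using this

end matching

theorem two_points {q : ℝ} {b : ℕ} {g : ℝ → ℝ} (hp : Par q b) (hb : Odd b) (h : Near q b g) :
    ∃ x1 x2 : ℝ, |x1| ≤ 1 / 6 ∧ |x2| ≤ 1 / 6 ∧ Wq q b g (x2 + 1 / 2) = Wq q b g x1 ∧
      (∀ x, |x| ≤ 1 / 4 → Wq q b g x = Wq q b g x1 → x = x1) ∧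
      (∀ x, |x| ≤ 1 / 4 → Wq q b g (x + 1 / 2) = Wq q b g x1 → x = x2) ∧
      Wq q b g (1 / 4) < Wq q b g x1 ∧ Wq q b g x1 < Wq q b g (-1 / 4) := by
  obtain ⟨n, m, hn, hm, he⟩ := matching hp h (h.sh hp)
  have a1 := X_bd hp hn
  have a2 := X_bd hp hm
  obtain ⟨a3, a4⟩ := abs_le.mp a1
  rw [Wq_sh hb h.per] at he
  refine ⟨X b n, X b m, a1, a2, by linarith, fun x hx hxe => uniq hp h hn hx hxe, ?_, ?_, ?_⟩
  · intro x hx hxe
    refine uniq hp (h.sh hp) hm hx ?_
    rw [Wq_sh hb h.per, Wq_sh hb h.per]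
    linarith
  · exact drop hp h hn (by rw [abs_le]; norm_num) (by linarith)
  · exact rise hp h hn (by rw [abs_le]; norm_num) (by linarith)

/-! ### the level set in the circle and the space `Lip(S¹)` -/

/-- The Banach space `Lip(S¹)` with the norm `sup |g| + sup_{x ≠ y} |g x - g y| / |x - y|`. -/
def LS : Type := LipS1

noncomputable instance instLS : NormedAddCommGroup LS := lipGroupNorm.toNormedAddCommGroup

/-- the `1`-periodic function on `ℝ` given by an element of `Lip(S¹)` -/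
def LS.fn (g : LS) : ℝ → ℝ := Subtype.val (p := fun x => x ∈ LipS1) g

theorem LS.lipPer (g : LS) : LipPer g.fn := Subtype.property (p := fun x => x ∈ LipS1) g

theorem LS.norm_def (g : LS) : ‖g‖ = supN g.fn + lipN g.fn := rfl

theorem LS.sub_fn (g h : LS) (x : ℝ) : (g - h).fn x = g.fn x - h.fn x := rfl

/-- an element of `LS` from a Lipschitz function -/
def LS.mk (g : ℝ → ℝ) (h : LipPer g) : LS := (⟨g, h⟩ : LipS1)

theorem LS.mk_fn (g : ℝ → ℝ) (h : LipPer g) : (LS.mk g h).fn = g := rfl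

theorem W_eq_Wq (b : ℕ) (α : ℝ) (g : ℝ → ℝ) : W b α g = Wq ((b : ℝ) ^ (-α)) b g := by
  funext x
  unfold W Wq
  refine tsum_congr fun k => ?_
  have : (b : ℝ) ^ (-(α * k)) = ((b : ℝ) ^ (-α)) ^ k := by
    rw [← Real.rpow_natCast ((b : ℝ) ^ (-α)) k, ← Real.rpow_mul (Nat.cast_nonneg b)]
    congr 1; ring
  rw [this]

theorem G_lipPer {q : ℝ} {b : ℕ} (hp : Par q b) : LipPer (G q b) := by
  have hq := hp.q0
  have hb : (0:ℝ) < b := by linarith [hp.b0]
  refine ⟨fun x => G_per x, ⟨2 * q * (q * b) * b, by positivity⟩, ?_⟩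
  refine LipschitzWith.of_dist_le_mul fun x y => ?_
  rw [Real.dist_eq, Real.dist_eq]
  exact G_lip hp x y

theorem near_of_ball {q : ℝ} {b : ℕ} (hp : Par q b) {g : LS}
    (hg : g ∈ Metric.ball (LS.mk (G q b) (G_lipPer hp)) (q / 100)) : Near q b g.fn := by
  rw [Metric.mem_ball, dist_eq_norm, LS.norm_def] at hg
  have h0 := (g - LS.mk (G q b) (G_lipPer hp)).lipPer
  have h1 := supN_nonneg (g - LS.mk (G q b) (G_lipPer hp)).fn
  have h2 := lipN_nonneg (g - LS.mk (G q b) (G_lipPer hp)).fn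
  refine ⟨g.lipPer.1, fun x => ?_, fun x y => ?_⟩
  · have := le_supN h0 x
    rw [LS.sub_fn, LS.mk_fn] at this
    linarith
  · have := le_lipN h0 x y
    rw [LS.sub_fn, LS.sub_fn, LS.mk_fn] at this
    refine this.trans ?_
    gcongr
    linarith

theorem level_two {q : ℝ} {b : ℕ} {g : ℝ → ℝ} (hp : Par q b) (hb : Odd b) (h : Near q b g) :
    ∃ y ∈ interior (range (Wq q b g)), {x : ℝ | x ∈ Ico (0:ℝ) 1 ∧ Wq q b g x = y}.encard = 2 := by
  obtain ⟨x1, x2, h1, h2, h3, h4, h5, h6, h7⟩ := two_points hp hb h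
  obtain ⟨l1, u1⟩ := abs_le.mp h1
  obtain ⟨l2, u2⟩ := abs_le.mp h2
  refine ⟨Wq q b g x1, ?_, ?_⟩
  · rw [mem_interior]
    refine ⟨Ioo (Wq q b g (1 / 4)) (Wq q b g (-1 / 4)), ?_, isOpen_Ioo, h6, h7⟩
    intro y hy
    have hc := (h.W_cont hp).continuousOn (s := Icc (-1 / 4 : ℝ) (1 / 4))
    obtain ⟨x, _, hx⟩ := intermediate_value_Icc' (by norm_num) hc ⟨hy.1.le, hy.2.le⟩
    exact ⟨x, hx⟩
  · have hset : {x : ℝ | x ∈ Ico (0:ℝ) 1 ∧ Wq q b g x = Wq q b g x1} = {Int.fract x1, x2 + 1 / 2} := by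
      ext x
      simp only [mem_ofPred_eq, mem_insert_iff, mem_singleton_iff, mem_Ico]
      constructor
      · rintro ⟨⟨hx0, hx1⟩, hx⟩
        rcases le_or_gt x (1 / 4) with c | c
        · left
          rw [← h4 x (abs_le.mpr ⟨by linarith, c⟩) hx, Int.fract_eq_self.mpr ⟨hx0, hx1⟩]
        · rcases le_or_gt x (3 / 4) with d | d
          · right
            have e : x - 1 / 2 + 1 / 2 = x := by ring
            have := h5 (x - 1 / 2) (abs_le.mpr ⟨by linarith, by linarith⟩) (by rw [e]; exact hx)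
            linarith
          · left
            have e : Wq q b g (x + ((-1 : ℤ) : ℝ)) = Wq q b g x := Wq_per h.per x (-1)
            have := h4 (x + ((-1 : ℤ) : ℝ)) (abs_le.mpr ⟨by push_cast; linarith, by push_cast; linarith⟩)
              (by rw [e]; exact hx)
            rw [← this, Int.fract_add_intCast, Int.fract_eq_self.mpr ⟨hx0, hx1⟩]
      · rintro (rfl | rfl)
        · refine ⟨⟨Int.fract_nonneg _, Int.fract_lt_one _⟩, ?_⟩
          have e : Int.fract x1 = x1 + ((-⌊x1⌋ : ℤ) : ℝ) := by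
            have := Int.floor_add_fract x1
            push_cast; linarith
          rw [e, Wq_per h.per]
        · exact ⟨⟨by linarith, by linarith⟩, h3⟩
    rw [hset]
    refine Set.encard_pair ?_
    intro he
    rcases le_or_gt 0 x1 with c | c
    · rw [Int.fract_eq_self.mpr ⟨c, by linarith⟩] at he
      linarith
    · have : Int.fract x1 = x1 + 1 := by
        rw [Int.fract_eq_iff]
        exact ⟨by linarith, by linarith, -1, by push_cast; ring⟩
      rw [this] at he
      linarith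

theorem not_shy {Y : Type*} [NormedAddCommGroup Y] {A : Set Y} {g₀ : Y} {r : ℝ} (hr : 0 < r)
    (hA : Metric.ball g₀ r ⊆ A) : ¬ IsShy A := by
  rintro ⟨μ, B, hAB, -, ⟨K, hK, hK0, -⟩, hμ⟩
  let _ : MeasurableSpace Y := borel Y
  have hcov : ∀ x ∈ K, (fun z => (x - g₀) + z) '' B ∈ nhds x := by
    intro x _
    refine Filter.mem_of_superset (Metric.ball_mem_nhds x hr) ?_
    intro z hz
    refine ⟨z - (x - g₀), hAB (hA ?_), by simp⟩
    rw [Metric.mem_ball, dist_eq_norm] at hz ⊢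
    have : z - (x - g₀) - g₀ = z - x := by abel
    rwa [this]
  obtain ⟨t, -, ht⟩ := hK.elim_nhds_subcover (fun x => (fun z => (x - g₀) + z) '' B) hcov
  have : μ K = 0 := by
    refine measure_mono_null ht ?_
    exact (measure_biUnion_null_iff t.countable_toSet).mpr (fun x _ => hμ (x - g₀))
  exact hK0.ne' this

/-- the parameters -/
theorem par_of {b : ℕ} {α : ℝ} (h1 : (20 : ℝ) ≤ (b : ℝ) ^ α) (h2 : (2 : ℝ) ≤ (b : ℝ) ^ (1 - α))
    (hb : 0 < b) : Par ((b : ℝ) ^ (-α)) b := by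
  have hb' : (0:ℝ) < b := by exact_mod_cast hb
  refine ⟨Real.rpow_pos_of_pos hb' _, ?_, ?_⟩
  · rw [Real.rpow_neg hb'.le, one_div]
    exact inv_anti₀ (by norm_num) h1
  · have : (b : ℝ) ^ (-α) * b = (b : ℝ) ^ (1 - α) := by
      nth_rewrite 2 [← Real.rpow_one (b : ℝ)]
      rw [← Real.rpow_add hb']
      congr 1; ring
    rw [this]; exact h2

theorem main_ball {b : ℕ} {α : ℝ} (hb : Odd b) (h1 : (20 : ℝ) ≤ (b : ℝ) ^ α)
    (h2 : (2 : ℝ) ≤ (b : ℝ) ^ (1 - α)) :
    ∃ (g₀ : LS) (r : ℝ), 0 < r ∧ ∀ g : LS, ‖g - g₀‖ < r →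
      ∃ y ∈ interior (range (W b α g.fn)),
        {x : ℝ | x ∈ Ico (0:ℝ) 1 ∧ W b α g.fn x = y}.encard = 2 := by
  have hp := par_of h1 h2 hb.pos
  refine ⟨LS.mk (G _ b) (G_lipPer hp), (b : ℝ) ^ (-α) / 100, ?_, ?_⟩
  · have := hp.q0
    positivity
  · intro g hg
    rw [W_eq_Wq]
    exact level_two hp hb (near_of_ball hp (by rwa [Metric.mem_ball, dist_eq_norm]))

theorem main_shy {b : ℕ} {α : ℝ} (hb : Odd b) (hα : α < 1) (h1 : (20 : ℝ) ≤ (b : ℝ) ^ α)
    (h2 : (2 : ℝ) ≤ (b : ℝ) ^ (1 - α)) :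
    ¬ IsShy {g : LS | ¬ ∀ y ∈ interior (range (W b α g.fn)),
      dimH {x : ℝ | x ∈ Ico (0:ℝ) 1 ∧ W b α g.fn x = y} = ENNReal.ofReal (1 - α)} := by
  obtain ⟨g₀, r, hr, h⟩ := main_ball hb h1 h2
  refine not_shy hr (g₀ := g₀) ?_
  intro g hg hc
  rw [Metric.mem_ball, dist_eq_norm] at hg
  obtain ⟨y, hy, hy2⟩ := h g hg
  have h3 := hc y hy
  have hfin : {x : ℝ | x ∈ Ico (0:ℝ) 1 ∧ W b α g.fn x = y}.Finite :=
    Set.finite_of_encard_eq_coe (k := 2) hy2
  rw [hfin.dimH_zero] at h3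
  have : ENNReal.ofReal (1 - α) ≠ 0 := by
    rw [Ne, ENNReal.ofReal_eq_zero]
    linarith
  exact this h3.symm

end Pool.Agent.V1114.WeierLevel
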